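import Mathlib

set_option autoImplicit false

/-!
# Definitions for the proof that countably categorical alternative nilrings are solvable
-/

namespace Pool.Agent.K6.H1.Alt

universe u

section

variable {A : Type u} [NonUnitalNonAssocRing A]

/-- The left-normed power `x^(n+1)`. -/
def pw (x : A) (n : ℕ) : A := (fun y => y * x)^[n] x

/-- Words in `a` and constants: `Wd a m w` says that `w` is a (nonassociative) product of elements of
the ring, exactly `m` of which are marked and equal to `a`. -/
inductive Wd (a : A) : ℕ → A → Prop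
  | base : Wd a 1 a
  | const (c : A) : Wd a 0 c
  | mul {m n : ℕ} {x y : A} : Wd a m x → Wd a n y → Wd a (m + n) (x * y)

/-- Every product containing `a` twice is zero (the ideal generated by `a` has zero multiplication,
in a strong sense). -/
def SqZ (a : A) : Prop := ∀ w : A, Wd a 2 w → w = 0

/-- Two-sided ideals (as additive subgroups) stable under all automorphisms of the ring. -/
structure CharIdeal (I : AddSubgroup A) : Prop where
  mul_mem : ∀ x ∈ I, ∀ y : A, x * y ∈ I ∧ y * x ∈ I
  aut_mem : ∀ σ : A ≃+* A, ∀ x ∈ I, σ x ∈ I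

/-- The derived powers of an additive subgroup. -/
def derS (I : AddSubgroup A) : ℕ → AddSubgroup A
  | 0 => I
  | k + 1 => AddSubgroup.closure {z : A | ∃ u ∈ derS I k, ∃ v ∈ derS I k, u * v = z}

/-- Solvability of an additive subgroup. -/
def Solv (I : AddSubgroup A) : Prop := ∃ k : ℕ, derS I k = ⊥

end

/-- Alternative rings. -/
def IsAlt (A : Type u) [NonUnitalNonAssocRing A] : Prop :=
  ∀ x y : A, (x * x) * y = x * (x * y) ∧ (y * x) * x = y * (x * x)

/-- Nil rings. -/
def IsNil (A : Type u) [NonUnitalNonAssocRing A] : Prop := ∀ x : A, ∃ n : ℕ, pw x n = 0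

/-- For every `n` the automorphism group has finitely many orbits on `n`-tuples. -/
def Olig (A : Type u) [NonUnitalNonAssocRing A] : Prop :=
  ∀ n : ℕ, ∃ (N : ℕ) (c : (Fin n → A) → Fin N), ∀ x y : Fin n → A, c x = c y →
    ∃ σ : A ≃+* A, ∀ i, σ (x i) = y i

end Pool.Agent.K6.H1.Alt
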