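import Mathlib
import Pool.Agent.K6.H1.Alt.Defs

set_option autoImplicit false

/-!
# Reduction to rings without solvable characteristic ideals

Let `A` be a ring with an oligomorphic automorphism group. There are finitely many characteristic
ideals, so there is a maximal solvable one, and the quotient by it has no nonzero solvable
characteristic ideals.
-/

namespace Pool.Agent.K6.H1.Alt

universe u

namespace Assembly

variable {A : Type u} [NonUnitalNonAssocRing A]

theorem derS_le (I : AddSubgroup A) (hI : CharIdeal I) (k : ℕ) : derS I k ≤ I := by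
  induction k with
  | zero => exact le_refl _
  | succ k ih =>
    show AddSubgroup.closure _ ≤ I
    rw [AddSubgroup.closure_le]
    rintro z ⟨u, hu, v, hv, rfl⟩
    exact (hI.mul_mem u (ih hu) v).1

theorem derS_mono {I J : AddSubgroup A} (h : I ≤ J) (k : ℕ) : derS I k ≤ derS J k := by
  induction k with
  | zero => exact h
  | succ k ih =>
    show AddSubgroup.closure _ ≤ AddSubgroup.closure _
    apply AddSubgroup.closure_mono
    rintro z ⟨u, hu, v, hv, rfl⟩
    exact ⟨u, ih hu, v, ih hv, rfl⟩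

theorem derS_add (I : AddSubgroup A) (k m : ℕ) : derS I (k + m) = derS (derS I k) m := by
  induction m with
  | zero => rfl
  | succ m ih =>
    show AddSubgroup.closure {z : A | ∃ u ∈ derS I (k + m), ∃ v ∈ derS I (k + m), u * v = z} =
      AddSubgroup.closure {z : A | ∃ u ∈ derS (derS I k) m, ∃ v ∈ derS (derS I k) m, u * v = z}
    rw [ih]

/-- the congruence modulo a characteristic ideal -/
def con (I : AddSubgroup A) (hI : CharIdeal I) : RingCon A where
  r x y := x - y ∈ I
  iseqv :=
    { refl := fun x => by simp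
      symm := fun {x y} h => by
        have := I.neg_mem h
        simpa using this
      trans := fun {x y z} h h' => by
        have := I.add_mem h h'
        simpa using this }
  mul' := fun {w x y z} h h' => by
    have h1 : w * y - x * z = (w - x) * y + x * (y - z) := by
      rw [sub_mul, mul_sub]; abel
    show w * y - x * z ∈ I
    rw [h1]
    exact I.add_mem (hI.mul_mem _ h _).1 (hI.mul_mem _ h' _).2
  add' := fun {w x y z} h h' => by
    have h1 : (w + y) - (x + z) = (w - x) + (y - z) := by abel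
    show (w + y) - (x + z) ∈ I
    rw [h1]
    exact I.add_mem h h'

/-- the quotient map -/
def q (I : AddSubgroup A) (hI : CharIdeal I) (x : A) : (con I hI).Quotient := (x : (con I hI).Quotient)

variable (I : AddSubgroup A) (hI : CharIdeal I)

theorem q_add (x y : A) : q I hI (x + y) = q I hI x + q I hI y := rfl

theorem q_mul (x y : A) : q I hI (x * y) = q I hI x * q I hI y := rfl

theorem q_zero : q I hI 0 = 0 := rfl

theorem q_eq (x y : A) : q I hI x = q I hI y ↔ x - y ∈ I := by
  show ((x : (con I hI).Quotient) = (y : (con I hI).Quotient)) ↔ _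
  rw [RingCon.eq]
  exact Iff.rfl

theorem q_eq_zero (x : A) : q I hI x = 0 ↔ x ∈ I := by
  rw [← q_zero, q_eq, sub_zero]

theorem q_surj (b : (con I hI).Quotient) : ∃ x : A, q I hI x = b := by
  induction b using Quotient.inductionOn' with
  | h x => exact ⟨x, rfl⟩

/-- a representative -/
noncomputable def rep (b : (con I hI).Quotient) : A := (q_surj I hI b).choose

theorem q_rep (b : (con I hI).Quotient) : q I hI (rep I hI b) = b := (q_surj I hI b).choose_spec

theorem alt_quot (hA : IsAlt A) : IsAlt (con I hI).Quotient := by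
  intro x y
  obtain ⟨x, rfl⟩ := q_surj I hI x
  obtain ⟨y, rfl⟩ := q_surj I hI y
  constructor
  · rw [← q_mul, ← q_mul, ← q_mul, ← q_mul, (hA x y).1]
  · rw [← q_mul, ← q_mul, ← q_mul, ← q_mul, (hA x y).2]

theorem pw_succ (x : A) (n : ℕ) : pw x (n + 1) = pw x n * x := by
  unfold pw
  rw [Function.iterate_succ_apply']

theorem q_pw (x : A) (n : ℕ) : q I hI (pw x n) = pw (q I hI x) n := by
  induction n with
  | zero => rfl
  | succ n ih => rw [pw_succ, pw_succ, q_mul, ih]

theorem nil_quot (hN : IsNil A) : IsNil (con I hI).Quotient := by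
  intro x
  obtain ⟨x, rfl⟩ := q_surj I hI x
  obtain ⟨n, hn⟩ := hN x
  exact ⟨n, by rw [← q_pw, hn, q_zero]⟩

theorem exists_desc (σ : A ≃+* A) :
    ∃ τ : (con I hI).Quotient ≃+* (con I hI).Quotient, ∀ x, τ (q I hI x) = q I hI (σ x) := by
  have key : ∀ (ρ : A ≃+* A) (x y : A), q I hI x = q I hI y → q I hI (ρ x) = q I hI (ρ y) := by
    intro ρ x y h
    rw [q_eq] at h ⊢
    rw [← map_sub]
    exact hI.aut_mem ρ _ h
  let F : (A ≃+* A) → (con I hI).Quotient → (con I hI).Quotient :=
    fun ρ b => q I hI (ρ (rep I hI b))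
  have hF : ∀ (ρ : A ≃+* A) (x : A), F ρ (q I hI x) = q I hI (ρ x) := by
    intro ρ x
    exact key ρ _ _ (q_rep I hI _)
  refine ⟨{ toFun := F σ
            invFun := F σ.symm
            left_inv := ?_
            right_inv := ?_
            map_mul' := ?_
            map_add' := ?_ }, ?_⟩
  · intro b
    have h1 : F σ.symm (F σ b) = q I hI (σ.symm (σ (rep I hI b))) := hF _ _
    rw [h1, RingEquiv.symm_apply_apply, q_rep]
  · intro b
    have h1 : F σ (F σ.symm b) = q I hI (σ (σ.symm (rep I hI b))) := hF _ _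
    rw [h1, RingEquiv.apply_symm_apply, q_rep]
  · intro b c
    obtain ⟨x, rfl⟩ := q_surj I hI b
    obtain ⟨y, rfl⟩ := q_surj I hI c
    rw [← q_mul, hF, hF, hF, map_mul, q_mul]
  · intro b c
    obtain ⟨x, rfl⟩ := q_surj I hI b
    obtain ⟨y, rfl⟩ := q_surj I hI c
    rw [← q_add, hF, hF, hF, map_add, q_add]
  · intro x
    exact hF σ x

theorem olig_quot (hO : Olig A) : Olig (con I hI).Quotient := by
  intro n
  obtain ⟨N, c, hc⟩ := hO n
  refine ⟨N, fun x => c (fun i => rep I hI (x i)), ?_⟩
  intro x y h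
  obtain ⟨σ, hσ⟩ := hc _ _ h
  obtain ⟨τ, hτ⟩ := exists_desc I hI σ
  refine ⟨τ, fun i => ?_⟩
  have h1 := hτ (rep I hI (x i))
  rw [q_rep, hσ i, q_rep] at h1
  exact h1

/-- the preimage of a subgroup of the quotient -/
def pre (K : AddSubgroup (con I hI).Quotient) : AddSubgroup A where
  carrier := {x | q I hI x ∈ K}
  zero_mem' := by
    show q I hI 0 ∈ K
    rw [q_zero]
    exact K.zero_mem
  add_mem' := fun {x y} hx hy => by
    show q I hI (x + y) ∈ K
    rw [q_add]
    exact K.add_mem hx hy
  neg_mem' := fun {x} hx => by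
    show q I hI (-x) ∈ K
    have h1 : q I hI (-x) = -(q I hI x) := by
      rw [eq_neg_iff_add_eq_zero, ← q_add, neg_add_cancel, q_zero]
    rw [h1]
    exact K.neg_mem hx

theorem mem_pre (K : AddSubgroup (con I hI).Quotient) (x : A) : x ∈ pre I hI K ↔ q I hI x ∈ K :=
  Iff.rfl

theorem le_pre (K : AddSubgroup (con I hI).Quotient) : I ≤ pre I hI K := by
  intro x hx
  rw [mem_pre, (q_eq_zero I hI x).2 hx]
  exact K.zero_mem

theorem pre_charIdeal (K : AddSubgroup (con I hI).Quotient) (hK : CharIdeal K) :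
    CharIdeal (pre I hI K) := by
  refine ⟨?_, ?_⟩
  · intro x hx y
    rw [mem_pre] at hx
    constructor
    · rw [mem_pre, q_mul]
      exact (hK.mul_mem _ hx _).1
    · rw [mem_pre, q_mul]
      exact (hK.mul_mem _ hx _).2
  · intro σ x hx
    obtain ⟨τ, hτ⟩ := exists_desc I hI σ
    rw [mem_pre] at hx ⊢
    rw [← hτ]
    exact hK.aut_mem τ _ hx

theorem q_derS (K : AddSubgroup (con I hI).Quotient) (k : ℕ) :
    ∀ x ∈ derS (pre I hI K) k, q I hI x ∈ derS K k := by
  induction k with
  | zero => intro x hx; exact hx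
  | succ k ih =>
    have h1 : derS (pre I hI K) (k + 1) ≤ pre I hI (derS K (k + 1)) := by
      show AddSubgroup.closure _ ≤ _
      rw [AddSubgroup.closure_le]
      rintro z ⟨u, hu, v, hv, rfl⟩
      show q I hI (u * v) ∈ derS K (k + 1)
      rw [q_mul]
      exact AddSubgroup.subset_closure ⟨_, ih u hu, _, ih v hv, rfl⟩
    intro x hx
    exact h1 hx

theorem pre_solv (hs : Solv I) (K : AddSubgroup (con I hI).Quotient) (hK : Solv K) :
    Solv (pre I hI K) := by
  obtain ⟨m, hm⟩ := hs
  obtain ⟨k, hk⟩ := hK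
  refine ⟨k + m, ?_⟩
  have h1 : derS (pre I hI K) k ≤ I := by
    intro x hx
    have := q_derS I hI K k x hx
    rw [hk, AddSubgroup.mem_bot] at this
    exact (q_eq_zero I hI x).1 this
  rw [derS_add, eq_bot_iff]
  exact (derS_mono h1 m).trans hm.le

/-- there are finitely many characteristic ideals -/
theorem finite_charIdeal (hO : Olig A) : {I : AddSubgroup A | CharIdeal I}.Finite := by
  obtain ⟨N, c, hc⟩ := hO 1
  classical
  apply Set.Finite.of_injOn (f := fun I : AddSubgroup A =>
    {j : Fin N | ∃ x ∈ I, c (fun _ => x) = j}) (t := Set.univ) (fun _ _ => Set.mem_univ _) ?_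
    Set.finite_univ
  have key : ∀ I J : AddSubgroup A, CharIdeal J →
      ({j : Fin N | ∃ x ∈ I, c (fun _ => x) = j} = {j : Fin N | ∃ x ∈ J, c (fun _ => x) = j}) →
      I ≤ J := by
    intro I J hJ h x hx
    have h1 : c (fun _ => x) ∈ {j : Fin N | ∃ x ∈ J, c (fun _ => x) = j} := by
      rw [← h]
      exact ⟨x, hx, rfl⟩
    obtain ⟨y, hy, hyx⟩ := h1
    obtain ⟨σ, hσ⟩ := hc _ _ hyx
    have := hJ.aut_mem σ y hy
    rw [hσ 0] at this
    exact this
  intro I hI J hJ h
  exact le_antisymm (key I J hJ h) (key J I hI h.symm)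

theorem charIdeal_bot : CharIdeal (⊥ : AddSubgroup A) := by
  refine ⟨?_, ?_⟩
  · intro x hx y
    rw [AddSubgroup.mem_bot] at hx
    subst hx
    simp
  · intro σ x hx
    rw [AddSubgroup.mem_bot] at hx
    subst hx
    simp

end Assembly

open Assembly

theorem assembly (A : Type u) [NonUnitalNonAssocRing A] (hA : IsAlt A) (hN : IsNil A) (hO : Olig A)
    (h : ∀ (B : Type u) [NonUnitalNonAssocRing B], IsAlt B → IsNil B → Olig B →
      (∀ I : AddSubgroup B, CharIdeal I → Solv I → I = ⊥) → ∀ b : B, b = 0) :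
    Solv (⊤ : AddSubgroup A) := by
  have hfin : {I : AddSubgroup A | CharIdeal I ∧ Solv I}.Finite :=
    (finite_charIdeal hO).subset (fun I hI => hI.1)
  obtain ⟨I, hmax⟩ := hfin.exists_maximal ⟨⊥, charIdeal_bot, 0, rfl⟩
  obtain ⟨⟨hI, hs⟩, hmax⟩ := hmax
  have hB := h (con I hI).Quotient (alt_quot I hI hA) (nil_quot I hI hN) (olig_quot I hI hO) (by
    intro K hK hKs
    have h1 : pre I hI K ≤ I :=
      hmax ⟨pre_charIdeal I hI K hK, pre_solv I hI hs K hKs⟩ (le_pre I hI K)
    rw [eq_bot_iff]
    intro b hb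
    obtain ⟨x, rfl⟩ := q_surj I hI b
    have h2 : x ∈ I := h1 hb
    rw [AddSubgroup.mem_bot]
    exact (q_eq_zero I hI x).2 h2)
  have htop : I = ⊤ := by
    rw [eq_top_iff]
    intro x _
    exact (q_eq_zero I hI x).1 (hB _)
  rw [← htop]
  exact hs

theorem boundedInv (A : Type u) [NonUnitalNonAssocRing A] (hO : Olig A) (f : A → ℕ)
    (hf : ∀ (σ : A ≃+* A) (x : A), f (σ x) = f x) : ∃ n : ℕ, ∀ x : A, f x ≤ n := by
  classical
  obtain ⟨N, c, hc⟩ := hO 1
  have hfin : (Set.range f).Finite := by
    have h1 : ∀ x y : A, c (fun _ => x) = c (fun _ => y) → f x = f y := by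
      intro x y hxy
      obtain ⟨σ, hσ⟩ := hc _ _ hxy
      have h2 : σ x = y := hσ 0
      rw [← h2, hf]
    have h2 : Set.range f ⊆ Set.range (fun j : Fin N =>
        if h : ∃ x : A, c (fun _ => x) = j then f h.choose else 0) := by
      rintro _ ⟨x, rfl⟩
      refine ⟨c (fun _ => x), ?_⟩
      have hex : ∃ y : A, c (fun _ => y) = c (fun _ => x) := ⟨x, rfl⟩
      show (if h : ∃ y : A, c (fun _ => y) = c (fun _ => x) then f h.choose else 0) = f x
      rw [dif_pos hex]
      exact h1 _ _ hex.choose_spec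
    exact (Set.finite_range _).subset h2
  obtain ⟨n, hn⟩ := hfin.bddAbove
  exact ⟨n, fun x => hn ⟨x, rfl⟩⟩

theorem pw_zero_mul {A : Type u} [NonUnitalNonAssocRing A] (x : A) (n m : ℕ) (h : pw x n = 0)
    (hnm : n ≤ m) : pw x m = 0 := by
  induction m, hnm using Nat.le_induction with
  | base => exact h
  | succ m _ ih => rw [pw_succ, ih, zero_mul]

theorem map_pw {A : Type u} [NonUnitalNonAssocRing A] (σ : A ≃+* A) (x : A) (n : ℕ) :
    σ (pw x n) = pw (σ x) n := by
  induction n with
  | zero => rfl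
  | succ n ih => rw [pw_succ, pw_succ, map_mul, ih]

theorem bddNil (A : Type u) [NonUnitalNonAssocRing A] (hN : IsNil A) (hO : Olig A) :
    ∃ n : ℕ, ∀ x : A, pw x n = 0 := by
  classical
  obtain ⟨n, hn⟩ := boundedInv A hO (fun x => Nat.find (hN x)) (by
    intro σ x
    apply le_antisymm
    · apply Nat.find_min'
      rw [← map_pw, Nat.find_spec (hN x), map_zero]
    · apply Nat.find_min'
      apply σ.injective
      rw [map_pw, Nat.find_spec (hN (σ x)), map_zero])
  exact ⟨n, fun x => pw_zero_mul x _ n (Nat.find_spec (hN x)) (hn x)⟩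

end Pool.Agent.K6.H1.Alt
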