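import Pool.Agent.K6.H1.Alt.Strings

set_option autoImplicit false
set_option linter.unusedSectionVars false
set_option linter.unusedSimpArgs false

/-!
# Strings of a fixed content
-/

namespace Pool.Agent.K6.H1.Alt

universe u

variable {A : Type u} [NonUnitalNonAssocRing A]

theorem Ph_appL (a : A) (σ₁ σ₂ m : List (Sy A)) (f : AddMonoid.End A) :
    Ph a (σ₁ ++ m) σ₂ f = Ph a σ₁ σ₂ (ev a m * f) := by
  unfold Ph
  rw [ev_append]
  rfl

theorem Ph_appR (a : A) (σ₁ σ₂ m : List (Sy A)) (f : AddMonoid.End A) :
    Ph a σ₁ (m ++ σ₂) f = Ph a σ₁ σ₂ (f * ev a m) := by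
  unfold Ph
  rw [ev_append]
  rfl

/-- The situation of a content `(k, C)`: all strings obtained by merging two letters and all strings
obtained by deleting an outer letter vanish. -/
structure Ctx (a : A) (k : ℕ) (C : Multiset A) : Prop where
  hM : ∀ (σ : List (Sy A)) (x y : A) (C₀ : Multiset A), dg σ = k → C = {x} + {y} + C₀ →
    lt σ = {x * y} + C₀ → ev a σ a = 0
  hO : ∀ (σ : List (Sy A)) (x : A), dg σ = k → C = {x} + lt σ → ev a σ a = 0

theorem Ctx.phM {a : A} {k : ℕ} {C : Multiset A} (hX : Ctx a k C) (σ₁ σ₂ m : List (Sy A))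
    (f : AddMonoid.End A) (hf : f = ev a m) (x y : A) (C₀ : Multiset A)
    (hd : dg σ₁ + dg m + dg σ₂ = k) (hC : C = {x} + {y} + C₀)
    (hl : lt σ₁ + lt m + lt σ₂ = {x * y} + C₀) : Ph a σ₁ σ₂ f = 0 := by
  rw [hf, Ph_ev]
  refine hX.hM _ x y C₀ ?_ hC ?_
  · simp only [dg_append]; omega
  · simp only [lt_append, ← hl, add_assoc]

theorem nil_or_snoc {α : Type*} (l : List α) : l = [] ∨ ∃ (m : List α) (x : α), l = m ++ [x] := by
  rcases List.eq_nil_or_concat l with h | ⟨m, x, h⟩
  · exact Or.inl h
  · exact Or.inr ⟨m, x, by rw [h, List.concat_eq_append]⟩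

theorem uv_content {C D : Multiset A} {x y u v : A} (hC : C = D + {x} + {y})
    (h : ({u} + {v} : Multiset A) = {x} + {y}) : C = D + {u} + {v} := by
  rw [hC, add_assoc, ← h, add_assoc]

section ctx

variable (hA : IsAlt A) {a : A} (ha : Hy a) {k : ℕ} {C : Multiset A} (hX : Ctx a k C)

include hA ha in
/-- `A U_{x,y} a = 0`. -/
theorem A_U_a (b : Bool) (x y : A) (hb : b = false → x = y) (r : Bool) :
    o r a (sm b x y (fun u v => L u * R v) a) = 0 := by
  have h := congrArg (fun f => f a) (sm_A_U hA b x y hb r a)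
  have e1 : (sm b x y (fun u v => o (!r) u * o r a * (L v + R v))) a = 0 := by
    have : ∀ u v : A, (o (!r) u * o r a * (L v + R v)) a = 0 := by
      intro u v
      have h1 := A_pa hA ha r true v
      have h2 := A_pa hA ha r false v
      show o (!r) u (o r a ((L v + R v) a)) = 0
      rw [E_add, map_add]
      rw [o_true] at h1
      rw [o_false] at h2
      rw [h1, h2, add_zero, map_zero]
    cases b
    · exact this x y
    · rw [sm_true, E_add, this, this, add_zero]
  have e2 : (sm b x y (fun u v => o (!r) (u * v) * o r a)) a = 0 := by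
    have : ∀ u v : A, (o (!r) (u * v) * o r a) a = 0 := by
      intro u v
      show o (!r) (u * v) (o r a a) = 0
      rw [A_a ha, map_zero]
    cases b
    · exact this x y
    · rw [sm_true, E_add, this, this, add_zero]
  have h' : o r a (sm b x y (fun u v => L u * R v) a) =
      (sm b x y (fun u v => o (!r) u * o r a * (L v + R v)) -
      sm b x y (fun u v => o (!r) (u * v) * o r a)) a := h
  rw [h', E_sub, e1, e2, sub_zero]

include hA hX in
theorem U_right (b : Bool) (x y : A) (hb : b = false → x = y) (σ₁ σ₂ : List (Sy A)) (q : Bool)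
    (w : A) (hd : dg σ₁ + dg σ₂ = k) (hC : C = lt σ₁ + lt σ₂ + {w} + {x} + {y}) :
    Ph a σ₁ ((q, some w) :: σ₂) (sm b x y (fun u v => L u * R v)) = 0 := by
  rw [Ph_consR]
  cases q
  · show Ph a σ₁ σ₂ (sm b x y (fun u v => L u * R v) * R w) = 0
    rw [sm_U_R hA b x y hb, Ph_sm]
    refine sm_eq_zero b x y (fun u v huv => ?_)
    refine hX.phM σ₁ σ₂ [(false, some (w * u)), (true, some v)] _ (by simp) w u
      (lt σ₁ + lt σ₂ + {v}) (by simp; omega) ?_ ?_
    · rw [uv_content hC huv]; abel
    · simp only [lt_append, lt_cons_some, lt_cons_none, lt_nil]; abel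
  · show Ph a σ₁ σ₂ (sm b x y (fun u v => L u * R v) * L w) = 0
    rw [sm_U_L hA b x y hb, Ph_sm]
    refine sm_eq_zero b x y (fun u v huv => ?_)
    refine hX.phM σ₁ σ₂ [(true, some (u * w)), (false, some v)] _ (by simp) u w
      (lt σ₁ + lt σ₂ + {v}) (by simp; omega) ?_ ?_
    · rw [uv_content hC huv]; abel
    · simp only [lt_append, lt_cons_some, lt_cons_none, lt_nil]; abel

include hA hX in
theorem U_left (b : Bool) (x y : A) (hb : b = false → x = y) (σ₁ σ₂ : List (Sy A)) (q : Bool)
    (w : A) (hd : dg σ₁ + dg σ₂ = k) (hC : C = lt σ₁ + lt σ₂ + {w} + {x} + {y}) :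
    Ph a (σ₁ ++ [(q, some w)]) σ₂ (sm b x y (fun u v => L u * R v)) = 0 := by
  rw [Ph_snocL]
  cases q
  · show Ph a σ₁ σ₂ (R w * sm b x y (fun u v => L u * R v)) = 0
    rw [sm_R_U hA b x y hb, Ph_sm]
    refine sm_eq_zero b x y (fun u v huv => ?_)
    refine hX.phM σ₁ σ₂ [(true, some u), (false, some (v * w))] _ (by simp) v w
      (lt σ₁ + lt σ₂ + {u}) (by simp; omega) ?_ ?_
    · rw [uv_content hC huv]; abel
    · simp only [lt_append, lt_cons_some, lt_cons_none, lt_nil]; abel
  · show Ph a σ₁ σ₂ (L w * sm b x y (fun u v => L u * R v)) = 0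
    rw [sm_L_U hA b x y hb, Ph_sm]
    refine sm_eq_zero b x y (fun u v huv => ?_)
    refine hX.phM σ₁ σ₂ [(false, some u), (true, some (w * v))] _ (by simp) w v
      (lt σ₁ + lt σ₂ + {u}) (by simp; omega) ?_ ?_
    · rw [uv_content hC huv]; abel
    · simp only [lt_append, lt_cons_some, lt_cons_none, lt_nil]; abel

include hX in
theorem U_start (b : Bool) (x y : A) (σ₂ : List (Sy A)) (p : Bool) (m : A → A → List (Sy A))
    (hm : ∀ u v, dg (m u v) + dg σ₂ = k ∧
      (({u} + {v} : Multiset A) = {x} + {y} → C = {u} + lt (m u v) + lt σ₂)) :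
    Ph a [] σ₂ (sm b x y (fun u v => o p u * ev a (m u v))) = 0 := by
  rw [Ph_sm]
  refine sm_eq_zero b x y (fun u v huv => ?_)
  show o p u (ev a (m u v) (ev a σ₂ a)) = 0
  have : ev a (m u v) (ev a σ₂ a) = ev a (m u v ++ σ₂) a := by
    rw [ev_append]; rfl
  rw [this, hX.hO (m u v ++ σ₂) u ?_ ?_, map_zero]
  · rw [dg_append]; exact (hm u v).1
  · rw [(hm u v).2 huv, lt_append, add_assoc]

include hA ha hX in
/-- `O_x U_{y,z}` vanishes in any surroundings. -/
theorem OU (σ₁ σ₂ : List (Sy A)) (x y z : A) (hd : dg σ₁ + dg σ₂ + 2 = k)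
    (hC : C = lt σ₁ + lt σ₂ + {x} + {y} + {z}) :
    Ph a σ₁ σ₂ (Ox a x * sm true y z (fun u v => L u * R v)) = 0 := by
  have hO : Ox a x = ev a [(true, none), (false, some x), (true, none)] := by
    simp [Ox_def, mul_assoc]
  rcases σ₂ with _ | ⟨⟨q, w⟩, σ₂⟩
  · show ev a σ₁ ((Ox a x * sm true y z (fun u v => L u * R v)) a) = 0
    have : (Ox a x * sm true y z (fun u v => L u * R v)) a =
        L a (R x (o true a (sm true y z (fun u v => L u * R v) a))) := rfl
    rw [this, A_U_a hA ha true y z (by simp), map_zero, map_zero, map_zero]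
  · rcases w with _ | w
    · rw [Ph_consR]
      have : Ox a x * sm true y z (fun u v => L u * R v) * os a (q, none) = 0 := by
        show Ox a x * sm true y z (fun u v => L u * R v) * o q a = 0
        rw [mul_assoc, sm_U_A hA true y z (by simp), mul_sub, sm_mul_left, sm_mul_left]
        have e1 : ∀ u v : A, Ox a x * ((L u + R u) * o q a * o (!q) v) = 0 := by
          intro u v
          have h1 := Ox_tA hA ha x u true q
          have h2 := Ox_tA hA ha x u false q
          simp only [o_true, o_false] at h1 h2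
          have : Ox a x * ((L u + R u) * o q a * o (!q) v) =
              (Ox a x * L u * o q a) * o (!q) v + (Ox a x * R u * o q a) * o (!q) v := by
            noncomm_ring
          rw [this, h1, h2, zero_mul, add_zero]
        have e2 : ∀ u v : A, Ox a x * (o q a * o (!q) (u * v)) = 0 := by
          intro u v
          have h1 := AA hA ha true q
          simp only [o_true] at h1
          have : Ox a x * (o q a * o (!q) (u * v)) =
              L a * R x * (L a * o q a) * o (!q) (u * v) := by
            rw [Ox_def]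
            noncomm_ring
          rw [this, h1, mul_zero, zero_mul]
        simp only [e1, e2, sm_zero, sub_zero]
      rw [this, Ph_zero]
    · rw [hO, ← Ph_appL]
      refine U_right hA hX true y z (by simp) _ _ q w ?_ ?_
      · simp only [dg_append, dg_cons_some, dg_cons_none, dg_nil] at hd ⊢; omega
      · rw [hC]
        simp only [lt_append, lt_cons_some, lt_cons_none, lt_nil]; abel

include hA ha hX in
/-- `O_x t_y q_z` symmetrised in `x, y`. -/
theorem L1' (b : Bool) (x y : A) (hb : b = false → x = y) (σ₁ σ₂ : List (Sy A)) (z : A)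
    (hd : dg σ₁ + dg σ₂ + 2 = k) (hC : C = lt σ₁ + lt σ₂ + {z} + {x} + {y}) (t q : Bool) :
    Ph a σ₁ σ₂ (sm b x y (fun u v => Ox a u * o t v * o q z)) = 0 := by
  have hRR := AA hA ha false false
  simp only [o_false] at hRR
  have tab : ∀ u : A, R a * L u * R a = -Ox a u := by
    intro u
    have h1 := table hA ha false true false u
    rw [show sg false true false = -1 from rfl, neg_smul, one_smul] at h1
    exact h1
  -- step 1
  have s1 : ∀ q : Bool, Ph a σ₁ σ₂ (sm b x y (fun u v => Ox a u * L v * o q z)) +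
      Ph a σ₁ σ₂ (sm b x y (fun u v => Ox a u * R v * o q z)) = 0 := by
    intro q
    have h := sm_A_U hA b x y hb false a
    simp only [o_false, Bool.not_false, o_true] at h
    have h2 : R a * (R a * sm b x y (fun u v => L u * R v)) * o q z = 0 := by
      rw [← mul_assoc, hRR, zero_mul, zero_mul]
    rw [h, mul_sub, sub_mul, sm_mul_left, sm_mul_left, sm_mul_right, sm_mul_right] at h2
    have h3 := congrArg (Ph a σ₁ σ₂) h2
    rw [Ph_sub, Ph_zero] at h3
    have h4 : Ph a σ₁ σ₂ (sm b x y (fun u v => R a * (L (u * v) * R a) * o q z)) = 0 := by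
      rw [Ph_sm]
      refine sm_eq_zero b x y (fun u v huv => ?_)
      refine hX.phM σ₁ σ₂ [(false, none), (true, some (u * v)), (false, none), (q, some z)] _
        (by simp [mul_assoc]) u v (lt σ₁ + lt σ₂ + {z}) (by simp; omega) ?_ ?_
      · rw [uv_content hC huv]; abel
      · simp only [lt_append, lt_cons_some, lt_cons_none, lt_nil]; abel
    rw [h4, sub_zero] at h3
    have h5 : (sm b x y (fun u v => R a * (L u * R a * (L v + R v)) * o q z)) =
        -(sm b x y (fun u v => Ox a u * L v * o q z) +
          sm b x y (fun u v => Ox a u * R v * o q z)) := by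
      rw [← sm_add, ← sm_neg]
      refine sm_congr b x y (fun u v _ => ?_)
      have : R a * (L u * R a * (L v + R v)) * o q z =
          (R a * L u * R a) * (L v + R v) * o q z := by noncomm_ring
      rw [this, tab]
      noncomm_ring
    rw [h5, Ph_neg, Ph_add] at h3
    exact neg_eq_zero.1 h3
  -- merging relations
  have hM2 : ∀ (f : A → A → AddMonoid.End A),
      (∀ u v, ∃ (s : Bool) (w : A), f u v = Ox a u * o s w ∧ (w = v * z ∨ w = z * v)) →
      Ph a σ₁ σ₂ (sm b x y f) = 0 := by
    intro f hf
    rw [Ph_sm]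
    refine sm_eq_zero b x y (fun u v huv => ?_)
    obtain ⟨s, w, h1, h2⟩ := hf u v
    have hev : f u v = ev a [(true, none), (false, some u), (true, none), (s, some w)] := by
      rw [h1]; simp [Ox_def, mul_assoc]
    rcases h2 with rfl | rfl
    · refine hX.phM σ₁ σ₂ _ _ hev v z (lt σ₁ + lt σ₂ + {u}) (by simp; omega) ?_ ?_
      · rw [uv_content hC huv]; abel
      · simp only [lt_append, lt_cons_some, lt_cons_none, lt_nil]; abel
    · refine hX.phM σ₁ σ₂ _ _ hev z v (lt σ₁ + lt σ₂ + {u}) (by simp; omega) ?_ ?_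
      · rw [uv_content hC huv]; abel
      · simp only [lt_append, lt_cons_some, lt_cons_none, lt_nil]; abel
  have m1 : Ph a σ₁ σ₂ (sm b x y (fun u v => Ox a u * L v * L z)) =
      Ph a σ₁ σ₂ (sm b x y (fun u v => Ox a u * R v * R z)) := by
    have h1 := hM2 (fun u v => Ox a u * L (v * z)) (fun u v => ⟨true, v * z, rfl, Or.inl rfl⟩)
    have h2 := hM2 (fun u v => Ox a u * R (z * v)) (fun u v => ⟨false, z * v, rfl, Or.inr rfl⟩)
    have : (sm b x y (fun u v => Ox a u * L v * L z)) =
        sm b x y (fun u v => Ox a u * R v * R z) + sm b x y (fun u v => Ox a u * L (v * z)) -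
        sm b x y (fun u v => Ox a u * R (z * v)) := by
      rw [← sm_add, ← sm_sub]
      refine sm_congr b x y (fun u v _ => ?_)
      rw [mul_assoc, LL_RR hA v z]
      noncomm_ring
    rw [this, Ph_sub, Ph_add, h1, h2, add_zero, sub_zero]
  have m2 : Ph a σ₁ σ₂ (sm b x y (fun u v => Ox a u * R v * L z)) =
      Ph a σ₁ σ₂ (sm b x y (fun u v => Ox a u * L z * R v)) -
      Ph a σ₁ σ₂ (sm b x y (fun u v => Ox a u * R v * R z)) := by
    have h2 := hM2 (fun u v => Ox a u * R (z * v)) (fun u v => ⟨false, z * v, rfl, Or.inr rfl⟩)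
    have : (sm b x y (fun u v => Ox a u * R v * L z)) =
        sm b x y (fun u v => Ox a u * L z * R v) + sm b x y (fun u v => Ox a u * R (z * v)) -
        sm b x y (fun u v => Ox a u * R v * R z) := by
      rw [← sm_add, ← sm_sub]
      refine sm_congr b x y (fun u v _ => ?_)
      rw [mul_assoc, RL_rw hA v z]
      noncomm_ring
    rw [this, Ph_sub, Ph_add, h2, add_zero]
  have m3 : Ph a σ₁ σ₂ (sm b x y (fun u v => Ox a u * L v * R z)) +
      Ph a σ₁ σ₂ (sm b x y (fun u v => Ox a u * L z * R v)) = 0 := by
    rw [← Ph_add, ← sm_add, Ph_sm]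
    refine sm_eq_zero b x y (fun u v huv => ?_)
    have h := OU hA ha hX σ₁ σ₂ u v z hd (by rw [uv_content hC huv]; abel)
    rw [sm_true, mul_add, ← mul_assoc, ← mul_assoc] at h
    exact h
  have sR := s1 false
  have sL := s1 true
  simp only [o_true, o_false] at sR sL
  -- sR : X L R + X R R = 0 ; sL : X L L + X R L = 0
  have hV : Ph a σ₁ σ₂ (sm b x y (fun u v => Ox a u * L z * R v)) = 0 := by
    rw [m1, m2] at sL
    rw [← sL]
    abel
  have hLR : Ph a σ₁ σ₂ (sm b x y (fun u v => Ox a u * L v * R z)) = 0 := by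
    rw [hV, add_zero] at m3
    exact m3
  have hRR' : Ph a σ₁ σ₂ (sm b x y (fun u v => Ox a u * R v * R z)) = 0 := by
    rw [hLR, zero_add] at sR
    exact sR
  have hLL' : Ph a σ₁ σ₂ (sm b x y (fun u v => Ox a u * L v * L z)) = 0 := by
    rw [m1, hRR']
  have hRL' : Ph a σ₁ σ₂ (sm b x y (fun u v => Ox a u * R v * L z)) = 0 := by
    rw [m2, hV, hRR', sub_zero]
  cases t <;> cases q
  · exact hRR'
  · exact hRL'
  · exact hLR
  · exact hLL'

include hA ha hX in
/-- `A x A y z` symmetrised in `x, y`. -/
theorem L1 (b : Bool) (x y : A) (hb : b = false → x = y) (σ₁ σ₂ : List (Sy A)) (z : A)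
    (hd : dg σ₁ + dg σ₂ + 2 = k) (hC : C = lt σ₁ + lt σ₂ + {z} + {x} + {y}) (s p r t q : Bool) :
    Ph a σ₁ σ₂ (sm b x y (fun u v => o s a * o p u * o r a * o t v * o q z)) = 0 := by
  have h := L1' hA ha hX b x y hb σ₁ σ₂ z hd hC t q
  have : sm b x y (fun u v => o s a * o p u * o r a * o t v * o q z) =
      sg s p r • sm b x y (fun u v => Ox a u * o t v * o q z) := by
    have e : ∀ u v : A, o s a * o p u * o r a * o t v * o q z =
        sg s p r • (Ox a u * o t v * o q z) := by
      intro u v
      rw [table hA ha, smul_mul_assoc, smul_mul_assoc]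
    cases b
    · rw [sm_false, sm_false, e]
    · rw [sm_true, sm_true, e, e, zsmul_add]
  rw [this]
  have e2 : ∀ (n : ℤ) (f : AddMonoid.End A), Ph a σ₁ σ₂ f = 0 → Ph a σ₁ σ₂ (n • f) = 0 := by
    intro n f hf
    unfold Ph at hf ⊢
    have : (n • f) (ev a σ₂ a) = n • (f (ev a σ₂ a)) := rfl
    rw [this, map_zsmul, hf, zsmul_zero]
  exact e2 _ _ h

include hA ha hX in
/-- Lemma U: the Jordan operators of two letters vanish in any surroundings. -/
theorem lemU (b : Bool) (x y : A) (hb : b = false → x = y) (σ₁ σ₂ : List (Sy A))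
    (hd : dg σ₁ + dg σ₂ = k) (hC : C = lt σ₁ + lt σ₂ + {x} + {y}) :
    Ph a σ₁ σ₂ (sm b x y (fun u v => L u * R v)) = 0 := by
  -- right neighbour
  rcases σ₂ with _ | ⟨⟨r, w⟩, σ₂⟩
  · -- nothing on the right
    rcases nil_or_snoc σ₁ with rfl | ⟨σ₁, ⟨s, w⟩, rfl⟩
    · have h := U_start hX b x y [] true (fun u v => [(false, some v)]) ?_
      · simpa using h
      · intro u v
        refine ⟨by simpa using hd, fun huv => ?_⟩
        rw [uv_content hC huv]
        simp only [lt_append, lt_cons_some, lt_cons_none, lt_nil]; abel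
    · rcases w with _ | w
      · show ev a (σ₁ ++ [(s, none)]) ((sm b x y (fun u v => L u * R v)) a) = 0
        rw [ev_append]
        have : (ev a σ₁ * ev a [(s, none)]) ((sm b x y (fun u v => L u * R v)) a) =
            ev a σ₁ (o s a ((sm b x y (fun u v => L u * R v)) a)) := by
          simp [E_mul]
        rw [this, A_U_a hA ha b x y hb, map_zero]
      · refine U_left hA hX b x y hb σ₁ [] s w (by simpa using hd) ?_
        rw [hC]
        simp only [lt_append, lt_cons_some, lt_cons_none, lt_nil]; abel
  · rcases w with _ | w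
    · rcases nil_or_snoc σ₁ with rfl | ⟨σ₁, ⟨s, w⟩, rfl⟩
      · have h := U_start hX b x y ((r, none) :: σ₂) true (fun u v => [(false, some v)]) ?_
        · simpa using h
        · intro u v
          refine ⟨by simpa using hd, fun huv => ?_⟩
          rw [uv_content hC huv]
          simp only [lt_append, lt_cons_some, lt_cons_none, lt_nil]; abel
      · rcases w with _ | w
        · -- the main case `A_s U A_r`
          rw [Ph_snocL, Ph_consR]
          show Ph a σ₁ σ₂ (o s a * sm b x y (fun u v => L u * R v) * o r a) = 0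
          rcases σ₂ with _ | ⟨⟨q, w⟩, σ₂⟩
          · show ev a σ₁ ((o s a * sm b x y (fun u v => L u * R v)) (o r a a)) = 0
            rw [A_a ha, map_zero, map_zero]
          · rcases w with _ | w
            · rw [Ph_consR]
              have : o s a * sm b x y (fun u v => L u * R v) * o r a * os a (q, none) = 0 := by
                show o s a * sm b x y (fun u v => L u * R v) * o r a * o q a = 0
                rw [mul_assoc _ (o r a), AA hA ha, mul_zero]
              rw [this, Ph_zero]
            · rw [Ph_consR]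
              show Ph a σ₁ σ₂ (o s a * sm b x y (fun u v => L u * R v) * o r a * o q w) = 0
              rw [mul_assoc (o s a), sm_U_A hA b x y hb, mul_sub, sub_mul, sm_mul_left,
                sm_mul_left, sm_mul_right, sm_mul_right]
              have e1 : ∀ u v : A, o s a * (o r a * o (!r) (u * v)) * o q w = 0 := by
                intro u v
                rw [← mul_assoc, AA hA ha, zero_mul, zero_mul]
              simp only [e1, sm_zero, sub_zero]
              have e2 : ∀ u v : A, o s a * ((L u + R u) * o r a * o (!r) v) * o q w =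
                  o s a * o true u * o r a * o (!r) v * o q w +
                  o s a * o false u * o r a * o (!r) v * o q w := by
                intro u v
                simp only [o_true, o_false]
                noncomm_ring
              simp only [e2]
              rw [sm_add, Ph_add]
              have hd' : dg σ₁ + dg σ₂ + 2 = k := by
                simp only [dg_append, dg_cons_none, dg_cons_some, dg_nil] at hd; omega
              have hC' : C = lt σ₁ + lt σ₂ + {w} + {x} + {y} := by
                rw [hC]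
                simp only [lt_append, lt_cons_some, lt_cons_none, lt_nil]; abel
              rw [L1 hA ha hX b x y hb σ₁ σ₂ w hd' hC', L1 hA ha hX b x y hb σ₁ σ₂ w hd' hC',
                add_zero]
        · refine U_left hA hX b x y hb σ₁ ((r, none) :: σ₂) s w ?_ ?_
          · simp only [dg_append, dg_cons_none, dg_cons_some, dg_nil] at hd ⊢; omega
          · rw [hC]
            simp only [lt_append, lt_cons_some, lt_cons_none, lt_nil]; abel
    · refine U_right hA hX b x y hb σ₁ σ₂ r w ?_ ?_
      · simp only [dg_append, dg_cons_none, dg_cons_some, dg_nil] at hd ⊢; omega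
      · rw [hC]
        simp only [lt_append, lt_cons_some, lt_cons_none, lt_nil]; abel

include hA ha hX in
/-- Exchange of two adjacent letters. -/
theorem E1 (b : Bool) (x y : A) (hb : b = false → x = y) (σ₁ σ₂ : List (Sy A))
    (hd : dg σ₁ + dg σ₂ = k) (hC : C = lt σ₁ + lt σ₂ + {x} + {y}) (p q : Bool) :
    Ph a σ₁ σ₂ (sm b x y (fun u v => o p u * o q v)) = 0 := by
  cases p <;> cases q
  · simp only [o_false]
    rw [sm_RR hA b x y hb, Ph_sm]
    refine sm_eq_zero b x y (fun u v huv => ?_)
    refine hX.phM σ₁ σ₂ [(false, some (u * v))] _ (by simp) u v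
      (lt σ₁ + lt σ₂) (by simpa using hd) ?_ ?_
    · rw [uv_content hC huv]; abel
    · simp only [lt_append, lt_cons_some, lt_cons_none, lt_nil]; abel
  · simp only [o_false, o_true]
    rw [sm_RL hA b x y hb]
    exact lemU hA ha hX b x y hb σ₁ σ₂ hd hC
  · simp only [o_false, o_true]
    exact lemU hA ha hX b x y hb σ₁ σ₂ hd hC
  · simp only [o_true]
    rw [sm_LL hA b x y hb, Ph_sm]
    refine sm_eq_zero b x y (fun u v huv => ?_)
    refine hX.phM σ₁ σ₂ [(true, some (u * v))] _ (by simp) u v
      (lt σ₁ + lt σ₂) (by simpa using hd) ?_ ?_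
    · rw [uv_content hC huv]; abel
    · simp only [lt_append, lt_cons_some, lt_cons_none, lt_nil]; abel

include hA ha hX in
theorem T1 (b : Bool) (x y : A) (hb : b = false → x = y) (σ₁ σ₂ : List (Sy A))
    (hd : dg σ₁ + dg σ₂ + 1 = k) (hC : C = lt σ₁ + lt σ₂ + {x} + {y}) (r : Bool) :
    Ph a σ₁ σ₂ (sm b x y (fun u v => (L u + R u) * o r a * o (!r) v)) = 0 := by
  have h := lemU hA ha hX b x y hb σ₁ ((r, none) :: σ₂)
    (by simp only [dg_cons_none]; omega) (by rw [hC, lt_cons_none])
  rw [Ph_consR] at h
  change Ph a σ₁ σ₂ (sm b x y (fun u v => L u * R v) * o r a) = 0 at h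
  rw [sm_U_A hA b x y hb, Ph_sub] at h
  have h2 : Ph a σ₁ σ₂ (sm b x y (fun u v => o r a * o (!r) (u * v))) = 0 := by
    rw [Ph_sm]
    refine sm_eq_zero b x y (fun u v huv => ?_)
    refine hX.phM σ₁ σ₂ [(r, none), (!r, some (u * v))] _ (by simp) u v
      (lt σ₁ + lt σ₂) (by simp; omega) ?_ ?_
    · rw [uv_content hC huv]; abel
    · simp only [lt_append, lt_cons_some, lt_cons_none, lt_nil]; abel
  rw [h2, sub_zero] at h
  exact h

include hA ha hX in
theorem T2 (b : Bool) (x y : A) (hb : b = false → x = y) (σ₁ σ₂ : List (Sy A))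
    (hd : dg σ₁ + dg σ₂ + 1 = k) (hC : C = lt σ₁ + lt σ₂ + {x} + {y}) (r : Bool) :
    Ph a σ₁ σ₂ (sm b x y (fun u v => o (!r) u * o r a * (L v + R v))) = 0 := by
  have h := lemU hA ha hX b x y hb (σ₁ ++ [(r, none)]) σ₂
    (by simp only [dg_append, dg_cons_none, dg_nil]; omega)
    (by rw [hC, lt_append, lt_cons_none, lt_nil, add_zero])
  rw [Ph_snocL] at h
  change Ph a σ₁ σ₂ (o r a * sm b x y (fun u v => L u * R v)) = 0 at h
  rw [sm_A_U hA b x y hb, Ph_sub] at h
  have h2 : Ph a σ₁ σ₂ (sm b x y (fun u v => o (!r) (u * v) * o r a)) = 0 := by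
    rw [Ph_sm]
    refine sm_eq_zero b x y (fun u v huv => ?_)
    refine hX.phM σ₁ σ₂ [(!r, some (u * v)), (r, none)] _ (by simp) u v
      (lt σ₁ + lt σ₂) (by simp; omega) ?_ ?_
    · rw [uv_content hC huv]; abel
    · simp only [lt_append, lt_cons_some, lt_cons_none, lt_nil]; abel
  rw [h2, sub_zero] at h
  exact h

include hA ha hX in
/-- Exchange of two letters across one `a`, when another letter precedes. -/
theorem E2_letter (b : Bool) (x y : A) (hb : b = false → x = y) (σ₁ σ₂ : List (Sy A)) (w : A)
    (hd : dg σ₁ + dg σ₂ + 1 = k) (hC : C = lt σ₁ + lt σ₂ + {w} + {x} + {y}) (p' p r t : Bool) :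
    Ph a σ₁ σ₂ (sm b x y (fun u v => o p' w * o p u * o r a * o t v)) = 0 := by
  have hT1 : ∀ p' : Bool,
      Ph a σ₁ σ₂ (sm b x y (fun u v => o p' w * o true u * o r a * o (!r) v)) +
      Ph a σ₁ σ₂ (sm b x y (fun u v => o p' w * o false u * o r a * o (!r) v)) = 0 := by
    intro p'
    have h := T1 hA ha hX b x y hb (σ₁ ++ [(p', some w)]) σ₂
      (by simp only [dg_append, dg_cons_some, dg_nil]; omega)
      (by rw [hC, lt_append, lt_cons_some, lt_nil]; abel) r
    rw [Ph_snocL] at h
    change Ph a σ₁ σ₂ (o p' w * sm b x y (fun u v => (L u + R u) * o r a * o (!r) v)) = 0 at h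
    rw [← Ph_add, ← sm_add, ← h, sm_mul_left]
    congr 1
    refine sm_congr b x y (fun u v _ => ?_)
    simp only [o_true, o_false]
    noncomm_ring
  have hT2 : ∀ p' : Bool,
      Ph a σ₁ σ₂ (sm b x y (fun u v => o p' w * o (!r) u * o r a * o true v)) +
      Ph a σ₁ σ₂ (sm b x y (fun u v => o p' w * o (!r) u * o r a * o false v)) = 0 := by
    intro p'
    have h := T2 hA ha hX b x y hb (σ₁ ++ [(p', some w)]) σ₂
      (by simp only [dg_append, dg_cons_some, dg_nil]; omega)
      (by rw [hC, lt_append, lt_cons_some, lt_nil]; abel) r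
    rw [Ph_snocL] at h
    change Ph a σ₁ σ₂ (o p' w * sm b x y (fun u v => o (!r) u * o r a * (L v + R v))) = 0 at h
    rw [← Ph_add, ← sm_add, ← h, sm_mul_left]
    congr 1
    refine sm_congr b x y (fun u v _ => ?_)
    simp only [o_true, o_false]
    noncomm_ring
  have hmerge : ∀ (t : Bool) (f : A → A → AddMonoid.End A),
      (∀ u v, ∃ (s : Bool) (c : A), f u v = o s c * o r a * o t v ∧ (c = w * u ∨ c = u * w)) →
      Ph a σ₁ σ₂ (sm b x y f) = 0 := by
    intro t f hf
    rw [Ph_sm]
    refine sm_eq_zero b x y (fun u v huv => ?_)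
    obtain ⟨s, c, h1, h2⟩ := hf u v
    have hev : f u v = ev a [(s, some c), (r, none), (t, some v)] := by
      rw [h1]; simp [mul_assoc]
    rcases h2 with rfl | rfl
    · refine hX.phM σ₁ σ₂ _ _ hev w u (lt σ₁ + lt σ₂ + {v}) (by simp; omega) ?_ ?_
      · rw [uv_content hC huv]; abel
      · simp only [lt_append, lt_cons_some, lt_cons_none, lt_nil]; abel
    · refine hX.phM σ₁ σ₂ _ _ hev u w (lt σ₁ + lt σ₂ + {v}) (by simp; omega) ?_ ?_
      · rw [uv_content hC huv]; abel
      · simp only [lt_append, lt_cons_some, lt_cons_none, lt_nil]; abel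
  have hm1 : ∀ t : Bool,
      Ph a σ₁ σ₂ (sm b x y (fun u v => o true w * o true u * o r a * o t v)) =
      Ph a σ₁ σ₂ (sm b x y (fun u v => o false w * o false u * o r a * o t v)) := by
    intro t
    have h1 := hmerge t (fun u v => o true (w * u) * o r a * o t v)
      (fun u v => ⟨true, w * u, rfl, Or.inl rfl⟩)
    have h2 := hmerge t (fun u v => o false (u * w) * o r a * o t v)
      (fun u v => ⟨false, u * w, rfl, Or.inr rfl⟩)
    have : (sm b x y (fun u v => o true w * o true u * o r a * o t v)) =
        sm b x y (fun u v => o false w * o false u * o r a * o t v) +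
        sm b x y (fun u v => o true (w * u) * o r a * o t v) -
        sm b x y (fun u v => o false (u * w) * o r a * o t v) := by
      rw [← sm_add, ← sm_sub]
      refine sm_congr b x y (fun u v _ => ?_)
      simp only [o_true, o_false]
      rw [LL_RR hA w u]
      noncomm_ring
    rw [this, Ph_sub, Ph_add, h1, h2, add_zero, sub_zero]
  have hm2 : ∀ t : Bool,
      Ph a σ₁ σ₂ (sm b x y (fun u v => o false w * o true u * o r a * o t v)) =
      -Ph a σ₁ σ₂ (sm b x y (fun u v => o true w * o false u * o r a * o t v)) -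
      Ph a σ₁ σ₂ (sm b x y (fun u v => o false w * o false u * o r a * o t v)) := by
    intro t
    have h1 := hmerge t (fun u v => o false (u * w) * o r a * o t v)
      (fun u v => ⟨false, u * w, rfl, Or.inr rfl⟩)
    have h2 : Ph a σ₁ σ₂ (sm b x y (fun u v => (L u * R w + L w * R u) * o r a * o t v)) = 0 := by
      rw [Ph_sm]
      refine sm_eq_zero b x y (fun u v huv => ?_)
      have h := lemU hA ha hX true u w (by simp) σ₁ ((r, none) :: (t, some v) :: σ₂)
        (by simp only [dg_cons_none, dg_cons_some]; omega)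
        (by rw [uv_content hC huv]; simp only [lt_cons_none, lt_cons_some]; abel)
      rw [Ph_consR, Ph_consR] at h
      have e : (L u * R w + L w * R u) * o r a * o t v =
          sm true u w (fun u v => L u * R v) * os a (r, none) * os a (t, some v) := rfl
      rw [e]
      exact h
    have : (sm b x y (fun u v => o false w * o true u * o r a * o t v)) =
        sm b x y (fun u v => (L u * R w + L w * R u) * o r a * o t v) +
        sm b x y (fun u v => o false (u * w) * o r a * o t v) -
        sm b x y (fun u v => o true w * o false u * o r a * o t v) -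
        sm b x y (fun u v => o false w * o false u * o r a * o t v) := by
      rw [← sm_add, ← sm_sub, ← sm_sub]
      refine sm_congr b x y (fun u v _ => ?_)
      simp only [o_true, o_false]
      rw [RL_rw hA w u]
      noncomm_ring
    rw [this, Ph_sub, Ph_sub, Ph_add, h1, h2, add_zero, zero_sub]
  -- the opposite side
  have opp : ∀ p' p : Bool,
      Ph a σ₁ σ₂ (sm b x y (fun u v => o p' w * o p u * o r a * o (!r) v)) = 0 := by
    have e1 := hT1 true
    have e2 := hT1 false
    have e3 := hm1 (!r)
    have e4 := hm2 (!r)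
    have k1 : Ph a σ₁ σ₂ (sm b x y (fun u v => o true w * o false u * o r a * o (!r) v)) = 0 := by
      rw [e4] at e2
      have := congrArg (fun z => -z) e2
      simp only [neg_zero] at this
      rw [← this]
      abel
    have k2 : Ph a σ₁ σ₂ (sm b x y (fun u v => o true w * o true u * o r a * o (!r) v)) = 0 := by
      rw [k1, add_zero] at e1
      exact e1
    have k3 : Ph a σ₁ σ₂ (sm b x y (fun u v => o false w * o false u * o r a * o (!r) v)) = 0 := by
      rw [← e3, k2]
    have k4 : Ph a σ₁ σ₂ (sm b x y (fun u v => o false w * o true u * o r a * o (!r) v)) = 0 := by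
      rw [e4, k1, k3, neg_zero, sub_zero]
    intro p' p
    cases p' <;> cases p
    · exact k3
    · exact k4
    · exact k1
    · exact k2
  have same0 : ∀ p' : Bool,
      Ph a σ₁ σ₂ (sm b x y (fun u v => o p' w * o (!r) u * o r a * o r v)) = 0 := by
    intro p'
    have h1 := hT2 p'
    have h2 := opp p' (!r)
    cases r
    · simp only [Bool.not_false] at h1 h2 ⊢
      rw [h2, zero_add] at h1
      exact h1
    · simp only [Bool.not_true] at h1 h2 ⊢
      rw [h2, add_zero] at h1
      exact h1
  have same : ∀ p' p : Bool,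
      Ph a σ₁ σ₂ (sm b x y (fun u v => o p' w * o p u * o r a * o r v)) = 0 := by
    have e3 := hm1 r
    have e4 := hm2 r
    have z1 := same0 true
    have z2 := same0 false
    intro p' p
    cases r
    · simp only [Bool.not_false] at z1 z2
      rw [z1] at e3
      rw [z2, ← e3, sub_zero] at e4
      have k1 : Ph a σ₁ σ₂
          (sm b x y (fun u v => o true w * o false u * o false a * o false v)) = 0 :=
        neg_eq_zero.1 e4.symm
      cases p' <;> cases p
      · exact e3.symm
      · exact z2
      · exact k1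
      · exact z1
    · simp only [Bool.not_true] at z1 z2
      rw [z2] at e3
      rw [z1, z2, neg_zero, sub_zero] at e4
      cases p' <;> cases p
      · exact z2
      · exact e4
      · exact z1
      · exact e3
  by_cases htr : t = r
  · subst htr
    exact same p' p
  · have : t = !r := by
      cases t <;> cases r <;> first | rfl | exact absurd rfl htr
    subst this
    exact opp p' p

include hA ha hX in
/-- Exchange of two letters across one `a`. -/
theorem E2 (b : Bool) (x y : A) (hb : b = false → x = y) (σ₁ σ₂ : List (Sy A))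
    (hd : dg σ₁ + dg σ₂ + 1 = k) (hC : C = lt σ₁ + lt σ₂ + {x} + {y}) (p r q : Bool) :
    Ph a σ₁ σ₂ (sm b x y (fun u v => o p u * o r a * o q v)) = 0 := by
  rcases nil_or_snoc σ₁ with rfl | ⟨σ₁, ⟨s, w⟩, rfl⟩
  · have h := U_start hX b x y σ₂ p (fun u v => [(r, none), (q, some v)]) ?_
    · simpa [mul_assoc] using h
    · intro u v
      refine ⟨?_, fun huv => ?_⟩
      · simp only [dg_cons_none, dg_cons_some, dg_nil] at hd ⊢; omega
      · rw [uv_content hC huv]
        simp only [lt_append, lt_cons_some, lt_cons_none, lt_nil]; abel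
  · rcases w with _ | w
    · rw [Ph_snocL]
      change Ph a σ₁ σ₂ (o s a * sm b x y (fun u v => o p u * o r a * o q v)) = 0
      rw [sm_mul_left]
      rcases σ₂ with _ | ⟨⟨q', w⟩, σ₂⟩
      · rw [Ph_sm]
        refine sm_eq_zero b x y (fun u v huv => ?_)
        show ev a σ₁ (o s a (o p u (o r a (o q v a)))) = 0
        rw [A_pa hA ha, map_zero, map_zero, map_zero]
      · rcases w with _ | w
        · rw [Ph_consR, sm_mul_right]
          have : ∀ u v : A, o s a * (o p u * o r a * o q v) * os a (q', none) = 0 := by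
            intro u v
            show o s a * (o p u * o r a * o q v) * o q' a = 0
            have h := F2 hA ha s p r q q' u v
            rw [← h]
            noncomm_ring
          simp only [this, sm_zero, Ph_zero]
        · rw [Ph_consR, sm_mul_right]
          have h := L1 hA ha hX b x y hb σ₁ σ₂ w ?_ ?_ s p r q q'
          · rw [← h]
            congr 1
          · simp only [dg_append, dg_cons_none, dg_cons_some, dg_nil] at hd; omega
          · rw [hC]
            simp only [lt_append, lt_cons_some, lt_cons_none, lt_nil]; abel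
    · rw [Ph_snocL]
      change Ph a σ₁ σ₂ (o s w * sm b x y (fun u v => o p u * o r a * o q v)) = 0
      have h := E2_letter hA ha hX b x y hb σ₁ σ₂ w ?_ ?_ s p r q
      · rw [← h, sm_mul_left]
        congr 1
      · simp only [dg_append, dg_cons_none, dg_cons_some, dg_nil] at hd; omega
      · rw [hC]
        simp only [lt_append, lt_cons_some, lt_cons_none, lt_nil]; abel

end ctx

end Pool.Agent.K6.H1.Alt
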