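import Pool.Agent.K6.H1.Alt.Repeat

set_option autoImplicit false
set_option linter.unusedSectionVars false
set_option linter.unusedSimpArgs false

/-!
# The number of letters of a nonzero string
-/

namespace Pool.Agent.K6.H1.Alt

universe u

variable {A : Type u} [NonUnitalNonAssocRing A]

/-- First gap: number of letters before the first `a`, plus one if there is one. -/
def gp : List (Sy A) → ℕ
  | [] => 0
  | (_, none) :: _ => 1
  | (_, some _) :: σ => gp σ + 1

@[simp] theorem gp_nil : gp ([] : List (Sy A)) = 0 := rfl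

@[simp] theorem gp_none (s : Bool) (σ : List (Sy A)) : gp ((s, none) :: σ) = 1 := rfl

@[simp] theorem gp_some (s : Bool) (x : A) (σ : List (Sy A)) :
    gp ((s, some x) :: σ) = gp σ + 1 := rfl

/-- Replace everything from the first `a` on by a letter. -/
theorem exists_letters (a : A) : ∀ σ : List (Sy A), ∃ τ : List (Sy A), dg τ = 0 ∧
    Multiset.card (lt τ) = gp σ ∧ ev a τ a = ev a σ a := by
  intro σ
  induction σ with
  | nil => exact ⟨[], rfl, rfl, rfl⟩
  | cons s σ ih =>
    obtain ⟨s, w⟩ := s
    rcases w with _ | w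
    · refine ⟨[(!s, some (ev a σ a))], rfl, by simp, ?_⟩
      rw [ev_cons_some, ev_nil, mul_one, ev_cons_none, E_mul]
      cases s <;> rfl
    · obtain ⟨τ, h1, h2, h3⟩ := ih
      refine ⟨(s, some w) :: τ, by simpa using h1, ?_, ?_⟩
      · rw [lt_cons_some, Multiset.card_add, Multiset.card_singleton, h2, gp_some, add_comm]
      · rw [ev_cons_some, ev_cons_some, E_mul, E_mul, h3]

/-- Split at the first `a`. -/
theorem split_first : ∀ σ : List (Sy A), (dg σ = 0 ∧ Multiset.card (lt σ) = gp σ) ∨
    ∃ (τ : List (Sy A)) (s : Bool) (ρ : List (Sy A)), σ = τ ++ (s, none) :: ρ ∧ dg τ = 0 ∧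
      Multiset.card (lt τ) + 1 = gp σ := by
  intro σ
  induction σ with
  | nil => exact Or.inl ⟨rfl, rfl⟩
  | cons s σ ih =>
    obtain ⟨s, w⟩ := s
    rcases w with _ | w
    · exact Or.inr ⟨[], s, σ, rfl, rfl, rfl⟩
    · rcases ih with ⟨h1, h2⟩ | ⟨τ, s', ρ, rfl, h1, h2⟩
      · refine Or.inl ⟨by simpa using h1, ?_⟩
        rw [lt_cons_some, Multiset.card_add, Multiset.card_singleton, h2, gp_some, add_comm]
      · refine Or.inr ⟨(s, some w) :: τ, s', ρ, rfl, by simpa using h1, ?_⟩
        rw [lt_cons_some, Multiset.card_add, Multiset.card_singleton, gp_some, ← h2]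
        omega

theorem suffix_ne {a : A} (τ ρ : List (Sy A)) (h : ev a (τ ++ ρ) a ≠ 0) : ev a ρ a ≠ 0 := by
  intro h0
  apply h
  rw [ev_append, E_mul, h0, map_zero]

section gaps

variable {a : A} {S : ℕ}
  (hS : ∀ σ : List (Sy A), dg σ = 1 → Multiset.card (lt σ) < S → ev a σ a = 0)

include hS in
/-- Every gap is large. -/
theorem gp_ge (r : Bool) (σ : List (Sy A)) (h : ev a ((r, none) :: σ) a ≠ 0) : S ≤ gp σ := by
  obtain ⟨τ, h1, h2, h3⟩ := exists_letters a σ
  by_contra hlt
  apply h
  rw [ev_cons_none, E_mul, ← h3]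
  have := hS ((r, none) :: τ) (by rw [dg_cons_none, h1]) (by rw [lt_cons_none, h2]; omega)
  rw [ev_cons_none, E_mul] at this
  exact this

include hS in
/-- The general bound. -/
theorem bound3 (hS3 : 3 ≤ S) : ∀ (n : ℕ) (r : Bool) (σ : List (Sy A)), σ.length = n →
    ev a ((r, none) :: σ) a ≠ 0 →
    (S + 1) * (dg σ + 1) + 1 ≤ 2 * Multiset.card (lt σ) := by
  intro n
  induction n using Nat.strong_induction_on with
  | _ n ih =>
    intro r σ hn h
    have hg := gp_ge hS r σ h
    rcases split_first σ with ⟨h1, h2⟩ | ⟨τ, s, ρ, rfl, h1, h2⟩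
    · rw [h1, h2]
      omega
    · have hρ : ev a ((s, none) :: ρ) a ≠ 0 := by
        refine suffix_ne ((r, none) :: τ) _ ?_
        simpa using h
      have hlen : ρ.length < n := by
        rw [← hn, List.length_append, List.length_cons]; omega
      have hih := ih _ hlen s ρ rfl hρ
      rw [lt_append, lt_cons_none, Multiset.card_add, dg_append, dg_cons_none, h1]
      have e : (S + 1) * (0 + (dg ρ + 1) + 1) + 1 = (S + 1) * (dg ρ + 1) + 1 + (S + 1) := by ring
      rw [e]
      omega

variable (hA : IsAlt A) (ha : Hy a)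

include hA ha in
/-- No two consecutive gaps of minimal size. -/
theorem gp_two (r : Bool) (σ : List (Sy A)) (h : ev a ((r, none) :: σ) a ≠ 0) (hg : gp σ = 2)
    (τ : List (Sy A)) (s : Bool) (ρ : List (Sy A)) (e : σ = τ ++ (s, none) :: ρ) (h1 : dg τ = 0)
    (h2 : Multiset.card (lt τ) + 1 = gp σ) : gp ρ ≠ 2 := by
  intro hρ
  rw [hg] at h2
  -- τ is one letter
  have hτ : ∃ t x, τ = [(t, some x)] := by
    rcases τ with _ | ⟨⟨t, w⟩, τ⟩
    · simp at h2
    · rcases w with _ | w
      · simp at h1
      · rw [lt_cons_some, Multiset.card_add, Multiset.card_singleton] at h2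
        rcases τ with _ | ⟨⟨t', w'⟩, τ⟩
        · exact ⟨t, w, rfl⟩
        · rcases w' with _ | w'
          · simp at h1
          · rw [lt_cons_some, Multiset.card_add, Multiset.card_singleton] at h2
            omega
  obtain ⟨t, x, rfl⟩ := hτ
  subst e
  apply h
  -- ρ
  have key : ∃ (t' : Bool) (y : A) (q : Bool) (z : A), ev a ρ a = (o t' y * o q a) z := by
    rcases ρ with _ | ⟨⟨t', w⟩, ρ⟩
    · simp at hρ
    · rcases w with _ | y
      · simp at hρ
      · rcases ρ with _ | ⟨⟨t'', w⟩, ρ⟩
        · simp at hρ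
        · rcases w with _ | z
          · refine ⟨t', y, t'', ev a ρ a, ?_⟩
            rw [ev_cons_some, ev_cons_none]; rfl
          · rcases ρ with _ | ⟨⟨t3, w⟩, ρ⟩
            · refine ⟨t', y, !t'', z, ?_⟩
              rw [ev_cons_some, ev_cons_some, ev_nil, mul_one, E_mul, E_mul]
              cases t'' <;> rfl
            · rcases w with _ | w
              · simp at hρ
              · simp at hρ
  obtain ⟨t', y, q, z, hz⟩ := key
  have := congrArg (fun f => f z) (F2 hA ha r t s t' q x y)
  have e : ev a ((r, none) :: ([(t, some x)] ++ (s, none) :: ρ)) a =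
      o r a (o t x (o s a (ev a ρ a))) := by
    simp [E_mul]
  rw [e, hz]
  exact this

include hS hA ha in
theorem bound2 (hS2 : S = 2) : ∀ (n : ℕ) (r : Bool) (σ : List (Sy A)), σ.length = n →
    ev a ((r, none) :: σ) a ≠ 0 →
    3 * (dg σ + 1) + 1 ≤ 2 * Multiset.card (lt σ) ∧
    (gp σ ≠ 2 → 3 * (dg σ + 1) + 2 ≤ 2 * Multiset.card (lt σ)) := by
  intro n
  induction n using Nat.strong_induction_on with
  | _ n ih =>
    intro r σ hn h
    have hg := gp_ge hS r σ h
    rcases split_first σ with ⟨h1, h2⟩ | ⟨τ, s, ρ, e, h1, h2⟩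
    · rw [h1, h2]
      constructor
      · omega
      · intro; omega
    · have hρ : ev a ((s, none) :: ρ) a ≠ 0 := by
        refine suffix_ne ((r, none) :: τ) _ ?_
        rw [e] at h
        simpa using h
      have hlen : ρ.length < n := by
        rw [← hn, e, List.length_append, List.length_cons]; omega
      obtain ⟨i1, i2⟩ := ih _ hlen s ρ rfl hρ
      have c1 : Multiset.card (lt σ) = Multiset.card (lt τ) + Multiset.card (lt ρ) := by
        rw [e, lt_append, lt_cons_none, Multiset.card_add]
      have c2 : dg σ = dg ρ + 1 := by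
        rw [e, dg_append, dg_cons_none, h1]; omega
      rw [c1, c2]
      by_cases hg2 : gp σ = 2
      · have := i2 (gp_two hA ha r σ h hg2 τ s ρ e h1 h2)
        constructor
        · omega
        · intro h'; exact absurd hg2 h'
      · constructor
        · omega
        · intro _; omega

include hS hA ha in
/-- The bound for all nonzero strings. -/
theorem bound (hS2 : 2 ≤ S) (σ : List (Sy A)) (k : ℕ) (hd : dg σ = k + 1)
    (h : ev a σ a ≠ 0) : (S + 1) * (k + 1) + 1 ≤ 2 * Multiset.card (lt σ) := by
  rcases split_first σ with ⟨h1, h2⟩ | ⟨τ, s, ρ, e, h1, h2⟩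
  · omega
  · have hρ : ev a ((s, none) :: ρ) a ≠ 0 := by
      rw [e] at h
      exact suffix_ne τ _ h
    have c1 : Multiset.card (lt σ) = Multiset.card (lt τ) + Multiset.card (lt ρ) := by
      rw [e, lt_append, lt_cons_none, Multiset.card_add]
    have c2 : dg σ = dg ρ + 1 := by
      rw [e, dg_append, dg_cons_none, h1]; omega
    have hk : dg ρ = k := by omega
    rcases Nat.lt_or_ge S 3 with h3 | h3
    · have hS' : S = 2 := by omega
      have := (bound2 hS hA ha hS' _ s ρ rfl hρ).1
      rw [hk] at this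
      subst hS'
      omega
    · have := bound3 hS h3 _ s ρ rfl hρ
      rw [hk] at this
      omega

end gaps

end Pool.Agent.K6.H1.Alt
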