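import Mathlib
import Pool.Agent.K6.H1.Alt.Defs

set_option autoImplicit false

/-!
# Square-zero elements `a` with `aAa = 0` in alternative nil rings of bounded index
-/

namespace Pool.Agent.K6.H1.Alt

universe u

namespace Lev

section basic

variable {A : Type u} [NonUnitalNonAssocRing A]

theorem lin_left (hA : IsAlt A) (x z y : A) :
    (x * z) * y + (z * x) * y = x * (z * y) + z * (x * y) := by
  have h := (hA (x + z) y).1
  have h1 := (hA x y).1
  have h2 := (hA z y).1
  simp only [add_mul, mul_add] at h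
  linear_combination (norm := abel) h - h1 - h2

theorem lin_right (hA : IsAlt A) (y x z : A) :
    (y * x) * z + (y * z) * x = y * (x * z) + y * (z * x) := by
  have h := (hA (x + z) y).2
  have h1 := (hA x y).2
  have h2 := (hA z y).2
  simp only [add_mul, mul_add] at h
  linear_combination (norm := abel) h - h1 - h2

theorem flex (hA : IsAlt A) (x y : A) : (x * y) * x = x * (y * x) := by
  have h := lin_left hA x y x
  have h1 := (hA x y).2
  linear_combination (norm := abel) h - h1

/-- The left Moufang identity. -/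
theorem mouf_left (hA : IsAlt A) (x a y : A) : ((x * a) * x) * y = x * (a * (x * y)) := by
  have e1 := lin_left hA (x * a) x y
  have e2 := lin_right hA x a (x * y)
  have e5 := lin_right hA (x * x) a y
  rw [← (hA x a).1] at e1
  rw [← (hA x y).1] at e2
  have e6 : x * ((x * a) * y) + x * ((x * y) * a) = x * (x * (a * y)) + x * (x * (y * a)) := by
    rw [← mul_add, lin_right hA x a y, mul_add]
  rw [(hA x (a * y)).1, (hA x (y * a)).1] at e5
  linear_combination (norm := abel) e1 + e2 - e5 + e6

/-- The middle Moufang identity. -/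
theorem mouf_mid (hA : IsAlt A) (x y a : A) : (x * y) * (a * x) = (x * (y * a)) * x := by
  have e1 := lin_right hA x y (a * x)
  have e2 : (x * (a * x)) * y = x * (a * (x * y)) := by
    rw [← flex hA, mouf_left hA]
  have e3 := lin_right hA a x y
  have e4 := lin_left hA a y x
  have e5 : x * ((y * a) * x) = x * (y * (a * x)) + x * ((a * x) * y) - x * (a * (x * y)) := by
    rw [← mul_add, ← mul_sub]
    congr 1
    linear_combination (norm := abel) e4 - e3
  rw [flex hA x (y * a), e5]
  rw [e2] at e1
  linear_combination (norm := abel) e1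

/-- Iterated left multiplication. -/
def lp (p : A) (m : ℕ) (y : A) : A := (fun z => p * z)^[m] y

theorem lp_zero (p y : A) : lp p 0 y = y := rfl

theorem lp_succ (p : A) (m : ℕ) (y : A) : lp p (m + 1) y = p * lp p m y :=
  Function.iterate_succ_apply' _ _ _

theorem lp_succ' (p : A) (m : ℕ) (y : A) : lp p (m + 1) y = lp p m (p * y) :=
  Function.iterate_succ_apply _ _ _

theorem lp_add (p : A) (m n : ℕ) (y : A) : lp p (m + n) y = lp p m (lp p n y) :=
  Function.iterate_add_apply _ _ _ _

theorem lp_null (p : A) (m : ℕ) : lp p m 0 = 0 := by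
  induction m with
  | zero => rfl
  | succ m ih => rw [lp_succ, ih, mul_zero]

theorem pw_zero (x : A) : pw x 0 = x := rfl

theorem pw_succ (x : A) (n : ℕ) : pw x (n + 1) = pw x n * x :=
  Function.iterate_succ_apply' _ _ _

theorem pw_mul_aux (hA : IsAlt A) (p : A) (m : ℕ) :
    (∀ y, pw p m * y = lp p (m + 1) y) ∧ (∀ y, pw p (m + 1) * y = lp p (m + 2) y) := by
  induction m with
  | zero =>
    refine ⟨fun y => rfl, fun y => ?_⟩
    exact (hA p y).1
  | succ m ih =>
    refine ⟨ih.2, fun y => ?_⟩
    have h1 : pw p (m + 2) = (p * pw p m) * p := by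
      rw [pw_succ, ih.2, lp_succ, ← ih.1 p, flex hA]
    rw [show m + 1 + 1 = m + 2 from rfl, h1, mouf_left hA, ih.1, ← lp_succ', ← lp_succ]

theorem pw_mul (hA : IsAlt A) (p : A) (m : ℕ) (y : A) : pw p m * y = lp p (m + 1) y :=
  (pw_mul_aux hA p m).1 y

theorem pw_eq (hA : IsAlt A) (p : A) (m : ℕ) : pw p m = lp p m p := by
  cases m with
  | zero => rfl
  | succ m => rw [pw_succ, pw_mul hA]

/-- The associator of a power of `p`, `e` and `p` vanishes. -/
theorem assoc_pw (hA : IsAlt A) (p e : A) (m : ℕ) :
    (pw p m * e) * p = pw p m * (e * p) := by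
  have e1 := lin_right hA (pw p m) e p
  have e2 := lin_left hA (pw p m) p e
  have e3 : (p * pw p m) * e = p * (pw p m * e) := by
    have : p * pw p m = pw p (m + 1) := by
      rw [pw_eq hA, pw_eq hA, lp_succ]
    rw [this, pw_mul hA, pw_mul hA, lp_succ p (m + 1)]
  linear_combination (norm := abel) e1 - e2 + e3

end basic

section relative

variable {B : Type u} [NonUnitalNonAssocRing B]

theorem lev_aux (hB : IsAlt B) (K : AddSubgroup B) (hl : ∀ x ∈ K, ∀ y, y * x ∈ K)
    (hr : ∀ x ∈ K, ∀ y, x * y ∈ K) (e y : B) (he : e * e ∈ K) (m : ℕ) :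
    pw (e * y + e) m - (pw (e * y) m + lp (e * y) m e) ∈ K := by
  induction m with
  | zero =>
    rw [pw_zero, pw_zero, lp_zero, sub_self]
    exact K.zero_mem
  | succ m ih =>
    have hep : e * (e * y) ∈ K := by
      rw [← (hB e y).1]
      exact hr _ he _
    have h1 : (lp (e * y) m e) * (e * y) ∈ K := by
      cases m with
      | zero => exact hep
      | succ m =>
        rw [← pw_mul hB, assoc_pw hB]
        exact hl _ hep _
    have h2 : (lp (e * y) m e) * e ∈ K := by
      cases m with
      | zero => exact he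
      | succ m =>
        rw [← pw_mul hB, (hB e _).2]
        exact hl _ he _
    have h3 := hr _ ih (e * y + e)
    have h4 : pw (e * y + e) (m + 1) - (pw (e * y) (m + 1) + lp (e * y) (m + 1) e) =
        (pw (e * y + e) m - (pw (e * y) m + lp (e * y) m e)) * (e * y + e) +
          (lp (e * y) m e) * (e * y) + (lp (e * y) m e) * e := by
      rw [pw_succ, pw_succ, ← pw_mul hB]
      generalize pw (e * y + e) m = P
      generalize pw (e * y) m = Q
      generalize lp (e * y) m e = R
      simp only [mul_add, add_mul, sub_mul]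
      abel
    rw [h4]
    exact K.add_mem (K.add_mem h3 h1) h2

theorem lev_rel (hB : IsAlt B) (K : AddSubgroup B) (hl : ∀ x ∈ K, ∀ y, y * x ∈ K)
    (hr : ∀ x ∈ K, ∀ y, x * y ∈ K) (e y : B) (he : e * e ∈ K) (j : ℕ)
    (hj : ∀ z, pw z j ∈ K) : lp (e * y) j e ∈ K := by
  have h := lev_aux hB K hl hr e y he j
  have h1 := hj (e * y + e)
  have h2 := hj (e * y)
  have : lp (e * y) j e = pw (e * y + e) j - pw (e * y) j -
      (pw (e * y + e) j - (pw (e * y) j + lp (e * y) j e)) := by abel
  rw [this]
  exact K.sub_mem (K.sub_mem h1 h2) h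

end relative

/-- The homotope: the same additive group with the product `x ∘ y = x(ay)`. -/
def Hmt (A : Type u) [NonUnitalNonAssocRing A] (_ : A) : Type u := A

section homotope

variable {A : Type u} [NonUnitalNonAssocRing A]

instance (a : A) : AddCommGroup (Hmt A a) := inferInstanceAs (AddCommGroup A)

/-- The underlying element of the ring. -/
def un {a : A} (x : Hmt A a) : A := x

instance (a : A) : NonUnitalNonAssocRing (Hmt A a) :=
  { (inferInstance : AddCommGroup (Hmt A a)) with
    mul := fun x y => ((un x) * (a * (un y)) : A)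
    left_distrib := fun x y z => by
      change (un x) * (a * ((un y) + (un z))) = (un x) * (a * (un y)) + (un x) * (a * (un z))
      rw [mul_add, mul_add]
    right_distrib := fun x y z => by
      change ((un x) + (un y)) * (a * (un z)) = (un x) * (a * (un z)) + (un y) * (a * (un z))
      rw [add_mul]
    zero_mul := fun x => by
      change (0 : A) * (a * (un x)) = (0 : A)
      rw [zero_mul]
    mul_zero := fun x => by
      change (un x) * (a * (0 : A)) = (0 : A)
      rw [mul_zero, mul_zero] }

theorem hmt_alt (hA : IsAlt A) (a : A) : IsAlt (Hmt A a) := by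
  intro x y
  constructor
  · change ((un x) * (a * (un x))) * (a * (un y)) = (un x) * (a * ((un x) * (a * (un y))))
    rw [← flex hA, mouf_left hA]
  · change ((un y) * (a * (un x))) * (a * (un x)) = (un y) * (a * ((un x) * (a * (un x))))
    rw [(hA (a * (un x)) (un y)).2]
    congr 1
    have e1 := lin_left hA a (a * (un x)) (un x)
    have e2 : (a * (a * (un x))) * (un x) = a * ((a * (un x)) * (un x)) := by
      rw [← (hA a (un x)).1, (hA (un x) (a * a)).2, (hA (un x) a).2, (hA a _).1]
    rw [← mouf_left hA]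
    linear_combination (norm := abel) e2 - e1

/-- The map `x ↦ axa` from the homotope to the ring. -/
def um (a : A) (x : Hmt A a) : A := (a * (un x)) * a

theorem um_mul (hA : IsAlt A) (a : A) (x y : Hmt A a) :
    um a (x * y) = (a * (un x)) * um a y := by
  change (a * ((un x) * (a * (un y)))) * a = (a * (un x)) * ((a * (un y)) * a)
  rw [mouf_mid hA]

theorem um_mul' (hA : IsAlt A) (a : A) (x y : Hmt A a) :
    um a (x * y) = (um a x * (un y)) * a := by
  change (a * ((un x) * (a * (un y)))) * a = (((a * (un x)) * a) * (un y)) * a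
  rw [mouf_left hA]

theorem um_mul3 (hA : IsAlt A) (a : A) (e y z : Hmt A a) :
    um a ((e * y) * z) = (um a e * (un y)) * um a z := by
  rw [um_mul hA]
  congr 1
  change a * ((un e) * (a * (un y))) = ((a * (un e)) * a) * (un y)
  rw [mouf_left hA]

theorem um_lp (hA : IsAlt A) (a : A) (e y : Hmt A a) (m : ℕ) :
    um a (lp (e * y) m e) = lp (um a e * (un y)) m (um a e) := by
  induction m with
  | zero => rfl
  | succ m ih => rw [lp_succ, lp_succ, um_mul3 hA, ih]

theorem um_lp_self (hA : IsAlt A) (a : A) (x : Hmt A a) (m : ℕ) :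
    um a (lp x m x) = lp (a * (un x)) (m + 1) a := by
  induction m with
  | zero => rfl
  | succ m ih => rw [lp_succ, um_mul hA, ih, ← lp_succ]

/-- The kernel of `x ↦ axa`. -/
def ku (a : A) : AddSubgroup (Hmt A a) where
  carrier := {x | um a x = 0}
  zero_mem' := by
    change (a * (0 : A)) * a = 0
    rw [mul_zero, zero_mul]
  add_mem' := by
    intro x y hx hy
    change (a * ((un x) + (un y))) * a = 0
    have hx' : (a * (un x)) * a = 0 := hx
    have hy' : (a * (un y)) * a = 0 := hy
    rw [mul_add, add_mul, hx', hy', add_zero]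
  neg_mem' := by
    intro x hx
    change (a * (-(un x))) * a = 0
    have hx' : (a * (un x)) * a = 0 := hx
    rw [mul_neg, neg_mul, hx', neg_zero]

theorem mem_ku (a : A) (x : Hmt A a) : x ∈ ku a ↔ um a x = 0 := Iff.rfl

end homotope

section final

variable {A : Type u} [NonUnitalNonAssocRing A]

/-- The property minimised in the proof. -/
def Good (A : Type u) [NonUnitalNonAssocRing A] (k : ℕ) : Prop :=
  ∃ a : A, a ≠ 0 ∧ a * a = 0 ∧ ∀ x : A, lp (a * x) k a = 0

theorem lp_ge (p : A) (y : A) (m n : ℕ) (h : m ≤ n) (h0 : lp p m y = 0) : lp p n y = 0 := by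
  obtain ⟨d, rfl⟩ := Nat.exists_eq_add_of_le h
  rw [Nat.add_comm, lp_add, h0, lp_null]

theorem good_start (hA : IsAlt A) (n : ℕ) (hn : ∀ x : A, pw x n = 0)
    (hne : ∃ a : A, a ≠ 0) : Good A n := by
  classical
  obtain ⟨z, hz⟩ := hne
  have hex : ∃ m, pw z m = 0 := ⟨n, hn z⟩
  obtain ⟨j, hj⟩ : ∃ j, Nat.find hex = j + 1 := by
    refine Nat.exists_eq_succ_of_ne_zero ?_
    intro h0
    have := Nat.find_spec hex
    rw [h0] at this
    exact hz this
  have h1 : pw z (j + 1) = 0 := hj ▸ Nat.find_spec hex
  have h2 : pw z j ≠ 0 := Nat.find_min hex (by omega)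
  have h3 : pw z j * pw z j = 0 := by
    rw [pw_mul hA, pw_eq hA, ← lp_add]
    refine lp_ge z z (j + 1) _ (by omega) ?_
    rw [← pw_eq hA, h1]
  refine ⟨pw z j, h2, h3, fun x => ?_⟩
  have := lev_rel hA (⊥ : AddSubgroup A) (fun x hx y => ?_) (fun x hx y => ?_)
    (pw z j) x (by rw [h3]; exact AddSubgroup.zero_mem _) n
    (fun z => by rw [hn z]; exact AddSubgroup.zero_mem _)
  · exact AddSubgroup.mem_bot.1 this
  · rw [AddSubgroup.mem_bot.1 hx, mul_zero]; exact AddSubgroup.zero_mem _
  · rw [AddSubgroup.mem_bot.1 hx, zero_mul]; exact AddSubgroup.zero_mem _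

theorem good_step (hA : IsAlt A) (j : ℕ) (hg : Good A (j + 2)) : Good A (j + 1) := by
  obtain ⟨a, ha, haa, hk⟩ := hg
  by_cases hex : ∀ x : A, lp (a * x) (j + 1) a = 0
  · exact ⟨a, ha, haa, hex⟩
  push Not at hex
  obtain ⟨x, hx⟩ := hex
  have hB := hmt_alt hA a
  let x' : Hmt A a := x
  let e : Hmt A a := pw x' j
  have he : um a e = lp (a * x) (j + 1) a := by
    change um a (pw x' j) = _
    rw [pw_eq hB, um_lp_self hA]
    rfl
  refine ⟨um a e, by rw [he]; exact hx, ?_, fun y => ?_⟩
  · have h1 : um a e * um a e = a * ((un e) * (a * um a e)) := mouf_left hA _ _ _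
    have h2 : a * um a e = 0 := by
      change a * ((a * un e) * a) = 0
      rw [flex hA, ← (hA a _).1, haa, zero_mul]
    rw [h1, h2, mul_zero, mul_zero]
  · let y' : Hmt A a := y
    change lp (um a e * un y') (j + 1) (um a e) = 0
    rw [← um_lp hA a e y' (j + 1)]
    have := lev_rel hB (ku a) (fun u hu v => ?_) (fun u hu v => ?_) e y' ?_ (j + 1)
      (fun z => ?_)
    · exact this
    · rw [mem_ku, um_mul hA, (mem_ku a u).1 hu, mul_zero]
    · rw [mem_ku, um_mul' hA, (mem_ku a u).1 hu, zero_mul, zero_mul]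
    · rw [mem_ku]
      change um a (pw x' j * pw x' j) = 0
      rw [pw_mul hB, pw_eq hB, ← lp_add, um_lp_self hA]
      exact lp_ge _ _ (j + 2) _ (by omega) (hk x)
    · rw [mem_ku, pw_eq hB, um_lp_self hA]
      exact hk z

theorem good_one (hA : IsAlt A) (n : ℕ) (h : Good A (n + 1)) : Good A 1 := by
  induction n with
  | zero => exact h
  | succ n ih => exact ih (good_step hA n h)

end final

end Lev

/-- In a nonzero alternative nil ring of bounded index there is a nonzero `a` with `a² = 0` and
`aAa = 0`. -/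
theorem levitzki (A : Type u) [NonUnitalNonAssocRing A] (hA : IsAlt A) (n : ℕ)
    (hn : ∀ x : A, pw x n = 0) (hne : ∃ a : A, a ≠ 0) :
    ∃ a : A, a ≠ 0 ∧ a * a = 0 ∧ ∀ x : A, (a * x) * a = 0 := by
  have h := Lev.good_start hA n hn hne
  have h1 : Lev.Good A 1 := by
    cases n with
    | zero =>
      obtain ⟨a, ha⟩ := hne
      exact absurd (hn a) ha
    | succ n => exact Lev.good_one hA n h
  obtain ⟨a, ha, haa, hk⟩ := h1
  exact ⟨a, ha, haa, hk⟩

end Pool.Agent.K6.H1.Alt
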