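import Pool.Agent.K6.H1.Alt.Defs

set_option autoImplicit false

/-!
# Multiplication operators of alternative rings
-/

namespace Pool.Agent.K6.H1.Alt

universe u

variable {A : Type u} [NonUnitalNonAssocRing A]

/-- Left multiplication by `x`. -/
def L (x : A) : AddMonoid.End A := AddMonoidHom.mulLeft x

/-- Right multiplication by `x`. -/
def R (x : A) : AddMonoid.End A := AddMonoidHom.mulRight x

@[simp] theorem L_apply (x z : A) : L x z = x * z := rfl

@[simp] theorem R_apply (x z : A) : R x z = z * x := rfl

theorem E_add (f g : AddMonoid.End A) (z : A) : (f + g) z = f z + g z := rfl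

theorem E_sub (f g : AddMonoid.End A) (z : A) : (f - g) z = f z - g z := rfl

theorem E_neg (f : AddMonoid.End A) (z : A) : (-f) z = -f z := rfl

theorem E_mul (f g : AddMonoid.End A) (z : A) : (f * g) z = f (g z) := rfl

theorem E_zero (z : A) : (0 : AddMonoid.End A) z = 0 := rfl

theorem E_one (z : A) : (1 : AddMonoid.End A) z = z := rfl

theorem L_add (x y : A) : L (x + y) = L x + L y := by
  ext z; simp [add_mul, E_add]

theorem R_add (x y : A) : R (x + y) = R x + R y := by
  ext z; simp [mul_add, E_add]

theorem L_neg (x : A) : L (-x) = -L x := by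
  ext z; simp [E_neg]

theorem R_neg (x : A) : R (-x) = -R x := by
  ext z; simp [E_neg]

theorem L_zero : L (0 : A) = 0 := by
  ext z; simp

theorem R_zero : R (0 : A) = 0 := by
  ext z; simp

section base

variable (hA : IsAlt A)

include hA

theorem alt_l (x y z : A) : (x * y) * z + (y * x) * z = x * (y * z) + y * (x * z) := by
  have h1 := (hA (x + y) z).1
  have h2 := (hA x z).1
  have h3 := (hA y z).1
  simp only [add_mul, mul_add] at h1
  rw [h2, h3] at h1
  have : (x * y * z + y * x * z) + (x * (x * z) + y * (y * z)) =
      (x * (y * z) + y * (x * z)) + (x * (x * z) + y * (y * z)) := by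
    calc _ = x * (x * z) + y * x * z + (x * y * z + y * (y * z)) := by abel
      _ = _ := h1
      _ = _ := by abel
  exact add_right_cancel this

theorem alt_r (x y z : A) : (z * x) * y + (z * y) * x = z * (x * y) + z * (y * x) := by
  have h1 := (hA (x + y) z).2
  have h2 := (hA x z).2
  have h3 := (hA y z).2
  simp only [add_mul, mul_add] at h1
  rw [h2, h3] at h1
  have : (z * x * y + z * y * x) + (z * (x * x) + z * (y * y)) =
      (z * (x * y) + z * (y * x)) + (z * (x * x) + z * (y * y)) := by
    calc _ = z * (x * x) + z * y * x + (z * x * y + z * (y * y)) := by abel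
      _ = _ := h1
      _ = _ := by abel
  exact add_right_cancel this

/-- `L (x*y)` in terms of operators. -/
theorem L_mul (x y : A) : L (x * y) = L x * L y + L x * R y - R y * L x := by
  ext z
  have h := alt_r hA y z x
  have : (x * y) * z = x * (y * z) + x * (z * y) - (x * z) * y := by
    rw [← h]; abel
  simpa [E_add, E_sub, E_mul, E_zero] using this

/-- `R (x*y)` in terms of operators. -/
theorem R_mul (x y : A) : R (x * y) = R y * R x + R y * L x - L x * R y := by
  ext z
  have h := alt_l hA x z y
  have : z * (x * y) = (z * x) * y + (x * z) * y - x * (z * y) := by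
    have h' : x * z * y + z * x * y = x * (z * y) + z * (x * y) := h
    have : z * (x * y) = x * z * y + z * x * y - x * (z * y) := by rw [h']; abel
    rw [this]; abel
  simpa [E_add, E_sub, E_mul, E_zero] using this

theorem LR_comm (x y : A) : L x * R y - R y * L x + (L y * R x - R x * L y) = 0 := by
  ext z
  have h1 := alt_l hA x z y
  have h2 := alt_r hA x y z
  have h3 := alt_l hA y z x
  -- x*(z*y) - (x*z)*y + y*(z*x) - (y*z)*x = 0
  have e1 : x * (z * y) - (x * z) * y = (z * x) * y - z * (x * y) := by
    have : x * (z * y) + z * (x * y) = x * z * y + z * x * y := h1.symm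
    calc x * (z * y) - (x * z) * y = (x * (z * y) + z * (x * y)) - z * (x * y) - (x * z) * y := by
          abel
      _ = _ := by rw [this]; abel
  have e2 : y * (z * x) - (y * z) * x = (z * y) * x - z * (y * x) := by
    have : y * (z * x) + z * (y * x) = y * z * x + z * y * x := h3.symm
    calc y * (z * x) - (y * z) * x = (y * (z * x) + z * (y * x)) - z * (y * x) - (y * z) * x := by
          abel
      _ = _ := by rw [this]; abel
  have : x * (z * y) - (x * z) * y + (y * (z * x) - (y * z) * x) = 0 := by
    rw [e1, e2]
    calc _ = (z * x * y + z * y * x) - (z * (x * y) + z * (y * x)) := by abel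
      _ = 0 := by rw [h2]; abel
  simpa [E_add, E_sub, E_mul, E_zero] using this

end base

/-- The associator. -/
def as (x y z : A) : A := (x * y) * z - x * (y * z)

theorem as_teich (w x y z : A) :
    as (w * x) y z - as w (x * y) z + as w x (y * z) = w * as x y z + as w x y * z := by
  simp only [as, mul_sub, sub_mul]
  abel

section moufang

variable (hA : IsAlt A)

include hA

theorem as_12 (x y z : A) : as x y z = -as y x z := by
  have h := alt_l hA x y z
  unfold as
  linear_combination (norm := abel) h

theorem as_23 (x y z : A) : as x y z = -as x z y := by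
  have h := alt_r hA y z x
  unfold as
  linear_combination (norm := abel) h

theorem as_13 (x y z : A) : as x y z = -as z y x := by
  rw [as_12 hA, as_23 hA, as_12 hA, neg_neg]

theorem as_cyc (x y z : A) : as x y z = as y z x := by
  rw [as_12 hA, as_23 hA, neg_neg]

theorem as_xx (x z : A) : as x x z = 0 := by
  unfold as
  rw [(hA x z).1, sub_self]

theorem as_zz (x z : A) : as z x x = 0 := by
  unfold as
  rw [(hA x z).2, sub_self]

theorem as_xyx (x y : A) : as x y x = 0 := by
  rw [as_23 hA, as_xx hA, neg_zero]

/-- `(x,y,zx) = x (x,y,z)`. -/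
theorem as_mul_right (x y z : A) : as x y (z * x) = x * as x y z := by
  have h1 := as_teich x x y z
  have h5 := as_teich z x x y
  rw [as_xx hA, as_xx hA, zero_mul] at h1
  rw [as_xx hA, as_zz hA, zero_mul, mul_zero, as_cyc hA (z * x) x y, as_cyc hA z (x * x) y,
    as_cyc hA z x (x * y)] at h5
  linear_combination (norm := abel) h1 + h5

theorem as_mul_mid (x y z : A) : as x (x * y) z = as x y z * x := by
  have h1 := as_teich x x y z
  rw [as_xx hA, as_xx hA, zero_mul] at h1
  have h3 := as_teich y z x x
  rw [as_zz hA, as_zz hA, mul_zero, ← as_cyc hA x y (z * x), ← as_cyc hA x y z,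
    ← as_cyc hA (x * x) y z] at h3
  have h4 := as_mul_right hA x y z
  rw [h4] at h3
  linear_combination (norm := abel) h3 - h1

theorem as_mul_right' (x y z : A) : as x y (x * z) = as x y z * x := by
  rw [as_23 hA, as_mul_mid hA, as_23 hA x z y, neg_mul, neg_neg]

theorem as_mul_mid' (x y z : A) : as x (y * x) z = x * as x y z := by
  rw [as_23 hA, as_mul_right hA, as_23 hA x z y, mul_neg, neg_neg]

/-- Middle Moufang identity. -/
theorem mid_mf (x y z : A) : (x * y) * (z * x) = x * ((y * z) * x) := by
  have h := as_mul_right hA x y z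
  have h2 : as x y z = as y z x := as_cyc hA x y z
  have e1 : (x * y) * (z * x) = as x y (z * x) + x * (y * (z * x)) := by unfold as; abel
  have e2 : x * ((y * z) * x) = x * as y z x + x * (y * (z * x)) := by
    unfold as; rw [mul_sub]; abel
  rw [e1, e2, h, h2]

/-- Left Moufang identity. -/
theorem left_mf (x y z : A) : ((x * y) * x) * z = x * (y * (x * z)) := by
  have e : ((x * y) * x) * z = as (x * y) x z + as x y (x * z) + x * (y * (x * z)) := by
    unfold as; abel
  rw [e, as_mul_right' hA, as_12 hA, as_mul_mid hA]
  abel

/-- Right Moufang identity. -/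
theorem right_mf (x y z : A) : ((z * x) * y) * x = z * (x * (y * x)) := by
  have e : ((z * x) * y) * x = as (z * x) y x + as z x (y * x) + z * (x * (y * x)) := by
    unfold as; abel
  rw [e, as_12 hA z x (y * x), as_mul_right hA, ← as_cyc hA x (z * x) y, as_mul_mid' hA]
  abel

/-! ### Operator forms -/

/-- `x(yx)x = (xy)x`: flexible law in operator form. -/
theorem flex (x y : A) : (x * y) * x = x * (y * x) := by
  have h := as_xyx hA x y
  unfold as at h
  exact sub_eq_zero.1 h

theorem RL_self (x : A) : R x * L x = L x * R x := by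
  ext z
  show (x * z) * x = x * (z * x)
  exact flex hA x z

theorem LL_self (x : A) : L x * L x = L (x * x) := by
  ext z
  exact ((hA x z).1).symm

theorem RR_self (x : A) : R x * R x = R (x * x) := by
  ext z
  exact (hA x z).2

theorem LL_symm (x y : A) : L x * L y + L y * L x = L (x * y) + L (y * x) := by
  rw [L_mul hA, L_mul hA]
  have h := LR_comm hA x y
  linear_combination (norm := noncomm_ring) -h

theorem RR_symm (x y : A) : R x * R y + R y * R x = R (x * y) + R (y * x) := by
  rw [R_mul hA, R_mul hA]
  have h := LR_comm hA x y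
  linear_combination (norm := noncomm_ring) h

theorem RL_symm (x y : A) : R x * L y + R y * L x = L x * R y + L y * R x := by
  have h := LR_comm hA x y
  linear_combination (norm := noncomm_ring) -h

/-- `U_x R_z = R_{zx} L_x`. -/
theorem U_R (x z : A) : L x * R x * R z = R (z * x) * L x := by
  ext y
  exact (mid_mf hA x y z).symm

/-- `U_x L_z = L_{xz} R_x`. -/
theorem U_L (x z : A) : L x * R x * L z = L (x * z) * R x := by
  ext y
  exact (mid_mf hA x z y).symm

theorem LLL (x y : A) : L x * L y * L x = L ((x * y) * x) := by
  ext z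
  exact (left_mf hA x y z).symm

theorem RRR (x y : A) : R x * R y * R x = R (x * (y * x)) := by
  ext z
  exact right_mf hA x y z

/-- linearised `U_R`. -/
theorem U_R2 (x y z : A) : (L x * R y + L y * R x) * R z = R (z * x) * L y + R (z * y) * L x := by
  have h1 := U_R hA (x + y) z
  have h2 := U_R hA x z
  have h3 := U_R hA y z
  simp only [L_add, R_add, mul_add] at h1
  linear_combination (norm := noncomm_ring) h1 - h2 - h3

theorem U_L2 (x y z : A) : (L x * R y + L y * R x) * L z = L (x * z) * R y + L (y * z) * R x := by
  have h1 := U_L hA (x + y) z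
  have h2 := U_L hA x z
  have h3 := U_L hA y z
  simp only [L_add, R_add, add_mul] at h1
  linear_combination (norm := noncomm_ring) h1 - h2 - h3

/-- `R_z U_x = L_x R_{xz}`. -/
theorem R_U (x z : A) : R z * (L x * R x) = L x * R (x * z) := by
  ext y
  show (x * (y * x)) * z = x * (y * (x * z))
  rw [← flex hA x y]
  exact left_mf hA x y z

/-- `L_z U_x = R_x L_{zx}`. -/
theorem L_U (x z : A) : L z * (L x * R x) = R x * L (z * x) := by
  ext y
  exact (right_mf hA x y z).symm

theorem R_U2 (x y z : A) : R z * (L x * R y + L y * R x) = L x * R (y * z) + L y * R (x * z) := by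
  have h1 := R_U hA (x + y) z
  have h2 := R_U hA x z
  have h3 := R_U hA y z
  simp only [L_add, R_add, add_mul] at h1
  linear_combination (norm := noncomm_ring) h1 - h2 - h3

theorem L_U2 (x y z : A) : L z * (L x * R y + L y * R x) = R x * L (z * y) + R y * L (z * x) := by
  have h1 := L_U hA (x + y) z
  have h2 := L_U hA x z
  have h3 := L_U hA y z
  simp only [L_add, R_add, mul_add] at h1
  linear_combination (norm := noncomm_ring) h1 - h2 - h3

/-- `U_x R_a = T_x R_a L_x - R_a L_{x²}`. -/
theorem U_Ra (x a : A) : L x * R x * R a = (L x + R x) * R a * L x - R a * L (x * x) := by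
  rw [U_R hA, R_mul hA, ← LL_self hA]
  have h := LR_comm hA x a
  linear_combination (norm := noncomm_ring) -h * L x

theorem U_La (x a : A) : L x * R x * L a = (L x + R x) * L a * R x - L a * R (x * x) := by
  rw [U_L hA, L_mul hA, ← RR_self hA]
  have h := LR_comm hA x a
  linear_combination (norm := noncomm_ring) h * R x

theorem Ra_U (x a : A) : R a * (L x * R x) = L x * R a * (L x + R x) - L (x * x) * R a := by
  rw [R_U hA, R_mul hA, ← LL_self hA]
  noncomm_ring

theorem La_U (x a : A) : L a * (L x * R x) = R x * L a * (L x + R x) - R (x * x) * L a := by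
  rw [L_U hA, L_mul hA, ← RR_self hA]
  noncomm_ring

theorem U_Ra2 (x y a : A) : (L x * R y + L y * R x) * R a =
    (L x + R x) * R a * L y + (L y + R y) * R a * L x - R a * L (x * y + y * x) := by
  have h1 := U_Ra hA (x + y) a
  have h2 := U_Ra hA x a
  have h3 := U_Ra hA y a
  simp only [L_add, R_add, mul_add, add_mul] at h1
  rw [L_add]
  linear_combination (norm := noncomm_ring) h1 - h2 - h3

theorem U_La2 (x y a : A) : (L x * R y + L y * R x) * L a =
    (L x + R x) * L a * R y + (L y + R y) * L a * R x - L a * R (x * y + y * x) := by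
  have h1 := U_La hA (x + y) a
  have h2 := U_La hA x a
  have h3 := U_La hA y a
  simp only [L_add, R_add, mul_add, add_mul] at h1
  rw [R_add]
  linear_combination (norm := noncomm_ring) h1 - h2 - h3

theorem Ra_U2 (x y a : A) : R a * (L x * R y + L y * R x) =
    L x * R a * (L y + R y) + L y * R a * (L x + R x) - L (x * y + y * x) * R a := by
  have h1 := Ra_U hA (x + y) a
  have h2 := Ra_U hA x a
  have h3 := Ra_U hA y a
  simp only [L_add, R_add, mul_add, add_mul] at h1
  rw [L_add]
  linear_combination (norm := noncomm_ring) h1 - h2 - h3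

theorem La_U2 (x y a : A) : L a * (L x * R y + L y * R x) =
    R x * L a * (L y + R y) + R y * L a * (L x + R x) - R (x * y + y * x) * L a := by
  have h1 := La_U hA (x + y) a
  have h2 := La_U hA x a
  have h3 := La_U hA y a
  simp only [L_add, R_add, mul_add, add_mul] at h1
  rw [R_add]
  linear_combination (norm := noncomm_ring) h1 - h2 - h3

/-- Rewriting of `R_i L_j`. -/
theorem RL_rw (i j : A) : R i * L j = L j * R i + R (j * i) - R i * R j := by
  rw [R_mul hA]
  noncomm_ring

/-- Rewriting of `L_i L_j`. -/
theorem LL_rw (i j : A) : L i * L j = L (i * j) + R (i * j) - R j * R i := by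
  rw [R_mul hA, L_mul hA]
  noncomm_ring

/-- `L_{yq} = T_y L_q - L_q R_y`. -/
theorem L_mul' (y q : A) : L (y * q) = (L y + R y) * L q - L q * R y := by
  rw [L_mul hA]
  have h := LR_comm hA y q
  linear_combination (norm := noncomm_ring) h

/-- `R_{yq} = T_q R_y - R_y L_q`. -/
theorem R_mul' (y q : A) : R (y * q) = (L q + R q) * R y - R y * L q := by
  rw [R_mul hA]
  have h := LR_comm hA y q
  linear_combination (norm := noncomm_ring) -h

end moufang

end Pool.Agent.K6.H1.Alt
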