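import Mathlib
import Pool.Agent.K6.H1.Alt.Defs
import Pool.Agent.R603.OmegaCat
import Pool.Agent.R546.RN.Ryll

set_option autoImplicit false

/-!
# Part I: reduction to a countable ring with an oligomorphic automorphism group
-/

namespace Pool.Agent.K6.H1.Alt

open FirstOrder FirstOrder.Language Pool.Agent.R603

namespace PartI

/-- The language of 0, minus, plus and times. -/
abbrev RL : FirstOrder.Language.{0, 0} :=
  FirstOrder.Language.mk
    (fun n : ℕ => Fin (if n = 2 then 2 else if n ≤ 1 then 1 else 0))
    (fun _ : ℕ => Empty)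

/-- A ring as a structure. -/
abbrev ringStr (A : Type) [NonUnitalNonAssocRing A] : RL.Structure A :=
  { funMap := fun {n} i x =>
              if n = 2 ∧ Fin.val i = 1 then (List.ofFn x).headD 0 * (List.ofFn x).getLastD 0
              else if n = 1 then -(∑ j, x j) else ∑ j, x j,
            RelMap := fun {n} r _ => Empty.elim r }

def mulSym : RL.Functions 2 := (⟨1, by decide⟩ : Fin (if 2 = 2 then 2 else if 2 ≤ 1 then 1 else 0))
def addSym : RL.Functions 2 := (⟨0, by decide⟩ : Fin (if 2 = 2 then 2 else if 2 ≤ 1 then 1 else 0))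
def negSym : RL.Functions 1 := (⟨0, by decide⟩ : Fin (if 1 = 2 then 2 else if 1 ≤ 1 then 1 else 0))
def zeroSym : RL.Functions 0 := (⟨0, by decide⟩ : Fin (if 0 = 2 then 2 else if 0 ≤ 1 then 1 else 0))

variable {A : Type} [NonUnitalNonAssocRing A]

theorem funMap_mul (x : Fin 2 → A) :
    @Structure.funMap RL A (ringStr A) 2 mulSym x = x 0 * x 1 := by
  show (if 2 = 2 ∧ Fin.val mulSym = 1 then (List.ofFn x).headD 0 * (List.ofFn x).getLastD 0
              else if 2 = 1 then -(∑ j, x j) else ∑ j, x j) = _
  rw [if_pos ⟨rfl, rfl⟩]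
  simp [List.ofFn_succ]

theorem funMap_add (x : Fin 2 → A) :
    @Structure.funMap RL A (ringStr A) 2 addSym x = x 0 + x 1 := by
  show (if 2 = 2 ∧ Fin.val addSym = 1 then (List.ofFn x).headD 0 * (List.ofFn x).getLastD 0
              else if 2 = 1 then -(∑ j, x j) else ∑ j, x j) = _
  rw [if_neg (by rintro ⟨_, h⟩; exact absurd h (by decide)), if_neg (by decide)]
  simp [Fin.sum_univ_two]

theorem funMap_neg (x : Fin 1 → A) :
    @Structure.funMap RL A (ringStr A) 1 negSym x = -x 0 := by
  show (if 1 = 2 ∧ Fin.val negSym = 1 then (List.ofFn x).headD 0 * (List.ofFn x).getLastD 0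
              else if 1 = 1 then -(∑ j, x j) else ∑ j, x j) = _
  rw [if_neg (by rintro ⟨h, _⟩; exact absurd h (by decide)), if_pos rfl]
  simp

theorem funMap_zero (x : Fin 0 → A) :
    @Structure.funMap RL A (ringStr A) 0 zeroSym x = 0 := by
  show (if 0 = 2 ∧ Fin.val zeroSym = 1 then (List.ofFn x).headD 0 * (List.ofFn x).getLastD 0
              else if 0 = 1 then -(∑ j, x j) else ∑ j, x j) = _
  rw [if_neg (by rintro ⟨h, _⟩; exact absurd h (by decide)), if_neg (by decide)]
  simp

/-- Ring homomorphisms preserve the structure maps. -/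
theorem hom_funMap {B : Type} [NonUnitalNonAssocRing B] (h : B →ₙ+* A) {n : ℕ} (f : RL.Functions n)
    (x : Fin n → B) :
    h (@Structure.funMap RL B (ringStr B) n f x) = @Structure.funMap RL A (ringStr A) n f (h ∘ x) := by
  show h (if n = 2 ∧ Fin.val f = 1 then (List.ofFn x).headD 0 * (List.ofFn x).getLastD 0
              else if n = 1 then -(∑ j, x j) else ∑ j, x j) =
    (if n = 2 ∧ Fin.val f = 1 then (List.ofFn (h ∘ x)).headD 0 * (List.ofFn (h ∘ x)).getLastD 0
              else if n = 1 then -(∑ j, (h ∘ x) j) else ∑ j, (h ∘ x) j)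
  by_cases h1 : n = 2 ∧ Fin.val f = 1
  · rw [if_pos h1, if_pos h1]
    obtain ⟨rfl, _⟩ := h1
    simp [List.ofFn_succ]
  · rw [if_neg h1, if_neg h1]
    by_cases h2 : n = 1
    · rw [if_pos h2, if_pos h2, map_neg, map_sum]
      rfl
    · rw [if_neg h2, if_neg h2, map_sum]
      rfl

/-! ### trees -/

/-- The value of the full binary product of depth `k`. -/
def tree : (k : ℕ) → ((Fin k → Bool) → A) → A
  | 0, x => x (fun i => i.elim0)
  | k + 1, x => tree k (fun s => x (Fin.cons false s)) * tree k (fun s => x (Fin.cons true s))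

/-- The corresponding term. -/
def treeT : (k : ℕ) → RL.Term (Fin k → Bool)
  | 0 => Term.var (fun i => i.elim0)
  | k + 1 => Functions.apply₂ mulSym ((treeT k).relabel (Fin.cons (α := fun _ => Bool) false))
      ((treeT k).relabel (Fin.cons (α := fun _ => Bool) true))

theorem realize_treeT (k : ℕ) (x : (Fin k → Bool) → A) :
    @Term.realize RL A (ringStr A) _ x (treeT k) = tree k x := by
  letI := ringStr A
  induction k with
  | zero => rfl
  | succ k ih =>
    rw [treeT, tree, Term.realize_functions_apply₂, Term.realize_relabel, Term.realize_relabel, ih, ih]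
    exact funMap_mul _

/-- the sentence saying that all trees of depth `k` vanish -/
noncomputable def treeS (k : ℕ) : RL.Sentence :=
  Formula.iAlls (Fin k → Bool) (α := Empty)
    (Term.equal ((treeT k).relabel Sum.inr) (Constants.term (L := RL) zeroSym))

theorem realize_treeS (k : ℕ) :
    (@Sentence.Realize RL A (ringStr A) (treeS k)) ↔ ∀ x : (Fin k → Bool) → A, tree k x = 0 := by
  letI := ringStr A
  rw [treeS, Sentence.Realize, Formula.realize_iAlls]
  refine forall_congr' fun x => ?_
  rw [Formula.realize_equal, Term.realize_relabel, Term.realize_constants]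
  have h2 : (@constantMap RL A _ zeroSym : A) = 0 := funMap_zero _
  rw [h2]
  have h3 := realize_treeT k x
  constructor
  · intro h
    rw [← h3]
    exact h
  · intro h
    rw [← h3] at h
    exact h

theorem tree_mem_derS (k : ℕ) (x : (Fin k → Bool) → A) : tree k x ∈ derS (⊤ : AddSubgroup A) k := by
  induction k with
  | zero => exact AddSubgroup.mem_top _
  | succ k ih =>
    exact AddSubgroup.subset_closure ⟨_, ih _, _, ih _, rfl⟩

theorem derS_le (k : ℕ) :
    derS (⊤ : AddSubgroup A) k ≤ AddSubgroup.closure (Set.range (tree (A := A) k)) := by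
  induction k with
  | zero =>
    intro a _
    exact AddSubgroup.subset_closure ⟨fun _ => a, rfl⟩
  | succ k ih =>
    show AddSubgroup.closure _ ≤ _
    rw [AddSubgroup.closure_le]
    rintro z ⟨u, hu, v, hv, rfl⟩
    have hu' := ih hu
    have hv' := ih hv
    clear hu hv
    show u * v ∈ AddSubgroup.closure (Set.range (tree (A := A) (k + 1)))
    induction hu' using AddSubgroup.closure_induction with
    | mem a ha =>
      obtain ⟨x, rfl⟩ := ha
      induction hv' using AddSubgroup.closure_induction with
      | mem b hb =>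
        obtain ⟨y, rfl⟩ := hb
        apply AddSubgroup.subset_closure
        refine ⟨fun s => if s 0 = false then x (fun i => s i.succ) else y (fun i => s i.succ), ?_⟩
        rw [tree]
        simp
      | zero => rw [mul_zero]; exact AddSubgroup.zero_mem _
      | add b c _ _ hb hc => rw [mul_add]; exact AddSubgroup.add_mem _ hb hc
      | neg b _ hb => rw [mul_neg]; exact AddSubgroup.neg_mem _ hb
    | zero => rw [zero_mul]; exact AddSubgroup.zero_mem _
    | add b c _ _ hb hc => rw [add_mul]; exact AddSubgroup.add_mem _ hb hc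
    | neg b _ hb => rw [neg_mul]; exact AddSubgroup.neg_mem _ hb

theorem derS_eq_bot_of_tree (k : ℕ) (h : ∀ x : (Fin k → Bool) → A, tree k x = 0) :
    derS (⊤ : AddSubgroup A) k = ⊥ := by
  rw [eq_bot_iff]
  refine (derS_le k).trans ?_
  rw [AddSubgroup.closure_le]
  rintro _ ⟨x, rfl⟩
  rw [h x]
  exact AddSubgroup.zero_mem _

theorem solv_iff : Solv (⊤ : AddSubgroup A) ↔ ∃ k, ∀ x : (Fin k → Bool) → A, tree k x = 0 := by
  constructor
  · rintro ⟨k, hk⟩
    refine ⟨k, fun x => ?_⟩
    have := tree_mem_derS k x
    rw [hk] at this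
    exact this
  · rintro ⟨k, hk⟩
    exact ⟨k, derS_eq_bot_of_tree k hk⟩

/-! ### automorphisms -/

/-- An automorphism of the structure is a ring automorphism. -/
noncomputable def toRingEquiv (g : @Language.Equiv RL A A (ringStr A) (ringStr A)) : A ≃+* A :=
  letI := ringStr A
  { g.toEquiv with
    map_mul' := by
      intro x y
      have h := g.map_fun mulSym ![x, y]
      rw [funMap_mul, funMap_mul] at h
      exact h
    map_add' := by
      intro x y
      have h := g.map_fun addSym ![x, y]
      rw [funMap_add, funMap_add] at h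
      exact h }

theorem olig_of_oligomorphic (h : @OligomorphicAut RL A (ringStr A)) : Olig A := by
  classical
  letI := ringStr A
  intro n
  obtain ⟨S, hS⟩ := h n
  choose s hs g hg using hS
  refine ⟨S.card, fun v => S.equivFin ⟨s v, hs v⟩, fun x y hxy => ?_⟩
  have h1 : s x = s y := by
    have := S.equivFin.injective hxy
    exact congrArg Subtype.val this
  refine ⟨toRingEquiv ((g y).comp (g x).symm), fun i => ?_⟩
  show (g y) ((g x).symm (x i)) = y i
  rw [← hg x i, Language.Equiv.symm_apply_apply, h1, hg y i]

theorem olig_of_finite [Finite A] : Olig A := by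
  classical
  have := Fintype.ofFinite A
  intro n
  refine ⟨Fintype.card (Fin n → A), Fintype.equivFin _, fun x y hxy => ?_⟩
  have := (Fintype.equivFin (Fin n → A)).injective hxy
  exact ⟨RingEquiv.refl A, fun i => by rw [this]; rfl⟩

theorem card_RL : Countable RL.Symbols := by
  have h1 : ∀ l, Countable (RL.Functions l) := fun l =>
    inferInstanceAs (Countable (Fin (if l = 2 then 2 else if l ≤ 1 then 1 else 0)))
  have h2 : ∀ l, Countable (RL.Relations l) := fun l => inferInstanceAs (Countable Empty)
  exact inferInstanceAs (Countable ((Σ l, RL.Functions l) ⊕ (Σ l, RL.Relations l)))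

/-- the subring underlying an elementary substructure is isomorphic to it -/
theorem subring_equiv (S : @ElementarySubstructure RL A (ringStr A)) (R : NonUnitalSubring A)
    (hRS : ∀ a, a ∈ R ↔ a ∈ S) :
    Nonempty (@Language.Equiv RL S R (@ElementarySubstructure.inducedStructure RL A (ringStr A) S) (ringStr R)) := by
  let iA := ringStr A
  let iS : RL.Structure S := @ElementarySubstructure.inducedStructure RL A (ringStr A) S
  let iR : RL.Structure R := ringStr R
  refine ⟨?_⟩
  exact
    { toFun := fun s => ⟨s.1, (hRS _).2 s.2⟩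
      invFun := fun s => ⟨s.1, (hRS _).1 s.2⟩
      left_inv := fun s => rfl
      right_inv := fun s => rfl
      map_fun' := by
        intro n f x
        apply Subtype.ext
        have h1 := hom_funMap (A := A) (B := R) (NonUnitalSubringClass.subtype R) f
          ((fun s : S => (⟨s.1, (hRS _).2 s.2⟩ : R)) ∘ x)
        refine Eq.trans ?_ h1.symm
        exact S.subtype.map_fun f x
      map_rel' := by
        intro n r x
        exact Empty.elim r }

theorem sub_olig (S : @ElementarySubstructure RL A (ringStr A)) (R : NonUnitalSubring A)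
    (hRS : ∀ a, a ∈ R ↔ a ∈ S) (hinf : Infinite A) (hScard : Cardinal.mk S = Cardinal.aleph0)
    (hcat : Cardinal.Categorical Cardinal.aleph0.{0} (@completeTheory RL A (ringStr A))) :
    Olig R ∧ (Solv (⊤ : AddSubgroup R) → Solv (⊤ : AddSubgroup A)) := by
  obtain ⟨e⟩ := subring_equiv S R hRS
  let iA := ringStr A
  let iS : RL.Structure S := @ElementarySubstructure.inducedStructure RL A (ringStr A) S
  let iR : RL.Structure R := ringStr R
  have hctb := card_RL
  have h1 : (S : Type) ≅[RL] A := S.elementarilyEquivalent
  have h2 : (S : Type) ≅[RL] R := StrongHomClass.elementarilyEquivalent e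
  have heq : (R : Type) ≅[RL] A := h2.symm.trans h1
  have hRcard : Cardinal.mk R = Cardinal.aleph0 := by
    rw [← hScard]
    exact (Cardinal.mk_congr e.toEquiv).symm
  have hRc : Countable R := Cardinal.mk_le_aleph0_iff.1 hRcard.le
  constructor
  · have hne : Nonempty R := ⟨0⟩
    have hneA : Nonempty A := ⟨0⟩
    apply olig_of_oligomorphic
    apply Pool.Agent.R546.RN.oligomorphic_of_omegaCategorical' RL R
    intro C _ _ hC
    have hCA : C ⊨ RL.completeTheory A := by
      rw [← heq.completeTheory_eq]
      exact hC
    have hCne : Nonempty C := by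
      by_contra hne'
      have h5 : IsEmpty C := not_nonempty_iff.1 hne'
      
      exact absurd hne' (by
        have h7 : A ⊨ (Sentence.cardGe RL 1) := by
          rw [Sentence.realize_cardGe]
          exact_mod_cast Cardinal.one_le_iff_ne_zero.2 (Cardinal.mk_ne_zero A)
        have h8 : C ⊨ (Sentence.cardGe RL 1) := hCA.realize_of_mem _ h7
        rw [Sentence.realize_cardGe] at h8
        have h9 : (1 : Cardinal) ≤ Cardinal.mk C := by exact_mod_cast h8
        exact not_not.2 (Cardinal.mk_ne_zero_iff.1 (Cardinal.one_le_iff_ne_zero.1 h9)))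
    have hCeq : RL.completeTheory A = RL.completeTheory C :=
      (Theory.IsComplete.isComplete_iff_models_elementarily_equivalent.1 (completeTheory.isComplete RL A)).2
        (Theory.ModelType.of (RL.completeTheory A) A) (Theory.ModelType.of (RL.completeTheory A) C)
    have hCinf : Infinite C := ElementarilyEquivalent.infinite (M := A) hCeq
    have hCcard : Cardinal.mk C = Cardinal.aleph0 := Cardinal.mk_eq_aleph0 C
    have hRA : R ⊨ RL.completeTheory A := by
      rw [← heq.completeTheory_eq]
      infer_instance
    exact hcat (Theory.ModelType.of (RL.completeTheory A) R) (Theory.ModelType.of (RL.completeTheory A) C)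
      hRcard hCcard
  · intro h
    rw [solv_iff] at h ⊢
    obtain ⟨k, hk⟩ := h
    refine ⟨k, ?_⟩
    rw [← realize_treeS] at hk ⊢
    exact (heq.realize_sentence _).1 hk

theorem core (halt : IsAlt A) (hnil : IsNil A)
    (hcat : Cardinal.Categorical Cardinal.aleph0.{0} (@completeTheory RL A (ringStr A))) :
    ∃ (B : Type) (_ : NonUnitalNonAssocRing B), IsAlt B ∧ IsNil B ∧ Olig B ∧
      (Solv (⊤ : AddSubgroup B) → Solv (⊤ : AddSubgroup A)) := by
  by_cases hfin : Finite A
  · exact ⟨A, inferInstance, halt, hnil, olig_of_finite, id⟩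
  have hinf : Infinite A := not_finite_iff_infinite.1 hfin
  let iA := ringStr A
  have hctb := card_RL
  obtain ⟨S, -, hScard⟩ := exists_elementarySubstructure_card_eq RL (∅ : Set A) Cardinal.aleph0.{0}
        le_rfl (by
          rw [Cardinal.lift_id, Cardinal.lift_id]
          exact Cardinal.mk_le_aleph0_iff.2 inferInstance) (by
          rw [Cardinal.lift_id, Cardinal.lift_id]
          exact Cardinal.mk_le_aleph0_iff.2 hctb) (by
          rw [Cardinal.lift_id, Cardinal.lift_id]
          exact Cardinal.infinite_iff.1 hinf)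
  rw [Cardinal.lift_id, Cardinal.lift_id] at hScard
  have hmem : ∀ {n : ℕ} (f : RL.Functions n) (x : Fin n → A), (∀ i, x i ∈ S) →
      Structure.funMap f x ∈ S := fun f x hx => S.toSubstructure.fun_mem f x hx
  have hmul : ∀ a b : A, a ∈ S → b ∈ S → a * b ∈ S := by
    intro a b ha hb
    have := hmem mulSym ![a, b] (by intro i; fin_cases i <;> assumption)
    rw [funMap_mul] at this
    exact this
  have hadd : ∀ a b : A, a ∈ S → b ∈ S → a + b ∈ S := by
    intro a b ha hb
    have := hmem addSym ![a, b] (by intro i; fin_cases i <;> assumption)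
    rw [funMap_add] at this
    exact this
  have hzero : (0 : A) ∈ S := by
    have := hmem zeroSym ![] (by intro i; exact i.elim0)
    rw [funMap_zero] at this
    exact this
  have hneg : ∀ a : A, a ∈ S → -a ∈ S := by
    intro a ha
    have := hmem negSym ![a] (by intro i; fin_cases i; assumption)
    rw [funMap_neg] at this
    exact this
  obtain ⟨R, hRS⟩ : ∃ R : NonUnitalSubring A, ∀ a, a ∈ R ↔ a ∈ S :=
    ⟨{ carrier := {a | a ∈ S}
       mul_mem' := fun {a b} ha hb => hmul a b ha hb
       add_mem' := fun {a b} ha hb => hadd a b ha hb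
       zero_mem' := hzero
       neg_mem' := fun {a} ha => hneg a ha }, fun a => Iff.rfl⟩
  obtain ⟨hO, hSo⟩ := sub_olig S R hRS hinf hScard hcat
  refine ⟨R, inferInstance, ?_, ?_, hO, hSo⟩
  · intro x y
    constructor
    · apply Subtype.ext
      exact (halt x.1 y.1).1
    · apply Subtype.ext
      exact (halt x.1 y.1).2
  · intro x
    obtain ⟨n, hn⟩ := hnil x.1
    refine ⟨n, Subtype.ext ?_⟩
    have h1 : ∀ (m : ℕ) (z : R), (((fun y : R => y * x)^[m] z : R) : A) =
        (fun y : A => y * x.1)^[m] z.1 := by
      intro m
      induction m with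
      | zero => intro z; rfl
      | succ m ih =>
        intro z
        rw [Function.iterate_succ_apply, Function.iterate_succ_apply, ih]
        rfl
    exact (h1 n x).trans hn

end PartI

/-- Part I: reduction to a ring with an oligomorphic automorphism group. -/
theorem partI (A : Type) [NonUnitalNonAssocRing A]
      (S : (FirstOrder.Language.mk
              (fun n : ℕ => Fin (if n = 2 then 2 else if n ≤ 1 then 1 else 0))
              (fun _ : ℕ => Empty)).Structure A)
      (hS :
        S = { funMap := fun {n} i x =>
                if n = 2 ∧ Fin.val i = 1 then (List.ofFn x).headD 0 * (List.ofFn x).getLastD 0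
                else if n = 1 then -(∑ j, x j) else ∑ j, x j,
              RelMap := fun {n} r _ => Empty.elim r })
      (halt : IsAlt A) (hnil : IsNil A)
      (hcat : Cardinal.Categorical Cardinal.aleph0.{0}
        (FirstOrder.Language.completeTheory
          (FirstOrder.Language.mk
              (fun n : ℕ => Fin (if n = 2 then 2 else if n ≤ 1 then 1 else 0))
              (fun _ : ℕ => Empty)) A)) :
    ∃ (B : Type) (_ : NonUnitalNonAssocRing B), IsAlt B ∧ IsNil B ∧ Olig B ∧
      (Solv (⊤ : AddSubgroup B) → Solv (⊤ : AddSubgroup A)) := by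
  subst hS
  exact PartI.core halt hnil hcat

end Pool.Agent.K6.H1.Alt
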