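import Mathlib

set_option autoImplicit false

/-!
# Exchanging two symmetrised groups of slots
-/

namespace Pool.Agent.K6.H1.Alt

namespace Swap

open Function

variable {X M κ : Type*} [AddCommGroup M] [Fintype κ] [DecidableEq κ]

theorem extend_cons {k : ℕ} (f : Fin k → κ) (hf : Injective f) (i : κ) (hi : i ∉ Set.range f)
    (y : Fin (k + 1) → X) (x : κ → X) :
    extend (Fin.cons i f : Fin (k + 1) → κ) y x = update (extend f (Fin.tail y) x) i (y 0) := by
  have hc : Injective (Fin.cons i f : Fin (k + 1) → κ) := Fin.cons_injective_iff.2 ⟨hi, hf⟩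
  funext b
  by_cases hb : b = i
  · subst hb
    rw [update_self]
    have := hc.extend_apply y x 0
    simpa using this
  · rw [update_of_ne hb]
    by_cases hr : ∃ a, f a = b
    · obtain ⟨a, rfl⟩ := hr
      rw [hf.extend_apply]
      have := hc.extend_apply y x a.succ
      simpa [Fin.tail] using this
    · rw [extend_apply' _ _ _ hr, extend_apply']
      rintro ⟨a, ha⟩
      induction a using Fin.cases with
      | zero => exact hb (by simpa using ha.symm)
      | succ a => exact hr ⟨a, by simpa using ha⟩

theorem extend_update {k : ℕ} (f : Fin k → κ) (hf : Injective f) (s : Fin k) (w : X)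
    (y : Fin k → X) (x : κ → X) :
    update (extend f y x) (f s) w = extend f (update y s w) x := by
  funext b
  by_cases hb : b = f s
  · subst hb
    rw [update_self, hf.extend_apply, update_self]
  · rw [update_of_ne hb]
    by_cases hr : ∃ a, f a = b
    · obtain ⟨a, rfl⟩ := hr
      rw [hf.extend_apply, hf.extend_apply, update_of_ne]
      rintro rfl
      exact hb rfl
    · rw [extend_apply' _ _ _ hr, extend_apply' _ _ _ hr]

theorem sum_split {k : ℕ} (f : Fin k → κ) (hf : Injective f) (F : κ → M) :
    (∑ i, if i ∉ Set.range f then F i else 0) = ∑ i, F i - ∑ s, F (f s) := by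
  classical
  have h1 : ∑ s, F (f s) = ∑ i, if i ∈ Set.range f then F i else 0 := by
    rw [← Finset.sum_filter]
    rw [← Finset.sum_image (s := (Finset.univ : Finset (Fin k))) (g := f) (f := F)
      (fun a _ b _ h => hf h)]
    apply Finset.sum_congr _ (fun _ _ => rfl)
    ext i
    simp
  rw [h1, ← Finset.sum_sub_distrib]
  apply Finset.sum_congr rfl
  intro i _
  by_cases h : i ∈ Set.range f
  · simp [h]
  · simp [h]

theorem main (x : κ → X) : ∀ (k : ℕ) (G : (κ → X) → (Fin k → X) → M)
    (_ : ∀ (x : κ → X) (y : Fin k → X) (j : Fin k),
      G x y + ∑ i, G (update x i (y j)) (update y j (x i)) = 0) (y : Fin k → X),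
    (∑ f : Fin k → κ, if Injective f then G (extend f y x) (x ∘ f) else 0) =
      (-1 : ℤ) ^ k • ∑ ρ : Equiv.Perm (Fin k), G x (y ∘ ρ) := by
  classical
  intro k
  induction k with
  | zero =>
    intro G hE y
    have e1 : ∀ (f : Fin 0 → κ), (if Injective f then G (extend f y x) (x ∘ f) else 0) = G x y := by
      intro f
      rw [if_pos (injective_of_subsingleton f)]
      congr 1
      · funext b
        apply extend_apply'
        rintro ⟨a, _⟩
        exact a.elim0
      · exact Subsingleton.elim _ _
    have e2 : ∀ (ρ : Equiv.Perm (Fin 0)), G x (y ∘ ρ) = G x y := by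
      intro ρ
      congr 1
      exact Subsingleton.elim _ _
    simp [e1, e2]
  | succ k ih =>
    intro G hE y
    have key : ∀ f : Fin k → κ, Injective f →
        (∑ i, if i ∉ Set.range f then
          G (extend (Fin.cons i f : Fin (k + 1) → κ) y x)
            (x ∘ (Fin.cons i f : Fin (k + 1) → κ)) else 0) =
        - G (extend f (Fin.tail y) x) (Fin.cons (y 0) (x ∘ f)) -
          ∑ s, G (extend f (update (Fin.tail y) s (y 0)) x)
            (Fin.cons (Fin.tail y s) (x ∘ f)) := by
      intro f hf
      have h0 := hE (extend f (Fin.tail y) x) (Fin.cons (y 0) (x ∘ f)) 0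
      have h1 : (∑ i, if i ∉ Set.range f then
          G (extend (Fin.cons i f : Fin (k + 1) → κ) y x)
            (x ∘ (Fin.cons i f : Fin (k + 1) → κ)) else 0) =
          ∑ i, if i ∉ Set.range f then
            G (update (extend f (Fin.tail y) x) i ((Fin.cons (y 0) (x ∘ f) : Fin (k + 1) → X) 0))
              (update (Fin.cons (y 0) (x ∘ f) : Fin (k + 1) → X) 0 (extend f (Fin.tail y) x i))
            else 0 := by
        apply Finset.sum_congr rfl
        intro i _
        by_cases hi : i ∉ Set.range f
        · rw [if_pos hi, if_pos hi, extend_cons f hf i hi, Fin.cons_zero]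
          congr 1
          rw [Fin.update_cons_zero, extend_apply' _ _ _ (fun h => hi h)]
          funext a
          induction a using Fin.cases with
          | zero => simp
          | succ a => simp
        · rw [if_neg hi, if_neg hi]
      rw [h1, sum_split f hf]
      have h2 : ∀ s : Fin k,
          G (update (extend f (Fin.tail y) x) (f s)
              ((Fin.cons (y 0) (x ∘ f) : Fin (k + 1) → X) 0))
            (update (Fin.cons (y 0) (x ∘ f) : Fin (k + 1) → X) 0
              (extend f (Fin.tail y) x (f s))) =
          G (extend f (update (Fin.tail y) s (y 0)) x)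
            (Fin.cons (Fin.tail y s) (x ∘ f)) := by
        intro s
        rw [Fin.cons_zero, extend_update f hf, Fin.update_cons_zero, hf.extend_apply]
      simp only [h2]
      have h3 := eq_neg_of_add_eq_zero_right h0
      rw [h3]
    have hL : (∑ f : Fin (k + 1) → κ, if Injective f then G (extend f y x) (x ∘ f) else 0) =
        ∑ f : Fin k → κ, if Injective f then
          (∑ i, if i ∉ Set.range f then
          G (extend (Fin.cons i f : Fin (k + 1) → κ) y x)
            (x ∘ (Fin.cons i f : Fin (k + 1) → κ)) else 0) else 0 := by
      rw [← (Fin.consEquiv (fun _ : Fin (k + 1) => κ)).sum_comp, Fintype.sum_prod_type,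
        Finset.sum_comm]
      apply Finset.sum_congr rfl
      intro f _
      by_cases hf : Injective f
      · rw [if_pos hf]
        apply Finset.sum_congr rfl
        intro i _
        by_cases hi : i ∉ Set.range f
        · rw [if_pos hi, if_pos]
          · rfl
          · exact Fin.cons_injective_iff.2 ⟨hi, hf⟩
        · rw [if_neg hi, if_neg]
          intro h
          exact hi (Fin.cons_injective_iff.1 h).1
      · rw [if_neg hf]
        apply Finset.sum_eq_zero
        intro i _
        rw [if_neg]
        intro h
        exact hf (Fin.cons_injective_iff.1 h).2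
    rw [hL]
    have hL2 : (∑ f : Fin k → κ, if Injective f then
          (∑ i, if i ∉ Set.range f then
          G (extend (Fin.cons i f : Fin (k + 1) → κ) y x)
            (x ∘ (Fin.cons i f : Fin (k + 1) → κ)) else 0) else 0) =
        - (∑ f : Fin k → κ, if Injective f then
          G (extend f (Fin.tail y) x) (Fin.cons (y 0) (x ∘ f)) else 0) -
        ∑ s, ∑ f : Fin k → κ, if Injective f then
          G (extend f (update (Fin.tail y) s (y 0)) x)
            (Fin.cons (Fin.tail y s) (x ∘ f)) else 0 := by
      rw [Finset.sum_comm (s := (Finset.univ : Finset (Fin k))), ← Finset.sum_neg_distrib,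
        ← Finset.sum_sub_distrib]
      apply Finset.sum_congr rfl
      intro f _
      by_cases hf : Injective f
      · simp only [if_pos hf]
        exact key f hf
      · simp only [if_neg hf]
        simp
    rw [hL2]
    have ihw : ∀ (w : X) (y' : Fin k → X),
        (∑ f : Fin k → κ, if Injective f then
          G (extend f y' x) (Fin.cons w (x ∘ f)) else 0) =
        (-1 : ℤ) ^ k • ∑ ρ : Equiv.Perm (Fin k), G x (Fin.cons w (y' ∘ ρ)) := by
      intro w y'
      apply ih (fun a b => G a (Fin.cons w b))
      intro a b j
      have := hE a (Fin.cons w b) j.succ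
      rw [Fin.cons_succ] at this
      simpa only [Fin.cons_update] using this
    simp only [ihw]
    have hR : (∑ ρ : Equiv.Perm (Fin (k + 1)), G x (y ∘ ρ)) =
        (∑ ρ : Equiv.Perm (Fin k), G x (Fin.cons (y 0) (Fin.tail y ∘ ρ))) +
        ∑ s, ∑ ρ : Equiv.Perm (Fin k),
          G x (Fin.cons (Fin.tail y s) (update (Fin.tail y) s (y 0) ∘ ρ)) := by
      rw [← (Equiv.Perm.decomposeFin (n := k)).symm.sum_comp, Fintype.sum_prod_type,
        Fin.sum_univ_succ]
      congr 1
      · apply Finset.sum_congr rfl
        intro ρ _
        congr 1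
        funext a
        induction a using Fin.cases with
        | zero => simp
        | succ a => simp [Fin.tail]
      · apply Finset.sum_congr rfl
        intro s _
        apply Finset.sum_congr rfl
        intro ρ _
        congr 1
        funext a
        induction a using Fin.cases with
        | zero => simp [Fin.tail]
        | succ a =>
          simp only [comp_apply, Equiv.Perm.decomposeFin_symm_apply_succ, Fin.cons_succ]
          by_cases h : ρ a = s
          · rw [h, Equiv.swap_apply_right, update_self]
          · rw [Equiv.swap_apply_of_ne_of_ne (Fin.succ_ne_zero _)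
              (fun h' => h (Fin.succ_injective _ h')), update_of_ne h]
            rfl
    rw [hR, pow_succ]
    rw [← Finset.smul_sum]
    simp only [mul_neg, mul_one, neg_smul, smul_add]
    abel

end Swap

/-- Exchange of two groups of slots. -/
theorem group_swap {X M : Type*} [AddCommGroup M] (r : ℕ)
    (G : (Fin r → X) → (Fin r → X) → M)
    (hsym : ∀ (x y : Fin r → X) (π : Equiv.Perm (Fin r)), G (x ∘ π) y = G x y)
    (hE : ∀ (x y : Fin r → X) (j : Fin r),
      G x y + ∑ i, G (Function.update x i (y j)) (Function.update y j (x i)) = 0)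
    (x z : Fin r → X) :
    ∑ ρ : Equiv.Perm (Fin r), G z (x ∘ ρ) =
      (-1 : ℤ) ^ r • ∑ ρ : Equiv.Perm (Fin r), G x (z ∘ ρ) := by
  classical
  rw [← Swap.main x r G hE z, ← Finset.sum_filter]
  refine Finset.sum_bij' (fun ρ _ => (ρ : Fin r → Fin r))
    (fun f hf => Equiv.ofBijective f (Finite.injective_iff_bijective.1
      (Finset.mem_filter.1 hf).2)) ?_ ?_ ?_ ?_ ?_
  · intro ρ _
    simp [ρ.injective]
  · intro f _
    simp
  · intro ρ _
    ext
    simp
  · intro f hf
    rfl
  · intro ρ _
    have : Function.extend (ρ : Fin r → Fin r) z x = z ∘ ρ.symm := by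
      funext b
      obtain ⟨a, rfl⟩ := ρ.surjective b
      rw [ρ.injective.extend_apply]
      simp
    rw [this, hsym]

end Pool.Agent.K6.H1.Alt
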