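import Mathlib
import Pool.Agent.K6.H1.Alt.Defs
import Pool.Agent.K6.H1.Alt.Swap

set_option autoImplicit false

/-!
# Multilinear words in a nonassociative ring and symmetrised words
-/

namespace Pool.Agent.K6.H1.Alt.P2

open Pool.Agent.K6.H1.Alt Function

universe u
variable {A : Type u} [NonUnitalNonAssocRing A]

/-- `W S f`: `f` is the evaluation of a nonassociative product in which the slots of `S` occur
exactly once, every other factor being a constant. -/
inductive W {ι : Type} : Set ι → ((ι → A) → A) → Prop
  | slot (i : ι) : W {i} (fun v => v i)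
  | const (c : A) : W ∅ (fun _ => c)
  | mul {S T : Set ι} {f g : (ι → A) → A} (hd : Disjoint S T) (hf : W S f) (hg : W T g) :
      W (S ∪ T) (fun v => f v * g v)

theorem W.congr {ι : Type} {S : Set ι} {f : (ι → A) → A} (h : W S f) :
    ∀ v w : ι → A, (∀ i ∈ S, v i = w i) → f v = f w := by
  induction h with
  | slot i => intro v w h; exact h i rfl
  | const c => intro v w _; rfl
  | mul hd hf hg ihf ihg =>
    intro v w h
    show _ * _ = _ * _
    rw [ihf v w (fun i hi => h i (Or.inl hi)), ihg v w (fun i hi => h i (Or.inr hi))]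

theorem W.add {ι : Type} [DecidableEq ι] {S : Set ι} {f : (ι → A) → A} (h : W S f) :
    ∀ (v : ι → A) (i : ι) (_ : i ∈ S) (x y : A),
      f (update v i (x + y)) = f (update v i x) + f (update v i y) := by
  induction h with
  | slot j =>
    intro v i hi x y
    have : i = j := hi
    subst this
    simp
  | const c => intro v i hi; exact absurd hi (by simp)
  | @mul S T f g hd hf hg ihf ihg =>
    intro v i hi x y
    show _ * _ = _ * _ + _ * _
    rcases hi with hi | hi
    · have hi' : i ∉ T := fun h => Set.disjoint_left.mp hd hi h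
      have e : ∀ z, g (update v i z) = g v := fun z => hg.congr _ _ (fun k hk => by
        rw [update_of_ne]; rintro rfl; exact hi' hk)
      rw [ihf v i hi, e, e, e, add_mul]
    · have hi' : i ∉ S := fun h => Set.disjoint_left.mp hd h hi
      have e : ∀ z, f (update v i z) = f v := fun z => hf.congr _ _ (fun k hk => by
        rw [update_of_ne]; rintro rfl; exact hi' hk)
      rw [ihg v i hi, e, e, e, mul_add]

theorem W.wd1 {ι : Type} {S : Set ι} {f : (ι → A) → A} (h : W S f) :
    ∀ (v : ι → A) (i : ι) (_ : i ∈ S), Wd (v i) 1 (f v) := by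
  induction h with
  | slot j =>
    intro v i hi
    have : i = j := hi
    subst this
    exact Wd.base
  | const c => intro v i hi; exact absurd hi (by simp)
  | @mul S T f g hd hf hg ihf ihg =>
    intro v i hi
    rcases hi with hi | hi
    · exact Wd.mul (m := 1) (n := 0) (ihf v i hi) (Wd.const _)
    · exact Wd.mul (m := 0) (n := 1) (Wd.const _) (ihg v i hi)

theorem W.wd2 {ι : Type} {S : Set ι} {f : (ι → A) → A} (h : W S f) :
    ∀ (v : ι → A) (i j : ι) (_ : i ∈ S) (_ : j ∈ S) (_ : i ≠ j) (_ : v i = v j),
      Wd (v i) 2 (f v) := by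
  induction h with
  | slot k =>
    intro v i j hi hj hij
    exact absurd ((show i = k from hi).trans (show j = k from hj).symm) hij
  | const c => intro v i j hi; exact absurd hi (by simp)
  | @mul S T f g hd hf hg ihf ihg =>
    intro v i j hi hj hij hv
    rcases hi with hi | hi <;> rcases hj with hj | hj
    · exact Wd.mul (m := 2) (n := 0) (ihf v i j hi hj hij hv) (Wd.const _)
    · exact Wd.mul (m := 1) (n := 1) (hf.wd1 v i hi) (hv ▸ hg.wd1 v j hj)
    · exact Wd.mul (m := 1) (n := 1) (hv ▸ hf.wd1 v j hj) (hg.wd1 v i hi)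
    · exact Wd.mul (m := 0) (n := 2) (Wd.const _) (ihg v i j hi hj hij hv)

/-- A word with two equal strongly square zero arguments vanishes. -/
theorem W.van {ι : Type} {S : Set ι} {f : (ι → A) → A} (h : W S f) (v : ι → A) (i j : ι)
    (hi : i ∈ S) (hj : j ∈ S) (hij : i ≠ j) (hv : v i = v j) (hs : SqZ (v i)) : f v = 0 :=
  hs _ (h.wd2 v i j hi hj hij hv)

theorem W.subst {ι κ : Type} {S : Set ι} {f : (ι → A) → A} (h : W S f)
    (g : ι → Option κ) (c : ι → A) :
    (∀ i ∈ S, ∀ j ∈ S, ∀ k, g i = some k → g j = some k → i = j) →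
    W {k | ∃ i ∈ S, g i = some k} (fun u : κ → A => f (fun i => (g i).elim (c i) u)) := by
  induction h with
  | slot i =>
    intro _
    rcases hg : g i with _ | k
    · have e1 : {k | ∃ i' ∈ ({i} : Set ι), g i' = some k} = (∅ : Set κ) := by
        ext k; simp [hg]
      rw [e1]
      simp only [hg, Option.elim_none]
      exact W.const _
    · have e1 : {k | ∃ i' ∈ ({i} : Set ι), g i' = some k} = ({k} : Set κ) := by
        ext k'; simp [hg, eq_comm]
      rw [e1]
      simp only [hg, Option.elim_some]
      exact W.slot k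
  | const a =>
    intro _
    have e1 : {k | ∃ i' ∈ (∅ : Set ι), g i' = some k} = (∅ : Set κ) := by
      ext k; simp
    rw [e1]
    exact W.const a
  | @mul S T f f' hd hf hg ihf ihg =>
    intro hinj
    have e1 : {k | ∃ i' ∈ S ∪ T, g i' = some k} =
        {k | ∃ i' ∈ S, g i' = some k} ∪ {k | ∃ i' ∈ T, g i' = some k} := by
      ext k
      simp only [Set.mem_ofPred_eq, Set.mem_union]
      constructor
      · rintro ⟨i, hi | hi, h⟩
        · exact Or.inl ⟨i, hi, h⟩
        · exact Or.inr ⟨i, hi, h⟩
      · rintro (⟨i, hi, h⟩ | ⟨i, hi, h⟩)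
        · exact ⟨i, Or.inl hi, h⟩
        · exact ⟨i, Or.inr hi, h⟩
    rw [e1]
    refine W.mul ?_ (ihf ?_) (ihg ?_)
    · rw [Set.disjoint_left]
      rintro k ⟨i, hi, h1⟩ ⟨j, hj, h2⟩
      have := hinj i (Or.inl hi) j (Or.inr hj) k h1 h2
      subst this
      exact Set.disjoint_left.mp hd hi hj
    · intro i hi j hj k
      exact hinj i (Or.inl hi) j (Or.inl hj) k
    · intro i hi j hj k
      exact hinj i (Or.inr hi) j (Or.inr hj) k

theorem W.aut {ι : Type} {S : Set ι} {f : (ι → A) → A} (h : W S f) (σ : A ≃+* A) :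
    ∃ f' : (ι → A) → A, W S f' ∧ ∀ v, σ (f v) = f' (fun i => σ (v i)) := by
  induction h with
  | slot i => exact ⟨_, W.slot i, fun v => rfl⟩
  | const c => exact ⟨_, W.const (σ c), fun v => rfl⟩
  | mul hd hf hg ihf ihg =>
    obtain ⟨f', hf', h1⟩ := ihf
    obtain ⟨g', hg', h2⟩ := ihg
    exact ⟨_, W.mul hd hf' hg', fun v => by rw [map_mul, h1, h2]⟩

/-- The multilinear map given by a word. -/
def toML {ι : Type} {f : (ι → A) → A} (h : W Set.univ f) : MultilinearMap ℤ (fun _ : ι => A) A where
  toFun := f
  map_update_add' := by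
    intro _ v i x y
    exact W.add (by convert h) v i (Set.mem_univ _) x y
  map_update_smul' := by
    intro _ v i c x
    let F : A →+ A :=
      { toFun := fun z => f (update v i z)
        map_zero' := by
          have := W.add (by convert h) v i (Set.mem_univ _) 0 0
          simpa using this
        map_add' := fun x y => W.add (by convert h) v i (Set.mem_univ _) x y }
    exact map_zsmul F c x

@[simp] theorem toML_apply {ι : Type} {f : (ι → A) → A} (h : W Set.univ f) (v : ι → A) :
    toML h v = f v := rfl

/-! ### Strongly square zero elements -/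

theorem sqZ_zero : SqZ (0 : A) := by
  have key : ∀ (m : ℕ) (w : A), Wd (0 : A) m w → 0 < m → w = 0 := by
    intro m w h
    induction h with
    | base => intro _; rfl
    | const c => intro h; exact absurd h (lt_irrefl _)
    | @mul m n x y hx hy ihx ihy =>
      intro hmn
      rcases Nat.eq_zero_or_pos m with hm | hm
      · have hn : 0 < n := by omega
        rw [ihy hn, mul_zero]
      · rw [ihx hm, zero_mul]
  intro w hw
  exact key 2 w hw (by norm_num)

theorem sqZ_neg {a : A} (ha : SqZ a) : SqZ (-a) := by
  have key : ∀ (m : ℕ) (w : A), Wd (-a) m w → Wd a m w ∨ Wd a m (-w) := by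
    intro m w h
    induction h with
    | base => right; rw [neg_neg]; exact Wd.base
    | const c => left; exact Wd.const c
    | @mul m n x y hx hy ihx ihy =>
      rcases ihx with hx | hx <;> rcases ihy with hy | hy
      · exact Or.inl (Wd.mul hx hy)
      · right; have := Wd.mul hx hy; rwa [mul_neg] at this
      · right; have := Wd.mul hx hy; rwa [neg_mul] at this
      · left; have := Wd.mul hx hy; rwa [neg_mul_neg] at this
  intro w hw
  rcases key 2 w hw with h | h
  · exact ha _ h
  · exact neg_eq_zero.mp (ha _ h)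

theorem wd_aut {a : A} (σ : A ≃+* A) {m : ℕ} {w : A} (h : Wd a m w) : Wd (σ a) m (σ w) := by
  induction h with
  | base => exact Wd.base
  | const c => exact Wd.const _
  | mul hx hy ihx ihy => rw [map_mul]; exact Wd.mul ihx ihy

theorem sqZ_aut {a : A} (ha : SqZ a) (σ : A ≃+* A) : SqZ (σ a) := by
  intro w hw
  have h1 := wd_aut σ.symm hw
  rw [RingEquiv.symm_apply_apply] at h1
  have h2 := ha _ h1
  simpa using h2

theorem sqZ_aut_iff {a : A} (σ : A ≃+* A) : SqZ (σ a) ↔ SqZ a := by
  constructor
  · intro h
    have := sqZ_aut h σ.symm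
    rwa [RingEquiv.symm_apply_apply] at this
  · intro h; exact sqZ_aut h σ

end Pool.Agent.K6.H1.Alt.P2
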