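import Mathlib
import Pool.Agent.K6.H1.Alt.Defs
import Pool.Agent.K6.H1.Alt.Swap
import Pool.Agent.K6.H1.Alt.Words
import Pool.Agent.K6.H1.Alt.Assembly

set_option autoImplicit false

/-!
# Strongly square zero elements vanish modulo the solvable radical
-/

namespace Pool.Agent.K6.H1.Alt.P2

open Pool.Agent.K6.H1.Alt Function

universe u
variable {A : Type u} [NonUnitalNonAssocRing A]

/-- The symmetrised sum of every word in `n` slots vanishes on strongly square zero elements. -/
def SymP (A : Type u) [NonUnitalNonAssocRing A] (n : ℕ) : Prop :=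
  ∀ f : (Fin n → A) → A, W Set.univ f → ∀ v : Fin n → A, (∀ i, SqZ (v i)) →
    ∑ σ : Equiv.Perm (Fin n), f (v ∘ σ) = 0

theorem pad {x : A} {n m : ℕ} (hnm : n ≤ m)
    (h : ∃ e : ℕ → A, (∀ j, SqZ (e j)) ∧ x = ∑ j ∈ Finset.range n, e j) :
    ∃ e : ℕ → A, (∀ j, SqZ (e j)) ∧ x = ∑ j ∈ Finset.range m, e j := by
  obtain ⟨e, he, hx⟩ := h
  refine ⟨fun j => if j < n then e j else 0, ?_, ?_⟩
  · intro j
    by_cases hj : j < n
    · simp only [hj, if_true]; exact he j
    · simp only [hj, if_false]; exact sqZ_zero
  · rw [hx]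
    rw [← Finset.sum_subset (Finset.range_subset_range.mpr hnm)]
    · refine Finset.sum_congr rfl (fun j hj => ?_)
      rw [if_pos (Finset.mem_range.mp hj)]
    · intro j _ hj
      rw [if_neg (by simpa using hj)]

theorem exists_sum {x : A} (hx : x ∈ AddSubgroup.closure {a : A | SqZ a}) :
    ∃ n : ℕ, ∃ e : ℕ → A, (∀ j, SqZ (e j)) ∧ x = ∑ j ∈ Finset.range n, e j := by
  induction hx using AddSubgroup.closure_induction with
  | mem a ha => exact ⟨1, fun _ => a, fun _ => ha, by simp⟩
  | zero => exact ⟨0, fun _ => 0, fun _ => sqZ_zero, by simp⟩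
  | add a b _ _ iha ihb =>
    obtain ⟨n, e, he, h1⟩ := iha
    obtain ⟨m, e', he', h2⟩ := ihb
    refine ⟨n + m, fun j => if j < n then e j else e' (j - n), ?_, ?_⟩
    · intro j
      by_cases hj : j < n
      · simp only [hj, if_true]; exact he j
      · simp only [hj, if_false]; exact he' _
    · rw [h1, h2, Finset.sum_range_add]
      congr 1
      · refine Finset.sum_congr rfl (fun j hj => ?_)
        rw [if_pos (Finset.mem_range.mp hj)]
      · refine Finset.sum_congr rfl (fun j hj => ?_)
        rw [if_neg (by omega), Nat.add_sub_cancel_left]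
  | neg a _ iha =>
    obtain ⟨n, e, he, h1⟩ := iha
    exact ⟨n, fun j => -(e j), fun j => sqZ_neg (he j), by rw [h1, Finset.sum_neg_distrib]⟩

theorem exists_bound (hO : Olig A) : ∃ k : ℕ, ∀ x ∈ AddSubgroup.closure {a : A | SqZ a},
    ∃ e : ℕ → A, (∀ j, SqZ (e j)) ∧ x = ∑ j ∈ Finset.range k, e j := by
  classical
  obtain ⟨k, hk⟩ := boundedInv A hO
    (fun x => sInf {n : ℕ | ∃ e : ℕ → A, (∀ j, SqZ (e j)) ∧ x = ∑ j ∈ Finset.range n, e j}) (by
      intro σ x
      congr 1
      ext n
      constructor
      · rintro ⟨e, he, h⟩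
        refine ⟨fun j => σ.symm (e j), fun j => sqZ_aut (he j) σ.symm, ?_⟩
        rw [← map_sum, ← h, RingEquiv.symm_apply_apply]
      · rintro ⟨e, he, h⟩
        refine ⟨fun j => σ (e j), fun j => sqZ_aut (he j) σ, ?_⟩
        rw [← map_sum, ← h])
  refine ⟨k, fun x hx => ?_⟩
  have hne : {n : ℕ | ∃ e : ℕ → A, (∀ j, SqZ (e j)) ∧ x = ∑ j ∈ Finset.range n, e j}.Nonempty :=
    exists_sum hx
  exact pad (hk x) (Nat.sInf_mem hne)

theorem symP_succ {k : ℕ} (hk : ∀ x ∈ AddSubgroup.closure {a : A | SqZ a},
    ∃ e : ℕ → A, (∀ j, SqZ (e j)) ∧ x = ∑ j ∈ Finset.range k, e j) : SymP A (k + 1) := by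
  classical
  intro f hf v hv
  have hx : (∑ i, v i) ∈ AddSubgroup.closure {a : A | SqZ a} :=
    AddSubgroup.sum_mem _ (fun i _ => AddSubgroup.subset_closure (hv i))
  obtain ⟨e, he, hxe⟩ := hk _ hx
  rw [Finset.sum_range] at hxe
  have h1 : toML hf (fun _ => ∑ i, v i) = 0 := by
    rw [hxe]
    rw [(toML hf).map_sum (g := fun _ (j : Fin k) => e j)]
    refine Finset.sum_eq_zero (fun r _ => ?_)
    obtain ⟨i, j, hij, hr⟩ := Fintype.exists_ne_map_eq_of_card_lt r (by simp)
    exact hf.van _ i j (Set.mem_univ _) (Set.mem_univ _) hij (by simp only [hr]) (he _)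
  rw [(toML hf).map_sum (g := fun _ (j : Fin (k + 1)) => v j)] at h1
  rw [← h1]
  refine Finset.sum_of_injOn (fun (σ : Equiv.Perm (Fin (k + 1))) => (σ : Fin (k+1) → Fin (k+1)))
    ?_ ?_ ?_ ?_
  · intro σ _ τ _ h
    exact DFunLike.coe_injective h
  · intro σ _; simp
  · intro r _ hr
    have hni : ¬ Injective r := by
      intro hinj
      apply hr
      refine ⟨Equiv.ofBijective r (Finite.injective_iff_bijective.mp hinj), by simp, rfl⟩
    simp only [Injective, not_forall] at hni
    obtain ⟨i, j, h, hij⟩ := hni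
    exact hf.van _ i j (Set.mem_univ _) (Set.mem_univ _) hij (by simp only [h]) (hv _)
  · intro σ _; rfl

/-! ### Exchange of two groups -/

/-- Strongly square zero elements as a type. -/
abbrev E (A : Type u) [NonUnitalNonAssocRing A] : Type u := {a : A // SqZ a}

theorem group_swap_word {r : ℕ} (hS : SymP A (r + 1)) (F : (Fin r ⊕ Fin r → A) → A)
    (hF : W Set.univ F) (x z : Fin r → E A) :
    ∑ ρ : Equiv.Perm (Fin r), ∑ π : Equiv.Perm (Fin r),
      F (Sum.elim (fun t => (z (π t) : A)) (fun t => (x (ρ t) : A))) =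
    (-1 : ℤ) ^ r • ∑ ρ : Equiv.Perm (Fin r), ∑ π : Equiv.Perm (Fin r),
      F (Sum.elim (fun t => (x (π t) : A)) (fun t => (z (ρ t) : A))) := by
  classical
  refine group_swap r (fun (x y : Fin r → E A) => ∑ π : Equiv.Perm (Fin r),
      F (Sum.elim (fun t => (x (π t) : A)) (fun t => (y t : A)))) ?_ ?_ x z
  · intro x y π
    refine Fintype.sum_equiv (Equiv.mulLeft π) _ _ (fun σ => ?_)
    rfl
  · intro x y j
    -- the word in `r + 1` slots
    let g : Fin r ⊕ Fin r → Option (Fin (r + 1)) :=
      Sum.elim (fun t => some t.succ) (fun t => if t = j then some 0 else none)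
    let c : Fin r ⊕ Fin r → A := Sum.elim (fun t => 0) (fun t => (y t : A))
    have hW : W Set.univ (fun u : Fin (r + 1) → A => F (fun i => (g i).elim (c i) u)) := by
      have h1 := hF.subst g c (by
        intro i _ i' _ k h1 h2
        rcases i with i | i <;> rcases i' with i' | i'
        · simp only [g, Sum.elim_inl, Option.some.injEq] at h1 h2
          rw [← h2] at h1
          rw [Fin.succ_inj.mp h1]
        · simp only [g, Sum.elim_inl, Sum.elim_inr, Option.some.injEq] at h1 h2
          split_ifs at h2 with h3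
          · rw [Option.some.injEq] at h2
            rw [← h2] at h1
            exact absurd h1 (Fin.succ_ne_zero _)
        · simp only [g, Sum.elim_inl, Sum.elim_inr, Option.some.injEq] at h1 h2
          split_ifs at h1 with h3
          · rw [Option.some.injEq] at h1
            rw [← h1] at h2
            exact absurd h2 (Fin.succ_ne_zero _)
        · simp only [g, Sum.elim_inr] at h1 h2
          split_ifs at h1 h2 with h3 h4
          · rw [h3, h4])
      have e1 : {k | ∃ i ∈ (Set.univ : Set (Fin r ⊕ Fin r)), g i = some k} = Set.univ := by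
        ext k
        simp only [Set.mem_univ, true_and, iff_true]
        show ∃ i, g i = some k
        refine Fin.cases ⟨Sum.inr j, by simp [g]⟩ (fun t => ⟨Sum.inl t, by simp [g]⟩) k
      rwa [e1] at h1
    have key := hS _ hW (fun i => (Fin.cons (y j) x : Fin (r + 1) → E A) i) (fun i => Subtype.property _)
    rw [← (Equiv.Perm.decomposeFin (n := r)).symm.sum_comp, Fintype.sum_prod_type,
      Fin.sum_univ_succ] at key
    rw [← key]
    congr 1
    · refine Finset.sum_congr rfl (fun π _ => ?_)
      congr 1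
      funext i
      rcases i with i | i
      · simp [g, Equiv.Perm.decomposeFin_symm_apply_succ]
      · simp only [g, Sum.elim_inr]
        split_ifs with h
        · subst h; simp
        · simp [c]
    · refine Finset.sum_congr rfl (fun i _ => ?_)
      refine Finset.sum_congr rfl (fun π _ => ?_)
      congr 1
      funext t
      rcases t with t | t
      · simp only [g, Sum.elim_inl, Option.elim_some, comp_apply,
          Equiv.Perm.decomposeFin_symm_apply_succ]
        by_cases h : π t = i
        · rw [h, update_self, Equiv.swap_apply_right, Fin.cons_zero]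
        · rw [update_of_ne h, Equiv.swap_apply_of_ne_of_ne (Fin.succ_ne_zero _)
            (fun h' => h (Fin.succ_injective _ h')), Fin.cons_succ]
      · simp only [g, Sum.elim_inr]
        by_cases h : t = j
        · subst h; simp
        · rw [if_neg h, update_of_ne h]; simp [c]

/-! ### Symmetrised words in one group -/

/-- The additive span of the symmetrised words in one group of `r` slots. -/
def D1 (A : Type u) [NonUnitalNonAssocRing A] (r : ℕ) : AddSubgroup ((Fin r → A) → A) :=
  AddSubgroup.closure {D | ∃ f : (Fin r → A) → A, W Set.univ f ∧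
    D = fun x => ∑ π : Equiv.Perm (Fin r), f (fun t => x (π t))}

theorem D1_mul_const {r : ℕ} {d : (Fin r → A) → A} (hd : d ∈ D1 A r) (c : A) :
    (fun x => d x * c) ∈ D1 A r := by
  unfold D1 at hd
  induction hd using AddSubgroup.closure_induction with
  | mem d h =>
    obtain ⟨f, hf, rfl⟩ := h
    refine AddSubgroup.subset_closure ⟨fun v => f v * c, ?_, ?_⟩
    · have := W.mul (Set.disjoint_empty _) hf (W.const c)
      rwa [Set.union_empty] at this
    · funext x
      rw [Finset.sum_mul]
  | zero =>
    have e : (fun x : Fin r → A => (0 : (Fin r → A) → A) x * c) = 0 := by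
      funext x; simp
    rw [e]; exact AddSubgroup.zero_mem _
  | add a b _ _ iha ihb =>
    have e : (fun x : Fin r → A => (a + b) x * c) = (fun x => a x * c) + (fun x => b x * c) := by
      funext x; simp [add_mul]
    rw [e]; exact AddSubgroup.add_mem _ iha ihb
  | neg a _ iha =>
    have e : (fun x : Fin r → A => (-a) x * c) = -(fun x => a x * c) := by
      funext x; simp
    rw [e]; exact AddSubgroup.neg_mem _ iha

theorem D1_const_mul {r : ℕ} {d : (Fin r → A) → A} (hd : d ∈ D1 A r) (c : A) :
    (fun x => c * d x) ∈ D1 A r := by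
  unfold D1 at hd
  induction hd using AddSubgroup.closure_induction with
  | mem d h =>
    obtain ⟨f, hf, rfl⟩ := h
    refine AddSubgroup.subset_closure ⟨fun v => c * f v, ?_, ?_⟩
    · have := W.mul (Set.empty_disjoint _) (W.const c) hf
      rwa [Set.empty_union] at this
    · funext x
      rw [Finset.mul_sum]
  | zero =>
    have e : (fun x : Fin r → A => c * (0 : (Fin r → A) → A) x) = 0 := by
      funext x; simp
    rw [e]; exact AddSubgroup.zero_mem _
  | add a b _ _ iha ihb =>
    have e : (fun x : Fin r → A => c * (a + b) x) = (fun x => c * a x) + (fun x => c * b x) := by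
      funext x; simp [mul_add]
    rw [e]; exact AddSubgroup.add_mem _ iha ihb
  | neg a _ iha =>
    have e : (fun x : Fin r → A => c * (-a) x) = -(fun x => c * a x) := by
      funext x; simp
    rw [e]; exact AddSubgroup.neg_mem _ iha

/-- The word in two groups which is the product of two words. -/
theorem prodWord {r : ℕ} {f g : (Fin r → A) → A} (hf : W Set.univ f) (hg : W Set.univ g) :
    W Set.univ (fun u : Fin r ⊕ Fin r → A => f (fun t => u (Sum.inl t)) * g (fun t => u (Sum.inr t))) := by
  have h1 := hf.subst (fun t => some (Sum.inl t : Fin r ⊕ Fin r)) (fun _ => 0) (by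
    intro i _ j _ k h1 h2
    rw [← h2] at h1
    exact Sum.inl_injective (Option.some_injective _ h1))
  have h2 := hg.subst (fun t => some (Sum.inr t : Fin r ⊕ Fin r)) (fun _ => 0) (by
    intro i _ j _ k h1 h2
    rw [← h2] at h1
    exact Sum.inr_injective (Option.some_injective _ h1))
  have h3 := W.mul (by
    rw [Set.disjoint_left]
    rintro k ⟨i, _, hi⟩ ⟨j, _, hj⟩
    rw [← hi] at hj
    exact Sum.inl_ne_inr (Option.some_injective _ hj).symm) h1 h2
  have e1 : ({k | ∃ i ∈ (Set.univ : Set (Fin r)), some (Sum.inl i : Fin r ⊕ Fin r) = some k} ∪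
      {k | ∃ i ∈ (Set.univ : Set (Fin r)), some (Sum.inr i : Fin r ⊕ Fin r) = some k}) =
      Set.univ := by
    ext k
    rcases k with k | k <;> simp
  rw [e1] at h3
  exact h3

/-- Exchange of the groups of two factors. -/
theorem swapD {r : ℕ} (hS : SymP A (r + 1)) {d d' : (Fin r → A) → A} (hd : d ∈ D1 A r)
    (hd' : d' ∈ D1 A r) (x y : Fin r → A) (hx : ∀ t, SqZ (x t)) (hy : ∀ t, SqZ (y t)) :
    d x * d' y = (-1 : ℤ) ^ r • (d y * d' x) := by
  unfold D1 at hd hd'
  induction hd using AddSubgroup.closure_induction with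
  | mem d h =>
    obtain ⟨f, hf, rfl⟩ := h
    induction hd' using AddSubgroup.closure_induction with
    | mem d' h =>
      obtain ⟨g, hg, rfl⟩ := h
      have key := group_swap_word hS _ (prodWord hf hg) (fun t => (⟨y t, hy t⟩ : E A))
        (fun t => (⟨x t, hx t⟩ : E A))
      simp only [Sum.elim_inl, Sum.elim_inr] at key
      rw [Finset.sum_mul_sum, Finset.sum_mul_sum]
      rw [Finset.sum_comm, key, Finset.sum_comm]
    | zero => simp
    | add a b _ _ iha ihb =>
      simp only [Pi.add_apply, mul_add, smul_add] at iha ihb ⊢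
      rw [iha, ihb]
    | neg a _ iha =>
      simp only [Pi.neg_apply, mul_neg, smul_neg] at iha ⊢
      rw [iha]
  | zero => simp
  | add a b _ _ iha ihb =>
    simp only [Pi.add_apply, add_mul, smul_add] at iha ihb ⊢
    rw [iha, ihb]
  | neg a _ iha =>
    simp only [Pi.neg_apply, neg_mul, smul_neg] at iha ⊢
    rw [iha]

/-- The same group in two factors. -/
theorem vanD {r : ℕ} (hr : 0 < r) {d d' : (Fin r → A) → A} (hd : d ∈ D1 A r)
    (hd' : d' ∈ D1 A r) (x : Fin r → A) (hx : ∀ t, SqZ (x t)) :
    d x * d' x = 0 := by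
  unfold D1 at hd hd'
  induction hd using AddSubgroup.closure_induction with
  | mem d h =>
    obtain ⟨f, hf, rfl⟩ := h
    induction hd' using AddSubgroup.closure_induction with
    | mem d' h =>
      obtain ⟨g, hg, rfl⟩ := h
      rw [Finset.sum_mul_sum]
      refine Finset.sum_eq_zero (fun π _ => Finset.sum_eq_zero (fun ρ _ => ?_))
      exact (prodWord hf hg).van (Sum.elim (fun t => x (π t)) (fun t => x (ρ t)))
        (Sum.inl (π.symm ⟨0, hr⟩)) (Sum.inr (ρ.symm ⟨0, hr⟩)) (Set.mem_univ _) (Set.mem_univ _)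
        Sum.inl_ne_inr (by simp) (by simpa using hx _)
    | zero => simp
    | add a b _ _ iha ihb =>
      simp only [Pi.add_apply, mul_add] at iha ihb ⊢
      rw [iha, ihb, add_zero]
    | neg a _ iha =>
      simp only [Pi.neg_apply, mul_neg] at iha ⊢
      rw [iha, neg_zero]
  | zero => simp
  | add a b _ _ iha ihb =>
    simp only [Pi.add_apply, add_mul] at iha ihb ⊢
    rw [iha, ihb, add_zero]
  | neg a _ iha =>
    simp only [Pi.neg_apply, neg_mul] at iha ⊢
    rw [iha, neg_zero]

/-- Group words: functions of `m` groups which are symmetrised words in each group. -/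
def GW {r m : ℕ} (F : (Fin m → Fin r → A) → A) : Prop :=
  ∀ (i : Fin m) (Z : Fin m → Fin r → A), (fun x => F (update Z i x)) ∈ D1 A r

/-! ### The chain argument -/

theorem chain (hO : Olig A) : ∃ M₀ : ℕ, ∀ (r M : ℕ) (_ : 0 < r) (_ : SymP A (r + 1)) (_ : M₀ ≤ M)
    (u v : (Fin r → A) → A) (_ : u ∈ D1 A r) (_ : v ∈ D1 A r)
    (s p : (Fin M → Fin r → A) → A) (_ : GW s) (_ : GW p)
    (X Y : Fin (M + 1) → Fin r → A) (_ : ∀ i t, SqZ (X i t)) (_ : ∀ i t, SqZ (Y i t)),
    ((u (X 0) * v (Y 0)) * s (fun q => Y q.succ)) * p (fun q => X q.succ) = 0 := by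
  classical
  obtain ⟨N, col, hcol⟩ := hO 3
  refine ⟨N, ?_⟩
  intro r M hr hS hM u v hu hv s p hs hp X Y hX hY
  by_contra hne
  -- the elements
  set a : A := ∑ l : Fin (M + 1), u (X l) * v (Y l) with ha
  set b : A := ∑ l : Fin M, u (X l.castSucc) * v (Y l.succ) with hb
  let si : Fin (M + 1) → A := fun i => s (fun q => Y (i.succAbove q))
  let pi' : Fin (M + 1) → A := fun i => p (fun q => X (i.succAbove q))
  -- general facts about one group inside `s` or `p`
  have vanS : ∀ (w : (Fin r → A) → A) (_ : w ∈ D1 A r) (s : (Fin M → Fin r → A) → A) (_ : GW s)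
      (Y : Fin (M + 1) → Fin r → A) (_ : ∀ i t, SqZ (Y i t)) (i l : Fin (M + 1)) (_ : l ≠ i),
      w (Y l) * s (fun q => Y (i.succAbove q)) = 0 := by
    intro w hw s hs Y hY i l hli
    obtain ⟨q, hq⟩ := Fin.exists_succAbove_eq hli
    have h1 := vanD hr hw (hs q (fun q => Y (i.succAbove q))) (Y l) (hY l)
    rw [← hq] at h1 ⊢
    simpa using h1
  have swapS : ∀ (w : (Fin r → A) → A) (_ : w ∈ D1 A r) (s : (Fin M → Fin r → A) → A) (_ : GW s)
      (Y : Fin (M + 1) → Fin r → A) (_ : ∀ i t, SqZ (Y i t)) (i : Fin M),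
      w (Y i.castSucc) * s (fun q => Y (i.castSucc.succAbove q)) =
        (-1 : ℤ) ^ r • (w (Y i.succ) * s (fun q => Y (i.succ.succAbove q))) := by
    intro w hw s hs Y hY i
    have h1 := swapD hS hw (hs i (fun q => Y (i.castSucc.succAbove q))) (Y i.castSucc) (Y i.succ)
      (hY _) (hY _)
    have e1 : update (fun q => Y (i.castSucc.succAbove q)) i (Y i.succ) =
        (fun q => Y (i.castSucc.succAbove q)) := by
      funext q
      by_cases h : q = i
      · subst h; simp
      · rw [update_of_ne h]
    have e2 : update (fun q => Y (i.castSucc.succAbove q)) i (Y i.castSucc) =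
        (fun q => Y (i.succ.succAbove q)) := by
      funext q
      by_cases h : q = i
      · subst h; simp
      · rw [update_of_ne h]
        congr 1
        rcases lt_or_gt_of_ne h with h | h
        · rw [Fin.succAbove_of_castSucc_lt _ _ (by simpa using h),
            Fin.succAbove_of_castSucc_lt _ _ (by
              exact lt_trans (by simpa using h) (Fin.castSucc_lt_succ))]
        · rw [Fin.succAbove_of_le_castSucc _ _ (by simpa using h.le),
            Fin.succAbove_of_le_castSucc _ _ (by
              rw [Fin.le_def]; simp only [Fin.val_succ, Fin.val_castSucc]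
              exact Nat.succ_le_of_lt h)]
    simp only [e1, e2] at h1
    exact h1
  -- (i)
  have hi : ∀ i : Fin (M + 1), a * si i = (u (X i) * v (Y i)) * si i := by
    intro i
    rw [ha, Finset.sum_mul]
    refine Finset.sum_eq_single i (fun l _ hl => ?_) (by simp)
    exact vanS _ (D1_const_mul hv (u (X l))) s hs Y hY i l hl
  have hii : b * si 0 = 0 := by
    rw [hb, Finset.sum_mul]
    refine Finset.sum_eq_zero (fun l _ => ?_)
    exact vanS _ (D1_const_mul hv (u (X l.castSucc))) s hs Y hY 0 l.succ (Fin.succ_ne_zero _)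
  have hiii : ∀ i : Fin M, b * si i.succ = (u (X i.castSucc) * v (Y i.succ)) * si i.succ := by
    intro i
    rw [hb, Finset.sum_mul]
    refine Finset.sum_eq_single i (fun l _ hl => ?_) (by simp)
    exact vanS _ (D1_const_mul hv (u (X l.castSucc))) s hs Y hY i.succ l.succ
      (fun h => hl (Fin.succ_injective _ h))
  have hiv : ∀ (i : Fin (M + 1)) (t : A), (a * t) * pi' i = ((u (X i) * v (Y i)) * t) * pi' i := by
    intro i t
    rw [ha, Finset.sum_mul, Finset.sum_mul]
    refine Finset.sum_eq_single i (fun l _ hl => ?_) (by simp)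
    exact vanS _ (D1_mul_const (D1_mul_const hu (v (Y l))) t) p hp X hX i l hl
  have hv' : ∀ (i : Fin M) (t : A),
      (b * t) * pi' i.castSucc = ((u (X i.castSucc) * v (Y i.succ)) * t) * pi' i.castSucc := by
    intro i t
    rw [hb, Finset.sum_mul, Finset.sum_mul]
    refine Finset.sum_eq_single i (fun l _ hl => ?_) (by simp)
    exact vanS _ (D1_mul_const (D1_mul_const hu (v (Y l.succ))) t) p hp X hX i.castSucc l.castSucc
      (fun h => hl (Fin.castSucc_injective _ h))
  have hvi : ∀ i : Fin M, a * si i.castSucc = (-1 : ℤ) ^ r • (b * si i.succ) := by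
    intro i
    rw [hi, hiii]
    exact swapS _ (D1_const_mul hv (u (X i.castSucc))) s hs Y hY i
  have hvii : ∀ (i : Fin M) (t : A), (a * t) * pi' i.succ =
      (-1 : ℤ) ^ r • ((b * t) * pi' i.castSucc) := by
    intro i t
    rw [hiv, hv']
    have h1 := swapS _ (D1_mul_const (D1_mul_const hu (v (Y i.succ))) t) p hp X hX i
    rw [h1, smul_smul, ← pow_add, ← two_mul, pow_mul]
    simp only [even_two, Even.neg_pow, one_pow, one_smul]
    rfl
  -- the constant value
  have hc : ∀ i : Fin (M + 1), (a * si i) * pi' i =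
      ((u (X 0) * v (Y 0)) * s (fun q => Y q.succ)) * p (fun q => X q.succ) := by
    intro i
    induction i using Fin.induction with
    | zero =>
      rw [hi 0]
      simp only [si, pi', Fin.succAbove_zero]
    | succ i ih =>
      rw [hvii i, ← ih, hvi i, smul_mul_assoc]
  have hcne : ∀ i : Fin (M + 1), (a * si i) * pi' i ≠ 0 := by
    intro i; rw [hc i]; exact hne
  -- the chain
  let L : ℕ → Set A := fun k => Nat.rec {t | (-1 : ℤ) ^ r • (b * t) = 0}
    (fun _ S => {t | ∃ t' ∈ S, (-1 : ℤ) ^ r • (b * t) = a * t'}) k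
  have L0 : ∀ t, t ∈ L 0 ↔ (-1 : ℤ) ^ r • (b * t) = 0 := fun t => Iff.rfl
  have Ls : ∀ k t, t ∈ L (k + 1) ↔ ∃ t' ∈ L k, (-1 : ℤ) ^ r • (b * t) = a * t' :=
    fun k t => Iff.rfl
  have Lmono1 : ∀ k, L k ⊆ L (k + 1) := by
    intro k
    induction k with
    | zero =>
      intro t ht
      refine (Ls 0 t).mpr ⟨0, (L0 0).mpr (by simp), ?_⟩
      rw [(L0 t).mp ht, mul_zero]
    | succ k ih =>
      intro t ht
      obtain ⟨t', ht', h⟩ := (Ls k t).mp ht
      exact (Ls (k + 1) t).mpr ⟨t', ih ht', h⟩
  have Lmono : ∀ i j, i ≤ j → L i ⊆ L j := by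
    intro i j hij
    induction j, hij using Nat.le_induction with
    | base => exact le_refl _
    | succ j _ ih => exact ih.trans (Lmono1 j)
  have Lmem : ∀ i : Fin (M + 1), si i ∈ L i := by
    intro i
    induction i using Fin.induction with
    | zero =>
      refine (L0 _).mpr ?_
      rw [hii, smul_zero]
    | succ i ih =>
      have : (i.succ : ℕ) = i + 1 := rfl
      rw [this]
      refine (Ls _ _).mpr ⟨si i.castSucc, ih, (hvi i).symm⟩
  have Lkill : ∀ (k : ℕ) (hk : k + 1 < M + 1) (z : A), z ∈ L k → (a * z) * pi' ⟨k + 1, hk⟩ = 0 := by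
    intro k
    induction k with
    | zero =>
      intro hk z hz
      have h0 : 0 < M := by omega
      have h1 := hvii ⟨0, h0⟩ z
      have h2 := (L0 z).mp hz
      rw [← smul_mul_assoc, h2, zero_mul] at h1
      exact h1
    | succ k ih =>
      intro hk z hz
      have h0 : k + 1 < M := by omega
      have h1 := hvii ⟨k + 1, h0⟩ z
      obtain ⟨z', hz', h2⟩ := (Ls k z).mp hz
      rw [← smul_mul_assoc, h2] at h1
      have h3 := ih (by omega) z' hz'
      exact h1.trans h3
  have Laut : ∀ (σ : A ≃+* A), σ a = a → σ b = b → ∀ k t, t ∈ L k → σ t ∈ L k := by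
    intro σ ha' hb' k
    induction k with
    | zero =>
      intro t ht
      refine (L0 _).mpr ?_
      have h1 := congrArg σ ((L0 t).mp ht)
      rw [map_zsmul, map_mul, hb', map_zero] at h1
      exact h1
    | succ k ih =>
      intro t ht
      obtain ⟨t', ht', h⟩ := (Ls k t).mp ht
      refine (Ls k _).mpr ⟨σ t', ih t' ht', ?_⟩
      have h1 := congrArg σ h
      rw [map_zsmul, map_mul, map_mul, hb', ha'] at h1
      exact h1
  obtain ⟨i, j, hij, hcolij⟩ := Fintype.exists_ne_map_eq_of_card_lt
    (fun i : Fin (M + 1) => col ![a, b, si i]) (by simp; omega)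
  have fin : ∀ i j : Fin (M + 1), i < j → col ![a, b, si i] = col ![a, b, si j] → False := by
    intro i j hij h
    obtain ⟨σ, hσ⟩ := hcol _ _ h
    have h0 : σ a = a := hσ 0
    have h1 : σ b = b := hσ 1
    have h2 : σ (si i) = si j := hσ 2
    have h3 := Laut σ h0 h1 i _ (Lmem i)
    rw [h2] at h3
    have hlt : (i : ℕ) < j := hij
    have hj : (j : ℕ) - 1 + 1 = j := by omega
    have h4 := Lmono i (j - 1) (by omega) h3
    have hjl := j.isLt
    have h5 := Lkill (j - 1) (by omega) _ h4
    have h6 : (⟨(j : ℕ) - 1 + 1, by omega⟩ : Fin (M + 1)) = j := Fin.ext hj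
    rw [h6] at h5
    exact hcne j h5
  rcases lt_or_gt_of_ne hij with h | h
  · exact fin i j h hcolij
  · exact fin j i h hcolij.symm

/-! ### The spans of values of group words -/

/-- The additive span of the values of group words in `m` groups. -/
def V (A : Type u) [NonUnitalNonAssocRing A] (r m : ℕ) : AddSubgroup A :=
  AddSubgroup.closure {w | ∃ F : (Fin m → Fin r → A) → A, GW F ∧
    ∃ X : Fin m → Fin r → A, (∀ i t, SqZ (X i t)) ∧ w = F X}

theorem closure_mul_closure {S T : Set A} {U : AddSubgroup A}
    (h : ∀ s ∈ S, ∀ t ∈ T, s * t ∈ U) :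
    ∀ s ∈ AddSubgroup.closure S, ∀ t ∈ AddSubgroup.closure T, s * t ∈ U := by
  intro s hs
  induction hs using AddSubgroup.closure_induction with
  | mem s hs =>
    intro t ht
    induction ht using AddSubgroup.closure_induction with
    | mem t ht => exact h s hs t ht
    | zero => rw [mul_zero]; exact zero_mem _
    | add a b _ _ iha ihb => rw [mul_add]; exact add_mem iha ihb
    | neg a _ iha => rw [mul_neg]; exact neg_mem iha
  | zero => intro t _; rw [zero_mul]; exact zero_mem _
  | add a b _ _ iha ihb => intro t ht; rw [add_mul]; exact add_mem (iha t ht) (ihb t ht)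
  | neg a _ iha => intro t ht; rw [neg_mul]; exact neg_mem (iha t ht)

theorem V_mul {r m n : ℕ} : ∀ x ∈ V A r m, ∀ y ∈ V A r n, x * y ∈ V A r (m + n) := by
  apply closure_mul_closure
  rintro _ ⟨F, hF, X, hX, rfl⟩ _ ⟨G, hG, Y, hY, rfl⟩
  refine AddSubgroup.subset_closure ⟨fun Z => F (fun i => Z (Fin.castAdd n i)) *
    G (fun i => Z (Fin.natAdd m i)), ?_, Fin.append X Y, ?_, ?_⟩
  · intro i Z
    refine Fin.addCases (fun i => ?_) (fun i => ?_) i
    · have e1 : ∀ x, (fun q => update Z (Fin.castAdd n i) x (Fin.castAdd n q)) =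
          update (fun q => Z (Fin.castAdd n q)) i x := by
        intro x; funext q
        by_cases h : q = i
        · subst h; simp
        · rw [update_of_ne h, update_of_ne (fun h' => h (Fin.castAdd_injective _ _ h'))]
      have e2 : ∀ x, (fun q => update Z (Fin.castAdd n i) x (Fin.natAdd m q)) =
          (fun q => Z (Fin.natAdd m q)) := by
        intro x; funext q
        rw [update_of_ne]
        intro h
        have := congrArg Fin.val h
        simp only [Fin.val_natAdd, Fin.val_castAdd] at this
        omega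
      simp only [e1, e2]
      exact D1_mul_const (hF i _) _
    · have e1 : ∀ x, (fun q => update Z (Fin.natAdd m i) x (Fin.castAdd n q)) =
          (fun q => Z (Fin.castAdd n q)) := by
        intro x; funext q
        rw [update_of_ne]
        intro h
        have := congrArg Fin.val h
        simp only [Fin.val_natAdd, Fin.val_castAdd] at this
        omega
      have e2 : ∀ x, (fun q => update Z (Fin.natAdd m i) x (Fin.natAdd m q)) =
          update (fun q => Z (Fin.natAdd m q)) i x := by
        intro x; funext q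
        by_cases h : q = i
        · subst h; simp
        · rw [update_of_ne h, update_of_ne (fun h' => h (Fin.natAdd_injective _ _ h'))]
      simp only [e1, e2]
      exact D1_const_mul (hG i _) _
  · intro i t
    refine Fin.addCases (fun i => ?_) (fun i => ?_) i
    · rw [Fin.append_left]; exact hX i t
    · rw [Fin.append_right]; exact hY i t
  · simp only [Fin.append_left, Fin.append_right]

theorem V_anti1 {r m : ℕ} : V A r (m + 1) ≤ V A r m := by
  unfold V
  rw [AddSubgroup.closure_le]
  rintro _ ⟨F, hF, X, hX, rfl⟩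
  refine AddSubgroup.subset_closure ⟨fun Z => F (Fin.cons (X 0) Z), ?_, fun i => X i.succ, ?_, ?_⟩
  · intro i Z
    have e1 : ∀ x, (Fin.cons (X 0) (update Z i x) : Fin (m + 1) → Fin r → A) =
        update (Fin.cons (X 0) Z : Fin (m + 1) → Fin r → A) i.succ x := by
      intro x
      rw [Fin.cons_update]
    simp only [e1]
    exact hF i.succ _
  · intro i t; exact hX _ _
  · congr 1
    funext i
    refine Fin.cases ?_ (fun i => ?_) i
    · simp
    · simp

theorem V_anti {r m n : ℕ} (h : m ≤ n) : V A r n ≤ V A r m := by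
  induction n, h using Nat.le_induction with
  | base => exact le_refl _
  | succ n _ ih => exact V_anti1.trans ih

/-- The vanishing product. -/
theorem chainV (hO : Olig A) : ∃ M₀ : ℕ, ∀ (r M : ℕ) (_ : 0 < r) (_ : SymP A (r + 1)) (_ : M₀ ≤ M),
    ∀ x ∈ V A r 1, ∀ y ∈ V A r 1, ∀ s ∈ V A r M, ∀ p ∈ V A r M, ((x * y) * s) * p = 0 := by
  obtain ⟨M₀, h⟩ := chain hO
  refine ⟨M₀, ?_⟩
  intro r M hr hS hM x hx y hy s hs p hp
  unfold V at hx hy hs hp
  induction hx using AddSubgroup.closure_induction with
  | mem x hx =>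
    induction hy using AddSubgroup.closure_induction with
    | mem y hy =>
      induction hs using AddSubgroup.closure_induction with
      | mem s hs =>
        induction hp using AddSubgroup.closure_induction with
        | mem p hp =>
          obtain ⟨F, hF, X, hX, rfl⟩ := hx
          obtain ⟨G, hG, Y, hY, rfl⟩ := hy
          obtain ⟨H, hH, Y', hY', rfl⟩ := hs
          obtain ⟨K, hK, X', hX', rfl⟩ := hp
          have hu : (fun x : Fin r → A => F (update X 0 x)) ∈ D1 A r := hF 0 X
          have hv : (fun x : Fin r → A => G (update Y 0 x)) ∈ D1 A r := hG 0 Y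
          have := h r M hr hS hM _ _ hu hv H K hH hK (Fin.cons (X 0) X') (Fin.cons (Y 0) Y')
            (by
              intro i t
              refine Fin.cases ?_ (fun i => ?_) i
              · rw [Fin.cons_zero]; exact hX _ _
              · rw [Fin.cons_succ]; exact hX' _ _)
            (by
              intro i t
              refine Fin.cases ?_ (fun i => ?_) i
              · rw [Fin.cons_zero]; exact hY _ _
              · rw [Fin.cons_succ]; exact hY' _ _)
          simpa using this
        | zero => rw [mul_zero]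
        | add a b _ _ iha ihb => rw [mul_add, iha, ihb, add_zero]
        | neg a _ iha => rw [mul_neg, iha, neg_zero]
      | zero => rw [mul_zero, zero_mul]
      | add a b _ _ iha ihb => rw [mul_add, add_mul, iha, ihb, add_zero]
      | neg a _ iha => rw [mul_neg, neg_mul, iha, neg_zero]
    | zero => rw [mul_zero, zero_mul, zero_mul]
    | add a b _ _ iha ihb => rw [mul_add, add_mul, add_mul, iha, ihb, add_zero]
    | neg a _ iha => rw [mul_neg, neg_mul, neg_mul, iha, neg_zero]
  | zero => rw [zero_mul, zero_mul, zero_mul]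
  | add a b _ _ iha ihb => rw [add_mul, add_mul, add_mul, iha, ihb, add_zero]
  | neg a _ iha => rw [neg_mul, neg_mul, neg_mul, iha, neg_zero]

/-! ### The ideal spanned by the symmetrised words -/

/-- The additive span of the symmetrised words in `r` slots at strongly square zero elements. -/
def J (A : Type u) [NonUnitalNonAssocRing A] (r : ℕ) : AddSubgroup A :=
  AddSubgroup.closure {w | ∃ f : (Fin r → A) → A, W Set.univ f ∧
    ∃ v : Fin r → A, (∀ t, SqZ (v t)) ∧ w = ∑ σ : Equiv.Perm (Fin r), f (v ∘ σ)}

theorem J_charIdeal (r : ℕ) : CharIdeal (J A r) := by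
  constructor
  · intro x hx y
    unfold J at hx
    induction hx using AddSubgroup.closure_induction with
    | mem x hx =>
      obtain ⟨f, hf, v, hv, rfl⟩ := hx
      constructor
      · refine AddSubgroup.subset_closure ⟨fun v => f v * y, ?_, v, hv, ?_⟩
        · have := W.mul (Set.disjoint_empty _) hf (W.const y)
          rwa [Set.union_empty] at this
        · rw [Finset.sum_mul]
      · refine AddSubgroup.subset_closure ⟨fun v => y * f v, ?_, v, hv, ?_⟩
        · have := W.mul (Set.empty_disjoint _) (W.const y) hf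
          rwa [Set.empty_union] at this
        · rw [Finset.mul_sum]
    | zero => rw [zero_mul, mul_zero]; exact ⟨zero_mem _, zero_mem _⟩
    | add a b _ _ iha ihb =>
      rw [add_mul, mul_add]; exact ⟨add_mem iha.1 ihb.1, add_mem iha.2 ihb.2⟩
    | neg a _ iha => rw [neg_mul, mul_neg]; exact ⟨neg_mem iha.1, neg_mem iha.2⟩
  · intro σ x hx
    unfold J at hx
    induction hx using AddSubgroup.closure_induction with
    | mem x hx =>
      obtain ⟨f, hf, v, hv, rfl⟩ := hx
      obtain ⟨f', hf', h⟩ := hf.aut σ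
      refine AddSubgroup.subset_closure ⟨f', hf', fun t => σ (v t), fun t => sqZ_aut (hv t) σ, ?_⟩
      rw [map_sum]
      refine Finset.sum_congr rfl (fun π _ => ?_)
      rw [h]
      rfl
    | zero => rw [map_zero]; exact zero_mem _
    | add a b _ _ iha ihb => rw [map_add]; exact add_mem iha ihb
    | neg a _ iha => rw [map_neg]; exact neg_mem iha

theorem J_le (r : ℕ) : J A r ≤ V A r 1 := by
  unfold J
  rw [AddSubgroup.closure_le]
  rintro _ ⟨f, hf, v, hv, rfl⟩
  refine AddSubgroup.subset_closure ⟨fun Z => ∑ σ : Equiv.Perm (Fin r), f (fun t => Z 0 (σ t)),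
    ?_, fun _ => v, fun _ => hv, rfl⟩
  intro i Z
  have : i = 0 := Subsingleton.elim _ _
  subst this
  simp only [update_self]
  exact AddSubgroup.subset_closure ⟨f, hf, rfl⟩

theorem derS_J_le (r : ℕ) (e : ℕ) : derS (J A r) e ≤ V A r (2 ^ e) := by
  induction e with
  | zero => exact J_le r
  | succ e ih =>
    show AddSubgroup.closure _ ≤ _
    rw [AddSubgroup.closure_le]
    rintro _ ⟨x, hx, y, hy, rfl⟩
    have := V_mul x (ih hx) y (ih hy)
    rw [pow_succ, mul_two]
    exact this

theorem J_solv (hO : Olig A) {r : ℕ} (hr : 0 < r) (hS : SymP A (r + 1)) : Solv (J A r) := by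
  obtain ⟨M, h⟩ := chainV hO
  refine ⟨M + 3, ?_⟩
  have hM : M ≤ 2 ^ M := (Nat.lt_two_pow_self).le
  have h1 : ∀ x ∈ derS (J A r) M, x ∈ V A r 1 := fun x hx =>
    V_anti Nat.one_le_two_pow (derS_J_le r M hx)
  have h2 : ∀ x ∈ derS (J A r) (M + 1), x ∈ V A r M := fun x hx =>
    V_anti (hM.trans (Nat.pow_le_pow_right (by norm_num) (by omega))) (derS_J_le r (M + 1) hx)
  have h3 : ∀ x ∈ derS (J A r) (M + 2), x ∈ V A r M := fun x hx =>
    V_anti (hM.trans (Nat.pow_le_pow_right (by norm_num) (by omega))) (derS_J_le r (M + 2) hx)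
  rw [eq_bot_iff]
  show AddSubgroup.closure _ ≤ _
  rw [AddSubgroup.closure_le]
  rintro _ ⟨a, ha, b, hb, rfl⟩
  show a * b = 0
  have hb' := h3 b hb
  have ha' : a ∈ AddSubgroup.closure
      {z : A | ∃ u ∈ derS (J A r) (M + 1), ∃ v ∈ derS (J A r) (M + 1), u * v = z} := ha
  induction ha' using AddSubgroup.closure_induction with
  | mem a h4 =>
    obtain ⟨a1, h5, a2, h6, rfl⟩ := h4
    have h7 : a1 ∈ AddSubgroup.closure
      {z : A | ∃ u ∈ derS (J A r) M, ∃ v ∈ derS (J A r) M, u * v = z} := h5
    have h8 : ∀ a1 ∈ AddSubgroup.closure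
      {z : A | ∃ u ∈ derS (J A r) M, ∃ v ∈ derS (J A r) M, u * v = z}, (a1 * a2) * b = 0 := by
      intro a1 h7
      induction h7 using AddSubgroup.closure_induction with
      | mem c hc =>
        obtain ⟨x, hx, y, hy, rfl⟩ := hc
        exact h r M hr hS le_rfl x (h1 x hx) y (h1 y hy) a2 (h2 a2 h6) b hb'
      | zero => rw [zero_mul, zero_mul]
      | add a b _ _ iha ihb => rw [add_mul, add_mul, iha, ihb, add_zero]
      | neg a _ iha => rw [neg_mul, neg_mul, iha, neg_zero]
    exact h8 a1 h7
  | zero => rw [zero_mul]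
  | add a b h4 h5 iha ihb => rw [add_mul, iha h4, ihb h5, add_zero]
  | neg a h4 iha => rw [neg_mul, iha h4, neg_zero]

end Pool.Agent.K6.H1.Alt.P2

namespace Pool.Agent.K6.H1.Alt

universe u

/-- **Part II.** If there is no nonzero solvable characteristic ideal, then there is no nonzero
strongly square zero element. -/
theorem partII (A : Type u) [NonUnitalNonAssocRing A] (hO : Olig A)
    (hns : ∀ I : AddSubgroup A, CharIdeal I → Solv I → I = ⊥) : ∀ a : A, SqZ a → a = 0 := by
  classical
  obtain ⟨k, hk⟩ := P2.exists_bound hO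
  have hex : ∃ n, P2.SymP A (n + 1) := ⟨k, P2.symP_succ hk⟩
  set r := Nat.find hex with hr
  have hS : P2.SymP A (r + 1) := Nat.find_spec hex
  rcases Nat.eq_zero_or_pos r with h0 | hpos
  · intro a ha
    rw [h0] at hS
    have h1 := hS (fun v => v 0) (by
      have := P2.W.slot (A := A) (0 : Fin 1)
      have e : (Set.univ : Set (Fin 1)) = {0} := by
        ext i; simp [Subsingleton.elim i 0]
      rw [e]; exact this) (fun _ => a) (fun _ => ha)
    simpa using h1
  · exfalso
    have hbot := hns _ (P2.J_charIdeal r) (P2.J_solv hO hpos hS)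
    have hmin : ¬ P2.SymP A ((r - 1) + 1) := Nat.find_min hex (by omega)
    rw [Nat.sub_add_cancel hpos] at hmin
    apply hmin
    intro f hf v hv
    have : ∑ σ : Equiv.Perm (Fin r), f (v ∘ σ) ∈ P2.J A r :=
      AddSubgroup.subset_closure ⟨f, hf, v, hv, rfl⟩
    rw [hbot] at this
    exact this


end Pool.Agent.K6.H1.Alt
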