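import Pool.Agent.K6.H1.Alt.Gaps
import Pool.Agent.K6.H1.Alt.Levitzki
import Pool.Agent.K6.H1.Alt.Assembly

set_option autoImplicit false
set_option linter.unusedSectionVars false
set_option linter.unusedSimpArgs false

/-!
# Oligomorphic alternative nil rings without elements generating a square-zero ideal are zero
-/

namespace Pool.Agent.K6.H1.Alt

universe u

variable {A : Type u} [NonUnitalNonAssocRing A]

/-- Operators spanned by strings of content `(d, C)`. -/
def Op (a : A) (d : ℕ) (C : Multiset A) : AddSubgroup (AddMonoid.End A) :=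
  AddSubgroup.closure {f | ∃ σ : List (Sy A), dg σ = d ∧ lt σ = C ∧ f = ev a σ}

/-- Values spanned by strings of content `(d, C)`. -/
def Vl (a : A) (d : ℕ) (C : Multiset A) : AddSubgroup A :=
  AddSubgroup.closure {z | ∃ σ : List (Sy A), dg σ = d ∧ lt σ = C ∧ z = ev a σ a}

theorem Op_mem (a : A) (σ : List (Sy A)) : ev a σ ∈ Op a (dg σ) (lt σ) :=
  AddSubgroup.subset_closure ⟨σ, rfl, rfl, rfl⟩

theorem Vl_mem (a : A) (σ : List (Sy A)) : ev a σ a ∈ Vl a (dg σ) (lt σ) :=
  AddSubgroup.subset_closure ⟨σ, rfl, rfl, rfl⟩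

theorem Op_mul {a : A} {d d' : ℕ} {C C' : Multiset A} {f g : AddMonoid.End A}
    (hf : f ∈ Op a d C) (hg : g ∈ Op a d' C') : f * g ∈ Op a (d + d') (C + C') := by
  unfold Op at hf
  induction hf using AddSubgroup.closure_induction with
  | mem f hf =>
    obtain ⟨σ, rfl, rfl, rfl⟩ := hf
    unfold Op at hg
    induction hg using AddSubgroup.closure_induction with
    | mem g hg =>
      obtain ⟨τ, rfl, rfl, rfl⟩ := hg
      rw [← ev_append, ← dg_append, ← lt_append]
      exact Op_mem a _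
    | zero => rw [mul_zero]; exact zero_mem _
    | add x y _ _ h1 h2 => rw [mul_add]; exact add_mem h1 h2
    | neg x _ h => rw [mul_neg]; exact neg_mem h
  | zero => rw [zero_mul]; exact zero_mem _
  | add f g _ _ h1 h2 => rw [add_mul]; exact add_mem h1 h2
  | neg f _ h => rw [neg_mul]; exact neg_mem h

theorem Op_app {a : A} {d d' : ℕ} {C C' : Multiset A} {f : AddMonoid.End A} {z : A}
    (hf : f ∈ Op a d C) (hz : z ∈ Vl a d' C') : f z ∈ Vl a (d + d') (C + C') := by
  unfold Op at hf
  induction hf using AddSubgroup.closure_induction with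
  | mem f hf =>
    obtain ⟨σ, rfl, rfl, rfl⟩ := hf
    unfold Vl at hz
    induction hz using AddSubgroup.closure_induction with
    | mem z hz =>
      obtain ⟨τ, rfl, rfl, rfl⟩ := hz
      rw [← E_mul, ← ev_append, ← dg_append, ← lt_append]
      exact Vl_mem a _
    | zero => rw [map_zero]; exact zero_mem _
    | add x y _ _ h1 h2 => rw [map_add]; exact add_mem h1 h2
    | neg x _ h => rw [map_neg]; exact neg_mem h
  | zero => rw [E_zero]; exact zero_mem _
  | add f g _ _ h1 h2 => rw [E_add]; exact add_mem h1 h2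
  | neg f _ h => rw [E_neg]; exact neg_mem h

theorem o_mem_Op_letter (a x : A) (s : Bool) : o s x ∈ Op a 0 {x} := by
  have h := Op_mem a [(s, some x)]
  simpa using h

theorem o_mem_Op_a (a : A) (s : Bool) : o s a ∈ Op a 1 0 := by
  have h := Op_mem a [(s, none)]
  simpa using h

/-- The set of `(d, C)` for which both multiplications by `w` are in `Op`. -/
def Both (a w : A) (d : ℕ) (C : Multiset A) : Prop := L w ∈ Op a d C ∧ R w ∈ Op a d C

theorem Both_mul (hA : IsAlt A) {a x y : A} {d d' : ℕ} {C C' : Multiset A} (hx : Both a x d C)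
    (hy : Both a y d' C') : Both a (x * y) (d + d') (C + C') := by
  have e1 : d' + d = d + d' := add_comm _ _
  have e2 : C' + C = C + C' := add_comm _ _
  constructor
  · rw [L_mul hA]
    refine sub_mem (add_mem (Op_mul hx.1 hy.1) (Op_mul hx.1 hy.2)) ?_
    rw [← e1, ← e2]
    exact Op_mul hy.2 hx.1
  · rw [R_mul hA]
    refine sub_mem (add_mem ?_ ?_) (Op_mul hx.1 hy.2)
    · rw [← e1, ← e2]; exact Op_mul hy.2 hx.2
    · rw [← e1, ← e2]; exact Op_mul hy.2 hx.1

theorem Both_letter (a x : A) : Both a x 0 {x} :=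
  ⟨o_mem_Op_letter a x true, o_mem_Op_letter a x false⟩

theorem Both_a (a : A) : Both a a 1 0 :=
  ⟨o_mem_Op_a a true, o_mem_Op_a a false⟩

theorem Both_ev (hA : IsAlt A) (a : A) : ∀ σ : List (Sy A),
    Both a (ev a σ a) (dg σ + 1) (lt σ) := by
  intro σ
  induction σ with
  | nil => exact Both_a a
  | cons s σ ih =>
    obtain ⟨s, w⟩ := s
    rcases w with _ | w
    · rw [ev_cons_none, dg_cons_none, lt_cons_none, E_mul]
      cases s
      · have h := Both_mul hA ih (Both_a a)
        rw [add_zero] at h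
        exact h
      · have h := Both_mul hA (Both_a a) ih
        rw [zero_add, add_comm 1] at h
        exact h
    · rw [ev_cons_some, dg_cons_some, lt_cons_some, E_mul]
      cases s
      · have h := Both_mul hA ih (Both_letter a w)
        rw [add_zero, add_comm (lt σ) {w}] at h
        exact h
      · have h := Both_mul hA (Both_letter a w) ih
        rw [zero_add] at h
        exact h

theorem Both_Vl (hA : IsAlt A) {a z : A} {d : ℕ} {C : Multiset A} (hz : z ∈ Vl a d C) :
    Both a z (d + 1) C := by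
  unfold Vl at hz
  induction hz using AddSubgroup.closure_induction with
  | mem z hz =>
    obtain ⟨σ, rfl, rfl, rfl⟩ := hz
    exact Both_ev hA a σ
  | zero => exact ⟨by rw [L_zero]; exact zero_mem _, by rw [R_zero]; exact zero_mem _⟩
  | add x y _ _ h1 h2 =>
    exact ⟨by rw [L_add]; exact add_mem h1.1 h2.1, by rw [R_add]; exact add_mem h1.2 h2.2⟩
  | neg x _ h => exact ⟨by rw [L_neg]; exact neg_mem h.1, by rw [R_neg]; exact neg_mem h.2⟩

/-- Strings over `b`, expanded over `a`. -/
theorem ev_b (hA : IsAlt A) {a b : A} {d : ℕ} {C : Multiset A} (hb : b ∈ Vl a d C) :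
    ∀ σ : List (Sy A), ev b σ ∈ Op a (dg σ * (d + 1)) (dg σ • C + lt σ) := by
  have hB := Both_Vl hA hb
  intro σ
  induction σ with
  | nil =>
    have h := Op_mem a []
    simpa using h
  | cons s σ ih =>
    obtain ⟨s, w⟩ := s
    rcases w with _ | w
    · rw [ev_cons_none, dg_cons_none, lt_cons_none]
      have h : o s b * ev b σ ∈ Op a ((d + 1) + dg σ * (d + 1)) (C + (dg σ • C + lt σ)) := by
        refine Op_mul ?_ ih
        cases s
        · exact hB.2
        · exact hB.1
      have e1 : (dg σ + 1) * (d + 1) = (d + 1) + dg σ * (d + 1) := by ring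
      have e2 : (dg σ + 1) • C + lt σ = C + (dg σ • C + lt σ) := by
        rw [succ_nsmul]; abel
      rw [e1, e2]
      exact h
    · rw [ev_cons_some, dg_cons_some, lt_cons_some]
      have h : o s w * ev b σ ∈ Op a (0 + dg σ * (d + 1)) ({w} + (dg σ • C + lt σ)) :=
        Op_mul (o_mem_Op_letter a w s) ih
      have e2 : dg σ • C + ({w} + lt σ) = {w} + (dg σ • C + lt σ) := by abel
      rw [e2]
      rw [zero_add] at h
      exact h

/-- Words with `m` occurrences. -/
theorem Wd_Both (hA : IsAlt A) {a : A} {m : ℕ} {w : A} (h : Wd a m w) :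
    (∃ C, Both a w m C) ∧ (∀ n, m = n + 1 → ∃ C, w ∈ Vl a n C) := by
  induction h with
  | base =>
    refine ⟨⟨0, Both_a a⟩, ?_⟩
    intro n hn
    have : n = 0 := by omega
    subst this
    exact ⟨0, Vl_mem a []⟩
  | const c =>
    refine ⟨⟨{c}, Both_letter a c⟩, ?_⟩
    intro n hn
    omega
  | @mul m n x y _ _ hx hy =>
    obtain ⟨⟨C, hC⟩, hx2⟩ := hx
    obtain ⟨⟨C', hC'⟩, hy2⟩ := hy
    refine ⟨⟨C + C', Both_mul hA hC hC'⟩, ?_⟩
    intro k hk
    rcases n with _ | n
    · obtain ⟨D, hD⟩ := hx2 k (by omega)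
      refine ⟨C' + D, ?_⟩
      have h := Op_app hC'.2 hD
      rw [zero_add] at h
      exact h
    · obtain ⟨D, hD⟩ := hy2 n rfl
      refine ⟨C + D, ?_⟩
      have h := Op_app hC.1 hD
      have e : m + n = k := by omega
      rw [e] at h
      exact h

theorem exists_of_Vl {a z : A} {d : ℕ} {C : Multiset A} (hz : z ∈ Vl a d C) (hne : z ≠ 0) :
    ∃ σ : List (Sy A), dg σ = d ∧ lt σ = C ∧ ev a σ a ≠ 0 := by
  by_contra hcon
  push Not at hcon
  apply hne
  unfold Vl at hz
  induction hz using AddSubgroup.closure_induction with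
  | mem z hz =>
    obtain ⟨σ, h1, h2, rfl⟩ := hz
    exact hcon σ h1 h2
  | zero => rfl
  | add x y _ _ h1 h2 =>
    by_cases hx : x = 0
    · by_cases hy : y = 0
      · rw [hx, hy, add_zero]
      · exact absurd (h2 hy) hy
    · exact absurd (h1 hx) hx
  | neg x _ h =>
    by_cases hx : x = 0
    · rw [hx, neg_zero]
    · exact absurd (h hx) hx

/-- `b` has a nonzero string with one `b`-symbol and at most `m` letters. -/
def Sn (b : A) (m : ℕ) : Prop :=
  ∃ σ : List (Sy A), dg σ = 1 ∧ Multiset.card (lt σ) ≤ m ∧ ev b σ b ≠ 0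

theorem exists_Sn (hA : IsAlt A) {b : A} (hb : ¬ SqZ b) : ∃ m, Sn b m := by
  unfold SqZ at hb
  push Not at hb
  obtain ⟨w, hw, hne⟩ := hb
  obtain ⟨_, h⟩ := Wd_Both hA hw
  obtain ⟨C, hC⟩ := h 1 rfl
  obtain ⟨σ, h1, h2, h3⟩ := exists_of_Vl hC hne
  exact ⟨Multiset.card C, σ, h1, by rw [h2], h3⟩

/-- The image of a string under an automorphism. -/
def mapS (τ : A ≃+* A) (σ : List (Sy A)) : List (Sy A) := σ.map (fun s => (s.1, s.2.map τ))

theorem mapS_spec (τ : A ≃+* A) (b : A) : ∀ σ : List (Sy A),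
    dg (mapS τ σ) = dg σ ∧ Multiset.card (lt (mapS τ σ)) = Multiset.card (lt σ) ∧
      ∀ z, ev (τ b) (mapS τ σ) (τ z) = τ (ev b σ z) := by
  intro σ
  induction σ with
  | nil => exact ⟨rfl, rfl, fun _ => rfl⟩
  | cons s σ ih =>
    obtain ⟨h1, h2, h3⟩ := ih
    obtain ⟨s, w⟩ := s
    rcases w with _ | w
    · have e : mapS τ ((s, none) :: σ) = (s, none) :: mapS τ σ := rfl
      rw [e]
      refine ⟨by simp [h1], by simp [h2], fun z => ?_⟩
      rw [ev_cons_none, ev_cons_none, E_mul, E_mul, h3]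
      cases s
      · exact (map_mul τ _ _).symm
      · exact (map_mul τ _ _).symm
    · have e : mapS τ ((s, some w) :: σ) = (s, some (τ w)) :: mapS τ σ := rfl
      rw [e]
      refine ⟨by simp [h1], by simp [h2], fun z => ?_⟩
      rw [ev_cons_some, ev_cons_some, E_mul, E_mul, h3]
      cases s
      · exact (map_mul τ _ _).symm
      · exact (map_mul τ _ _).symm

theorem Sn_map (τ : A ≃+* A) {b : A} {m : ℕ} (h : Sn b m) : Sn (τ b) m := by
  obtain ⟨σ, h1, h2, h3⟩ := h
  obtain ⟨e1, e2, e3⟩ := mapS_spec τ b σ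
  refine ⟨mapS τ σ, by rw [e1, h1], by rw [e2]; exact h2, ?_⟩
  rw [e3]
  intro h0
  exact h3 ((map_eq_zero_iff τ τ.injective).1 h0)

theorem Sn_map_iff (τ : A ≃+* A) (b : A) (m : ℕ) : Sn (τ b) m ↔ Sn b m := by
  constructor
  · intro h
    have := Sn_map τ.symm h
    simpa using this
  · exact Sn_map τ

/-- A uniform bound. -/
theorem exists_unif (hA : IsAlt A) (hO : Olig A) (hE : ∀ b : A, SqZ b → b = 0) :
    ∃ K, ∀ b : A, b ≠ 0 → Sn b K := by
  classical
  have hex : ∀ b : A, b ≠ 0 → ∃ m, Sn b m := fun b hb => exists_Sn hA (fun h => hb (hE b h))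
  let f : A → ℕ := fun b => if h : ∃ m, Sn b m then Nat.find h else 0
  obtain ⟨K, hK⟩ := boundedInv A hO f (by
    intro τ b
    simp only [f]
    have : (∃ m, Sn (τ b) m) ↔ ∃ m, Sn b m := exists_congr (fun m => Sn_map_iff τ b m)
    by_cases h : ∃ m, Sn b m
    · have h' := this.2 h
      rw [dif_pos h, dif_pos h']
      exact Nat.find_congr' (fun {m} => Sn_map_iff τ b m)
    · have h' := fun h'' => h (this.1 h'')
      rw [dif_neg h, dif_neg h'])
  refine ⟨K, fun b hb => ?_⟩
  have h := hex b hb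
  obtain ⟨σ, h1, h2, h3⟩ := Nat.find_spec h
  have h4 := hK b
  simp only [f, dif_pos h] at h4
  exact ⟨σ, h1, le_trans h2 h4, h3⟩

/-- Doubling. -/
theorem doubling (hA : IsAlt A) {a : A} (ha0 : a ≠ 0) {S : ℕ}
    (hS : ∀ b : A, b ≠ 0 → Sn b S) : ∀ j : ℕ, ∃ (b : A) (d : ℕ) (C : Multiset A) (F : Finset A),
      b ≠ 0 ∧ b ∈ Vl a d C ∧ d + 1 = 2 ^ j ∧ Multiset.card C + S ≤ S * 2 ^ j ∧
      (∀ x ∈ C, x ∈ F) ∧ F.card ≤ j * S := by
  classical
  intro j
  induction j with
  | zero => exact ⟨a, 0, 0, ∅, ha0, Vl_mem a [], rfl, by simp, by simp, by simp⟩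
  | succ j ih =>
    obtain ⟨b, d, C, F, hb0, hb, hd, hC, hF, hFc⟩ := ih
    obtain ⟨σ, h1, h2, h3⟩ := hS b hb0
    have h4 := Op_app (ev_b hA hb σ) hb
    rw [h1, one_smul, one_mul] at h4
    refine ⟨ev b σ b, d + 1 + d, C + lt σ + C, F ∪ (lt σ).toFinset, h3, h4, ?_, ?_, ?_, ?_⟩
    · rw [pow_succ, ← hd]; ring
    · rw [Multiset.card_add, Multiset.card_add, pow_succ]
      have e : S * (2 ^ j * 2) = S * 2 ^ j + S * 2 ^ j := by ring
      omega
    · intro x hx
      rw [Multiset.mem_add, Multiset.mem_add] at hx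
      rw [Finset.mem_union, Multiset.mem_toFinset]
      rcases hx with (hx | hx) | hx
      · exact Or.inl (hF x hx)
      · exact Or.inr hx
      · exact Or.inl (hF x hx)
    · have := Finset.card_union_le F (lt σ).toFinset
      have := Multiset.toFinset_card_le (lt σ)
      have e : (j + 1) * S = j * S + S := by ring
      omega

theorem exists_big (S : ℕ) (hS : 1 ≤ S) : ∃ j : ℕ, 1 ≤ j ∧ j * S < 2 ^ j := by
  refine ⟨4 * S, by omega, ?_⟩
  have h : 2 * S < 2 ^ (2 * S) := Nat.lt_two_pow_self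
  have e : 2 ^ (4 * S) = 2 ^ (2 * S) * 2 ^ (2 * S) := by rw [← pow_add]; congr 1; ring
  rw [e]
  calc 4 * S * S = (2 * S) * (2 * S) := by ring
    _ < 2 ^ (2 * S) * 2 ^ (2 * S) := Nat.mul_lt_mul'' h h

/-- Part III. -/
theorem partIII (A : Type u) [NonUnitalNonAssocRing A] (hA : IsAlt A) (hN : IsNil A)
    (hO : Olig A) (hE : ∀ a : A, SqZ a → a = 0) : ∀ a : A, a = 0 := by
  classical
  by_contra hcon
  push Not at hcon
  obtain ⟨n, hn⟩ := bddNil A hN hO
  obtain ⟨a₀, ha₀, hsq, hsand⟩ := levitzki A hA n hn hcon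
  have hK := exists_unif hA hO hE
  obtain ⟨S, hS1, hS2⟩ : ∃ S, (∀ b : A, b ≠ 0 → Sn b S) ∧
      ∀ m, m < S → ¬ ∀ b : A, b ≠ 0 → Sn b m :=
    ⟨Nat.find hK, Nat.find_spec hK, fun m hm => Nat.find_min hK hm⟩
  have hy₀ : Hy a₀ := ⟨hsq, hsand⟩
  -- S ≥ 2
  have hS : 2 ≤ S := by
    by_contra hlt
    obtain ⟨σ, h1, h2, h3⟩ := hS1 a₀ ha₀
    apply h3
    rcases σ with _ | ⟨⟨s, w⟩, σ⟩
    · simp at h1
    · rcases w with _ | w
      · rcases σ with _ | ⟨⟨s', w'⟩, σ⟩
        · exact A_a hy₀ s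
        · rcases w' with _ | w'
          · simp at h1
          · rcases σ with _ | ⟨⟨s'', w''⟩, σ⟩
            · exact A_pa hA hy₀ s s' w'
            · rcases w'' with _ | w''
              · simp at h1
              · simp at h2
                omega
      · rcases σ with _ | ⟨⟨s', w'⟩, σ⟩
        · simp at h1
        · rcases w' with _ | w'
          · rcases σ with _ | ⟨⟨s'', w''⟩, σ⟩
            · show o s w (o s' a₀ a₀) = 0
              rw [A_a hy₀, map_zero]
            · rcases w'' with _ | w''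
              · simp at h1
              · simp at h2
                omega
          · simp at h2
            omega
  -- choose a
  have h1 := hS2 (S - 1) (by omega)
  push Not at h1
  obtain ⟨a, ha0, haS⟩ := h1
  have hS' : ∀ σ : List (Sy A), dg σ = 1 → Multiset.card (lt σ) < S → ev a σ a = 0 := by
    intro σ hσ hc
    by_contra hne
    exact haS ⟨σ, hσ, by omega, hne⟩
  have hy : Hy a := by
    constructor
    · exact hS' [(true, none)] rfl (by simp; omega)
    · intro z
      exact hS' [(false, none), (false, some z)] rfl (by simp; omega)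
  obtain ⟨j, hj1, hj⟩ := exists_big S (by omega)
  obtain ⟨b, d, C, F, hb0, hb, hd, hC, hF, hFc⟩ := doubling hA ha0 hS1 j
  obtain ⟨σ, e1, e2, e3⟩ := exists_of_Vl hb hb0
  apply e3
  rcases d with _ | k
  · exfalso
    have h2 : 2 ≤ 2 ^ j := by
      calc 2 = 2 ^ 1 := rfl
        _ ≤ 2 ^ j := Nat.pow_le_pow_right (by omega) hj1
    omega
  · refine lemV hA hy (k + 1) ((S + 1) * (k + 1) + 1) ?_ (Multiset.card (lt σ)) σ e1 rfl
      ⟨F, ?_, ?_⟩
    · intro τ hτ hne
      exact bound hS' hA hy hS τ k hτ hne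
    · rw [e2]; exact hF
    · rw [e2]
      rw [← hd] at hj hC
      have e : (S + 1) * (k + 1) + 1 = S * (k + 1 + 1) + (k + 1 + 1) - S := by
        have : S * (k + 1 + 1) = S * (k + 1) + S := by ring
        have : (S + 1) * (k + 1) = S * (k + 1) + (k + 1) := by ring
        omega
      rw [e]
      omega

end Pool.Agent.K6.H1.Alt
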