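import Pool.Agent.K6.H1.Alt.Context

set_option autoImplicit false
set_option linter.unusedSectionVars false
set_option linter.unusedSimpArgs false

/-!
# Strings with a repeated letter, and the vanishing lemma
-/

namespace Pool.Agent.K6.H1.Alt

universe u

variable {A : Type u} [NonUnitalNonAssocRing A]

theorem ev_AA (hA : IsAlt A) {a : A} (ha : Hy a) (σ₁ σ₂ : List (Sy A)) (r r' : Bool) :
    ev a (σ₁ ++ (r, none) :: (r', none) :: σ₂) = 0 := by
  rw [ev_append, ev_cons_none, ev_cons_none, ← mul_assoc (o r a), AA hA ha, zero_mul, mul_zero]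

/-- Lemma R: a string with a repeated letter vanishes. -/
theorem lemR (hA : IsAlt A) {a : A} (ha : Hy a) {k : ℕ} {C : Multiset A} (hX : Ctx a k C) :
    ∀ (n : ℕ) (σ₁ μ σ₂ : List (Sy A)) (x : A) (p q : Bool), Multiset.card (lt μ) = n →
      dg σ₁ + dg μ + dg σ₂ = k → C = lt σ₁ + lt μ + lt σ₂ + {x} + {x} →
      ev a (σ₁ ++ (p, some x) :: (μ ++ (q, some x) :: σ₂)) a = 0 := by
  intro n
  induction n with
  | zero =>
    intro σ₁ μ σ₂ x p q hn hd hC
    rcases μ with _ | ⟨⟨r, w⟩, μ⟩
    · have h := E1 hA ha hX false x x (fun _ => rfl) σ₁ σ₂ (by simpa using hd)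
        (by simpa using hC) p q
      rw [sm_false] at h
      have e : o p x * o q x = ev a [(p, some x), (q, some x)] := by simp
      rw [e, Ph_ev] at h
      exact h
    · rcases w with _ | w
      · rcases μ with _ | ⟨⟨r', w⟩, μ⟩
        · have h := E2 hA ha hX false x x (fun _ => rfl) σ₁ σ₂
            (by simp only [dg_cons_none, dg_nil] at hd; omega)
            (by rw [hC]; simp only [lt_cons_none, lt_nil]; abel) p r q
          rw [sm_false] at h
          have e : o p x * o r a * o q x = ev a [(p, some x), (r, none), (q, some x)] := by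
            simp [mul_assoc]
          rw [e, Ph_ev] at h
          exact h
        · rcases w with _ | w
          · have h := ev_AA hA ha (σ₁ ++ [(p, some x)]) (μ ++ (q, some x) :: σ₂) r r'
            have e : σ₁ ++ (p, some x) :: ((r, none) :: (r', none) :: μ ++ (q, some x) :: σ₂) =
                (σ₁ ++ [(p, some x)]) ++ (r, none) :: (r', none) :: (μ ++ (q, some x) :: σ₂) := by
              simp
            rw [e, h, E_zero]
          · simp at hn
      · simp at hn
  | succ n ih =>
    intro σ₁ μ σ₂ x p q hn hd hC
    rcases μ with _ | ⟨⟨r, w⟩, μ⟩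
    · simp at hn
    · rcases w with _ | y
      · rcases μ with _ | ⟨⟨r', w⟩, μ⟩
        · simp at hn
        · rcases w with _ | y
          · have h := ev_AA hA ha (σ₁ ++ [(p, some x)]) (μ ++ (q, some x) :: σ₂) r r'
            have e : σ₁ ++ (p, some x) :: ((r, none) :: (r', none) :: μ ++ (q, some x) :: σ₂) =
                (σ₁ ++ [(p, some x)]) ++ (r, none) :: (r', none) :: (μ ++ (q, some x) :: σ₂) := by
              simp
            rw [e, h, E_zero]
          · have h := E2 hA ha hX true x y (by simp) σ₁ (μ ++ (q, some x) :: σ₂)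
              (by simp only [dg_cons_none, dg_cons_some, dg_append] at hd ⊢; omega)
              (by rw [hC]; simp only [lt_cons_none, lt_cons_some, lt_append]; abel) p r r'
            rw [sm_true, Ph_add] at h
            have e1 : o p x * o r a * o r' y = ev a [(p, some x), (r, none), (r', some y)] := by
              simp [mul_assoc]
            have e2 : o p y * o r a * o r' x = ev a [(p, some y), (r, none), (r', some x)] := by
              simp [mul_assoc]
            rw [e1, e2, Ph_ev, Ph_ev] at h
            have h2 := ih (σ₁ ++ [(p, some y), (r, none)]) μ σ₂ x r' q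
              (by
                simp only [lt_cons_none, lt_cons_some, Multiset.card_add,
                  Multiset.card_singleton] at hn
                omega)
              (by simp only [dg_cons_none, dg_cons_some, dg_append, dg_nil] at hd ⊢; omega)
              (by rw [hC]; simp only [lt_cons_none, lt_cons_some, lt_append, lt_nil]; abel)
            have e3 : σ₁ ++ ([(p, some y), (r, none), (r', some x)] ++ (μ ++ (q, some x) :: σ₂)) =
                (σ₁ ++ [(p, some y), (r, none)]) ++ (r', some x) :: (μ ++ (q, some x) :: σ₂) := by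
              simp
            rw [e3, h2, add_zero] at h
            exact h
      · have h := E1 hA ha hX true x y (by simp) σ₁ (μ ++ (q, some x) :: σ₂)
          (by simp only [dg_cons_none, dg_cons_some, dg_append] at hd ⊢; omega)
          (by rw [hC]; simp only [lt_cons_none, lt_cons_some, lt_append]; abel) p r
        rw [sm_true, Ph_add] at h
        have e1 : o p x * o r y = ev a [(p, some x), (r, some y)] := by simp
        have e2 : o p y * o r x = ev a [(p, some y), (r, some x)] := by simp
        rw [e1, e2, Ph_ev, Ph_ev] at h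
        have h2 := ih (σ₁ ++ [(p, some y)]) μ σ₂ x r q
          (by
            simp only [lt_cons_none, lt_cons_some, Multiset.card_add,
              Multiset.card_singleton] at hn
            omega)
          (by simp only [dg_cons_none, dg_cons_some, dg_append, dg_nil] at hd ⊢; omega)
          (by rw [hC]; simp only [lt_cons_none, lt_cons_some, lt_append, lt_nil]; abel)
        have e3 : σ₁ ++ ([(p, some y), (r, some x)] ++ (μ ++ (q, some x) :: σ₂)) =
            (σ₁ ++ [(p, some y)]) ++ (r, some x) :: (μ ++ (q, some x) :: σ₂) := by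
          simp
        rw [e3, h2, add_zero] at h
        exact h

theorem mem_lt {x : A} : ∀ σ : List (Sy A), x ∈ lt σ →
    ∃ (μ : List (Sy A)) (q : Bool) (σ₂ : List (Sy A)), σ = μ ++ (q, some x) :: σ₂ := by
  intro σ
  induction σ with
  | nil => intro h; simp at h
  | cons s σ ih =>
    obtain ⟨s, w⟩ := s
    rcases w with _ | w
    · intro h
      rw [lt_cons_none] at h
      obtain ⟨μ, q, σ₂, rfl⟩ := ih h
      exact ⟨(s, none) :: μ, q, σ₂, rfl⟩
    · intro h
      rw [lt_cons_some, Multiset.mem_add, Multiset.mem_singleton] at h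
      rcases h with rfl | h
      · exact ⟨[], s, σ, rfl⟩
      · obtain ⟨μ, q, σ₂, rfl⟩ := ih h
        exact ⟨(s, some w) :: μ, q, σ₂, rfl⟩

theorem exists_repeat : ∀ σ : List (Sy A), ¬ (lt σ).Nodup →
    ∃ (σ₁ : List (Sy A)) (p : Bool) (x : A) (μ : List (Sy A)) (q : Bool) (σ₂ : List (Sy A)),
      σ = σ₁ ++ (p, some x) :: (μ ++ (q, some x) :: σ₂) := by
  intro σ
  induction σ with
  | nil => intro h; exact absurd Multiset.nodup_zero h
  | cons s σ ih =>
    obtain ⟨s, w⟩ := s
    rcases w with _ | w
    · intro h
      rw [lt_cons_none] at h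
      obtain ⟨σ₁, p, x, μ, q, σ₂, rfl⟩ := ih h
      exact ⟨(s, none) :: σ₁, p, x, μ, q, σ₂, rfl⟩
    · intro h
      rw [lt_cons_some, Multiset.singleton_add, Multiset.nodup_cons, not_and_or, not_not] at h
      rcases h with h | h
      · obtain ⟨μ, q, σ₂, rfl⟩ := mem_lt σ h
        exact ⟨[], s, w, μ, q, σ₂, rfl⟩
      · obtain ⟨σ₁, p, x, μ, q, σ₂, rfl⟩ := ih h
        exact ⟨(s, some w) :: σ₁, p, x, μ, q, σ₂, rfl⟩

theorem lemR' (hA : IsAlt A) {a : A} (ha : Hy a) {k : ℕ} (σ : List (Sy A))
    (hX : Ctx a k (lt σ)) (hd : dg σ = k) (hn : ¬ (lt σ).Nodup) : ev a σ a = 0 := by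
  obtain ⟨σ₁, p, x, μ, q, σ₂, rfl⟩ := exists_repeat σ hn
  refine lemR hA ha hX _ σ₁ μ σ₂ x p q rfl ?_ ?_
  · simp only [dg_append, dg_cons_some] at hd
    omega
  · simp only [lt_append, lt_cons_some]; abel

/-- The vanishing lemma: few letters, few distinct letters. -/
theorem lemV (hA : IsAlt A) {a : A} (ha : Hy a) (k M : ℕ)
    (hMin : ∀ σ : List (Sy A), dg σ = k → ev a σ a ≠ 0 → M ≤ 2 * Multiset.card (lt σ)) :
    ∀ (n : ℕ) (σ : List (Sy A)), dg σ = k → Multiset.card (lt σ) = n →
      (∃ F : Finset A, (∀ x ∈ lt σ, x ∈ F) ∧ F.card + n < M) → ev a σ a = 0 := by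
  classical
  intro n
  induction n using Nat.strong_induction_on with
  | _ n ih =>
    rintro σ hd hn ⟨F, hF, hFM⟩
    have hX : Ctx a k (lt σ) := by
      constructor
      · intro τ x y C₀ hτ hC hl
        have hc : Multiset.card (lt τ) + 1 = n := by
          rw [← hn, hl, hC]
          simp only [Multiset.card_add, Multiset.card_singleton]
          omega
        refine ih (n - 1) (by omega) τ hτ (by omega) ⟨insert (x * y) F, ?_, ?_⟩
        · intro z hz
          rw [hl, Multiset.mem_add, Multiset.mem_singleton] at hz
          rcases hz with rfl | hz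
          · exact Finset.mem_insert_self _ _
          · exact Finset.mem_insert_of_mem (hF z (by rw [hC]; exact Multiset.mem_add.2 (Or.inr hz)))
        · have := Finset.card_insert_le (x * y) F
          omega
      · intro τ x hτ hC
        have hc : Multiset.card (lt τ) + 1 = n := by
          rw [← hn, hC]
          simp only [Multiset.card_add, Multiset.card_singleton]
          omega
        refine ih (n - 1) (by omega) τ hτ (by omega) ⟨F, ?_, by omega⟩
        intro z hz
        exact hF z (by rw [hC]; exact Multiset.mem_add.2 (Or.inr hz))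
    by_cases hnd : (lt σ).Nodup
    · by_contra hne
      have h1 := hMin σ hd hne
      have h2 : Multiset.card (lt σ) ≤ F.card := by
        rw [← Multiset.toFinset_card_of_nodup hnd]
        refine Finset.card_le_card (fun z hz => hF z (Multiset.mem_toFinset.1 hz))
      omega
    · exact lemR' hA ha σ hX hd hnd

end Pool.Agent.K6.H1.Alt
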