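import Pool.Agent.K6.H1.Alt.Moufang

set_option autoImplicit false
set_option linter.unusedSectionVars false

/-!
# Strings of multiplication operators
-/

namespace Pool.Agent.K6.H1.Alt

universe u

variable {A : Type u} [NonUnitalNonAssocRing A]

/-- A symbol: a side (`true` = left multiplication) and a letter (`none` = the distinguished
element). -/
abbrev Sy (A : Type u) := Bool × Option A

/-- Multiplication on the side `s`. -/
def o (s : Bool) (x : A) : AddMonoid.End A := if s then L x else R x

@[simp] theorem o_true (x : A) : o true x = L x := rfl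

@[simp] theorem o_false (x : A) : o false x = R x := rfl

theorem o_add (s : Bool) (x y : A) : o s (x + y) = o s x + o s y := by
  cases s
  · exact R_add x y
  · exact L_add x y

/-- The operator of a symbol. -/
def os (a : A) (s : Sy A) : AddMonoid.End A := o s.1 (s.2.getD a)

/-- The operator of a string. -/
def ev (a : A) (σ : List (Sy A)) : AddMonoid.End A := (σ.map (os a)).prod

/-- The letters of a string. -/
def lt (σ : List (Sy A)) : Multiset A := (σ.filterMap Prod.snd : List A)

/-- The number of occurrences of the distinguished element in a string. -/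
def dg : List (Sy A) → ℕ
  | [] => 0
  | (_, none) :: σ => dg σ + 1
  | (_, some _) :: σ => dg σ

@[simp] theorem ev_nil (a : A) : ev a ([] : List (Sy A)) = 1 := rfl

theorem ev_cons (a : A) (s : Sy A) (σ : List (Sy A)) : ev a (s :: σ) = os a s * ev a σ := rfl

@[simp] theorem ev_cons_none (a : A) (s : Bool) (σ : List (Sy A)) :
    ev a ((s, none) :: σ) = o s a * ev a σ := rfl

@[simp] theorem ev_cons_some (a : A) (s : Bool) (x : A) (σ : List (Sy A)) :
    ev a ((s, some x) :: σ) = o s x * ev a σ := rfl

theorem ev_append (a : A) (σ τ : List (Sy A)) : ev a (σ ++ τ) = ev a σ * ev a τ := by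
  unfold ev
  rw [List.map_append, List.prod_append]

@[simp] theorem lt_nil : lt ([] : List (Sy A)) = 0 := rfl

@[simp] theorem lt_cons_none (s : Bool) (σ : List (Sy A)) : lt ((s, none) :: σ) = lt σ := rfl

@[simp] theorem lt_cons_some (s : Bool) (x : A) (σ : List (Sy A)) :
    lt ((s, some x) :: σ) = {x} + lt σ := rfl

@[simp] theorem lt_append (σ τ : List (Sy A)) : lt (σ ++ τ) = lt σ + lt τ := by
  unfold lt
  rw [List.filterMap_append]
  rfl

@[simp] theorem dg_nil : dg ([] : List (Sy A)) = 0 := rfl

@[simp] theorem dg_cons_none (s : Bool) (σ : List (Sy A)) : dg ((s, none) :: σ) = dg σ + 1 := rfl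

@[simp] theorem dg_cons_some (s : Bool) (x : A) (σ : List (Sy A)) :
    dg ((s, some x) :: σ) = dg σ := rfl

@[simp] theorem dg_append (σ τ : List (Sy A)) : dg (σ ++ τ) = dg σ + dg τ := by
  induction σ with
  | nil => simp
  | cons s σ ih =>
    obtain ⟨s, o⟩ := s
    cases o with
    | none => simp [ih]; omega
    | some x => simp [ih]

/-- The value of a string in the surroundings `σ₁`, `σ₂`. -/
def Ph (a : A) (σ₁ σ₂ : List (Sy A)) (f : AddMonoid.End A) : A := ev a σ₁ (f (ev a σ₂ a))

section Ph

variable (a : A) (σ₁ σ₂ : List (Sy A))

theorem Ph_add (f g : AddMonoid.End A) : Ph a σ₁ σ₂ (f + g) = Ph a σ₁ σ₂ f + Ph a σ₁ σ₂ g := by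
  unfold Ph
  rw [E_add, map_add]

theorem Ph_sub (f g : AddMonoid.End A) : Ph a σ₁ σ₂ (f - g) = Ph a σ₁ σ₂ f - Ph a σ₁ σ₂ g := by
  unfold Ph
  rw [E_sub, map_sub]

theorem Ph_neg (f : AddMonoid.End A) : Ph a σ₁ σ₂ (-f) = -Ph a σ₁ σ₂ f := by
  unfold Ph
  rw [E_neg, map_neg]

theorem Ph_zero : Ph a σ₁ σ₂ (0 : AddMonoid.End A) = 0 := by
  unfold Ph
  rw [E_zero, map_zero]

theorem Ph_ev (m : List (Sy A)) : Ph a σ₁ σ₂ (ev a m) = ev a (σ₁ ++ (m ++ σ₂)) a := by
  unfold Ph
  rw [ev_append, ev_append]
  rfl

/-- Move a symbol from the right surroundings into the operator. -/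
theorem Ph_consR (s : Sy A) (f : AddMonoid.End A) :
    Ph a σ₁ (s :: σ₂) f = Ph a σ₁ σ₂ (f * os a s) := by
  unfold Ph
  rw [ev_cons]
  rfl

/-- Move a symbol from the left surroundings into the operator. -/
theorem Ph_snocL (s : Sy A) (f : AddMonoid.End A) :
    Ph a (σ₁ ++ [s]) σ₂ f = Ph a σ₁ σ₂ (os a s * f) := by
  unfold Ph
  rw [ev_append, ev_cons, ev_nil, mul_one]
  rfl

end Ph

/-- Symmetrised or quadratic sums. -/
def sm {M : Type*} [Add M] (b : Bool) (x y : A) (f : A → A → M) : M :=
  if b then f x y + f y x else f x y

section sm

variable {M N : Type*} [AddCommGroup M] [AddCommGroup N] (b : Bool) (x y : A)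

theorem sm_true (f : A → A → M) : sm true x y f = f x y + f y x := rfl

theorem sm_false (f : A → A → M) : sm false x y f = f x y := rfl

theorem sm_add (f g : A → A → M) :
    sm b x y (fun u v => f u v + g u v) = sm b x y f + sm b x y g := by
  cases b
  · rfl
  · simp only [sm_true]; abel

theorem sm_sub (f g : A → A → M) :
    sm b x y (fun u v => f u v - g u v) = sm b x y f - sm b x y g := by
  cases b
  · rfl
  · simp only [sm_true]; abel

theorem sm_neg (f : A → A → M) :
    sm b x y (fun u v => -f u v) = -sm b x y f := by
  cases b
  · rfl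
  · simp only [sm_true]; abel

theorem sm_zero : sm b x y (fun _ _ => (0 : M)) = 0 := by
  cases b
  · rfl
  · simp only [sm_true]; abel

theorem sm_congr {f g : A → A → M}
    (h : ∀ u v, ({u} + {v} : Multiset A) = {x} + {y} → f u v = g u v) :
    sm b x y f = sm b x y g := by
  cases b
  · exact h x y rfl
  · rw [sm_true, sm_true, h x y rfl, h y x (add_comm _ _)]

theorem sm_eq_zero {f : A → A → M}
    (h : ∀ u v, ({u} + {v} : Multiset A) = {x} + {y} → f u v = 0) :
    sm b x y f = 0 := by
  rw [sm_congr b x y h, sm_zero]

theorem sm_mul_right (f : A → A → AddMonoid.End A) (g : AddMonoid.End A) :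
    sm b x y f * g = sm b x y (fun u v => f u v * g) := by
  cases b
  · rfl
  · simp only [sm_true, add_mul]

theorem sm_mul_left (f : A → A → AddMonoid.End A) (g : AddMonoid.End A) :
    g * sm b x y f = sm b x y (fun u v => g * f u v) := by
  cases b
  · rfl
  · simp only [sm_true, mul_add]

theorem Ph_sm (a : A) (σ₁ σ₂ : List (Sy A)) (f : A → A → AddMonoid.End A) :
    Ph a σ₁ σ₂ (sm b x y f) = sm b x y (fun u v => Ph a σ₁ σ₂ (f u v)) := by
  cases b
  · rfl
  · simp only [sm_true, Ph_add]

end sm

section ids

variable (hA : IsAlt A) (b : Bool) (x y : A) (hb : b = false → x = y)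

include hA hb

theorem sm_U_R (z : A) : sm b x y (fun u v => L u * R v) * R z =
    sm b x y (fun u v => R (z * u) * L v) := by
  cases b
  · obtain rfl := hb rfl
    exact U_R hA x z
  · exact U_R2 hA x y z

theorem sm_U_L (z : A) : sm b x y (fun u v => L u * R v) * L z =
    sm b x y (fun u v => L (u * z) * R v) := by
  cases b
  · obtain rfl := hb rfl
    exact U_L hA x z
  · exact U_L2 hA x y z

theorem sm_R_U (z : A) : R z * sm b x y (fun u v => L u * R v) =
    sm b x y (fun u v => L u * R (v * z)) := by
  cases b
  · obtain rfl := hb rfl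
    exact R_U hA x z
  · exact R_U2 hA x y z

theorem sm_L_U (z : A) : L z * sm b x y (fun u v => L u * R v) =
    sm b x y (fun u v => R u * L (z * v)) := by
  cases b
  · obtain rfl := hb rfl
    exact L_U hA x z
  · exact L_U2 hA x y z

theorem sm_RR : sm b x y (fun u v => R u * R v) = sm b x y (fun u v => R (u * v)) := by
  cases b
  · obtain rfl := hb rfl
    exact RR_self hA x
  · exact RR_symm hA x y

theorem sm_LL : sm b x y (fun u v => L u * L v) = sm b x y (fun u v => L (u * v)) := by
  cases b
  · obtain rfl := hb rfl
    exact LL_self hA x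
  · exact LL_symm hA x y

theorem sm_RL : sm b x y (fun u v => R u * L v) = sm b x y (fun u v => L u * R v) := by
  cases b
  · obtain rfl := hb rfl
    exact RL_self hA x
  · exact RL_symm hA x y

theorem sm_U_A (r : Bool) (a : A) : sm b x y (fun u v => L u * R v) * o r a =
    sm b x y (fun u v => (L u + R u) * o r a * o (!r) v) -
      sm b x y (fun u v => o r a * o (!r) (u * v)) := by
  cases b
  · obtain rfl := hb rfl
    cases r
    · exact U_Ra hA x a
    · exact U_La hA x a
  · cases r
    · have h := U_Ra2 hA x y a
      rw [L_add] at h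
      simp only [sm_true, o_false, Bool.not_false, o_true]
      linear_combination (norm := noncomm_ring) h
    · have h := U_La2 hA x y a
      rw [R_add] at h
      simp only [sm_true, o_false, Bool.not_true, o_true]
      linear_combination (norm := noncomm_ring) h

theorem sm_A_U (r : Bool) (a : A) : o r a * sm b x y (fun u v => L u * R v) =
    sm b x y (fun u v => o (!r) u * o r a * (L v + R v)) -
      sm b x y (fun u v => o (!r) (u * v) * o r a) := by
  cases b
  · obtain rfl := hb rfl
    cases r
    · exact Ra_U hA x a
    · exact La_U hA x a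
  · cases r
    · have h := Ra_U2 hA x y a
      rw [L_add] at h
      simp only [sm_true, o_false, Bool.not_false, o_true]
      linear_combination (norm := noncomm_ring) h
    · have h := La_U2 hA x y a
      rw [R_add] at h
      simp only [sm_true, o_false, Bool.not_true, o_true]
      linear_combination (norm := noncomm_ring) h

end ids

theorem LL_RR (hA : IsAlt A) (i j : A) : L i * L j = R i * R j + L (i * j) - R (j * i) := by
  have h := RR_symm hA i j
  have h2 := LL_rw hA i j
  linear_combination (norm := noncomm_ring) h2 - h

/-- The basic hypotheses on the distinguished element. -/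
structure Hy (a : A) : Prop where
  sq : a * a = 0
  sand : ∀ z : A, (a * z) * a = 0

section hy

variable (hA : IsAlt A) {a : A} (ha : Hy a)

include hA ha

theorem AA (s r : Bool) : o s a * o r a = 0 := by
  cases s <;> cases r
  · rw [o_false, RR_self hA, ha.sq, R_zero]
  · ext z
    exact ha.sand z
  · ext z
    show a * (z * a) = 0
    rw [← flex hA]
    exact ha.sand z
  · rw [o_true, LL_self hA, ha.sq, L_zero]

/-- The operator `O_x`. -/
def Ox (a x : A) : AddMonoid.End A := L a * R x * L a

omit hA ha in
theorem Ox_def (a x : A) : Ox a x = L a * R x * L a := rfl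

/-- The sign table for `A x A`. -/
def sg (s p r : Bool) : ℤ :=
  match s, p, r with
  | true, true, true => 0
  | false, false, false => 0
  | true, true, false => 1
  | true, false, true => 1
  | false, true, true => 1
  | true, false, false => -1
  | false, true, false => -1
  | false, false, true => -1

theorem table (s p r : Bool) (x : A) : o s a * o p x * o r a = sg s p r • Ox a x := by
  have hRR : R a * R a = 0 := AA hA ha false false
  have hRL : R a * L a = 0 := AA hA ha false true
  have hLR : L a * R a = 0 := AA hA ha true false
  have hLL : L a * L a = 0 := AA hA ha true true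
  have hc := LR_comm hA a x
  -- hc : L a * R x - R x * L a + (L x * R a - R a * L x) = 0
  have e1 : L a * L x * R a = L a * R x * L a := by
    have := congrArg (fun f => L a * f) hc
    simp only [mul_zero] at this
    linear_combination (norm := noncomm_ring) this - hLL * R x + hLR * L x
  have e2 : L a * R x * L a = R a * L x * L a := by
    have := congrArg (fun f => f * L a) hc
    simp only [zero_mul] at this
    linear_combination (norm := noncomm_ring) this + R x * hLL - L x * hRL
  have e3 : R a * R x * L a = R a * L x * R a := by
    have := congrArg (fun f => R a * f) hc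
    simp only [mul_zero] at this
    linear_combination (norm := noncomm_ring) -this + hRL * R x - hRR * L x
  have e4 : L a * R x * R a = R a * L x * R a := by
    have := congrArg (fun f => f * R a) hc
    simp only [zero_mul] at this
    linear_combination (norm := noncomm_ring) this + R x * hLR - L x * hRR
  have e5 : L a * L x * R a = -(L a * R x * R a) := by
    have h := U_L hA a x
    rw [show L a * R a * L x = 0 by rw [hLR, zero_mul], L_mul hA] at h
    linear_combination (norm := noncomm_ring) -h + R x * hLR
  have e6 : L a * L x * L a = 0 := by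
    rw [LLL hA, ha.sand, L_zero]
  have e7 : R a * R x * R a = 0 := by
    rw [RRR hA, ← flex hA, ha.sand, R_zero]
  have f1 : L a * R x * R a = -(L a * R x * L a) := by
    rw [← e1, e5, neg_neg]
  have f2 : R a * L x * R a = -(L a * R x * L a) := by
    rw [← e4, f1]
  have f3 : R a * R x * L a = -(L a * R x * L a) := by
    rw [e3, f2]
  unfold Ox sg
  cases s <;> cases p <;> cases r
  · simp only [o_false, e7, zero_smul]
  · simp only [o_false, o_true, f3, neg_smul, one_smul]
  · simp only [o_false, o_true, f2, neg_smul, one_smul]
  · simp only [o_false, o_true, ← e2, one_smul]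
  · simp only [o_false, o_true, f1, neg_smul, one_smul]
  · simp only [o_false, o_true, one_smul]
  · simp only [o_false, o_true, e1, one_smul]
  · simp only [o_true, e6, zero_smul]

theorem A_pa (s p : Bool) (x : A) : o s a (o p x a) = 0 := by
  cases s <;> cases p
  · show (a * x) * a = 0
    exact ha.sand x
  · show (x * a) * a = 0
    rw [(hA a x).2, ha.sq, mul_zero]
  · show a * (a * x) = 0
    rw [← (hA a x).1, ha.sq, zero_mul]
  · show a * (x * a) = 0
    rw [← flex hA]
    exact ha.sand x

omit hA in
theorem A_a (s : Bool) : o s a a = 0 := by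
  cases s
  · exact ha.sq
  · exact ha.sq

/-- `O_x` is alternating. -/
theorem Ox_swap (x w : A) : Ox a x w = -Ox a w x := by
  have h := alt_r hA a w x
  -- (x*a)*w + (x*w)*a = x*(a*w) + x*(w*a)
  have h1 := table hA ha false true false x
  have h2 := table hA ha false true false w
  have h1' := congrArg (fun f => f w) h1
  have h2' := congrArg (fun f => f x) h2
  have g1 : (x * (w * a)) * a = -Ox a x w := by
    have : R a (L x (R a w)) = (sg false true false • Ox a x) w := h1'
    rw [show sg false true false = -1 from rfl, neg_smul, one_smul] at this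
    exact this
  have g2 : (w * (x * a)) * a = -Ox a w x := by
    have : R a (L w (R a x)) = (sg false true false • Ox a w) x := h2'
    rw [show sg false true false = -1 from rfl, neg_smul, one_smul] at this
    exact this
  have h3 := alt_l hA x w a
  -- (x*w)*a + (w*x)*a = x*(w*a) + w*(x*a)
  have h4 : (x * (w * a)) * a + (w * (x * a)) * a = 0 := by
    rw [← add_mul, ← h3, ← add_mul, (hA a _).2, ha.sq, mul_zero]
  rw [g1, g2] at h4
  have : Ox a x w = -Ox a w x - (-Ox a x w + -Ox a w x) := by abel
  rw [this, h4, sub_zero]

theorem RTL (x : A) : R a * (L x + R x) * L a = 0 := by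
  have h1 := table hA ha false true true x
  have h2 := table hA ha false false true x
  simp only [o_false, o_true, sg] at h1 h2
  rw [mul_add, add_mul, h1, h2, one_smul, neg_smul, one_smul, add_neg_cancel]

/-- Two letters between three `a`'s: zero. -/
theorem Ox_tA (x y : A) (t r : Bool) : Ox a x * o t y * o r a = 0 := by
  have key : ∀ z : A, R a (L x (R a (L y (R a z)))) = 0 := by
    intro z
    have h1 := table hA ha false true false x
    have h1' : R a (L x (R a (y * (z * a)))) = (sg false true false • Ox a x) (y * (z * a)) :=
      congrArg (fun f => f (y * (z * a))) h1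
    have h2 := table hA ha false true false (y * (z * a))
    have h2' : R a (L (y * (z * a)) (R a x)) = (sg false true false • Ox a (y * (z * a))) x :=
      congrArg (fun f => f x) h2
    rw [show sg false true false = -1 from rfl, neg_smul, one_smul] at h1' h2'
    have h3 := Ox_swap hA ha x (y * (z * a))
    have hz : R a * L (y * (z * a)) * R a = 0 := by
      rw [L_mul' hA y (z * a), L_mul' hA z a]
      have k1 := RTL hA ha y
      have k2 := RTL hA ha z
      have k3 := AA hA ha false true
      have k4 := AA hA ha true false
      simp only [o_false, o_true] at k3 k4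
      have e : R a * ((L y + R y) * ((L z + R z) * L a - L a * R z) -
          ((L z + R z) * L a - L a * R z) * R y) * R a =
          R a * (L y + R y) * (L z + R z) * (L a * R a) - (R a * (L y + R y) * L a) * R z * R a -
          (R a * (L z + R z) * L a) * R y * R a + (R a * L a) * R z * R y * R a := by
        noncomm_ring
      rw [e, k1, k2, k3, k4]
      simp
    show R a (L x (R a (y * (z * a)))) = 0
    rw [h1', E_neg, h3, neg_neg]
    have : (-Ox a (y * (z * a))) x = 0 := by
      rw [← h2']
      have := congrArg (fun f => f x) hz
      exact this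
    rw [E_neg] at this
    exact neg_eq_zero.1 this
  have hF : R a * L x * R a * L y * R a = 0 := by
    ext z
    exact key z
  have hOx : Ox a x = -(R a * L x * R a) := by
    have h1 := table hA ha false true false x
    rw [show sg false true false = -1 from rfl, neg_smul, one_smul] at h1
    simp only [o_false, o_true] at h1
    rw [h1, neg_neg]
  have h2 := table hA ha false t r y
  have h3 := table hA ha false true false y
  rw [show sg false true false = -1 from rfl, neg_smul, one_smul] at h3
  simp only [o_false, o_true] at h2 h3
  rw [hOx]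
  have : -(R a * L x * R a) * o t y * o r a = -(R a * L x * (R a * o t y * o r a)) := by
    noncomm_ring
  rw [this, h2, mul_smul_comm, ← neg_neg (Ox a y), ← h3]
  have : R a * L x * -(R a * L y * R a) = -(R a * L x * R a * L y * R a) := by noncomm_ring
  rw [this, hF, neg_zero, zsmul_zero, neg_zero]

/-- `A₁ x A₂ y A₃ = 0`. -/
theorem F2 (s p r t q : Bool) (x y : A) : o s a * o p x * o r a * o t y * o q a = 0 := by
  rw [table hA ha, smul_mul_assoc, smul_mul_assoc, Ox_tA hA ha, zsmul_zero]

end hy

end Pool.Agent.K6.H1.Alt
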